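import Pool.Agent.P.MP_874adf_gt.Fs.Ident

/-! Fields of quadratic forms that are invariant along chords are the model fields. -/

set_option autoImplicit false

namespace Pool.Agent.P.MP_874adf_gt.Fs

open Set Filter Topology Metric

lemma alg_three {A B C : ℝ} {u v w : P} (hu : bf A B C u u = 0) (hv : bf A B C v v = 0)
    (hw : bf A B C w w = 0) (h : wed u v * wed u w * wed v w ≠ 0) (z : P) : bf A B C z z = 0 := by
  refine (mul_eq_zero.1 ?_).resolve_right h
  simp only [bf, wed] at *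
  linear_combination (z.1 * v.2 - z.2 * v.1) * (z.1 * w.2 - z.2 * w.1) * (v.1 * w.2 - v.2 * w.1) * hu
    - (z.1 * u.2 - z.2 * u.1) * (z.1 * w.2 - z.2 * w.1) * (u.1 * w.2 - u.2 * w.1) * hv
    + (z.1 * u.2 - z.2 * u.1) * (z.1 * v.2 - z.2 * v.1) * (u.1 * v.2 - u.2 * v.1) * hw

lemma alg_uniq {W : Set P} {A B C : P → ℝ} (hW : IsOpen W) (cA : ContinuousOn A W)
    (cB : ContinuousOn B W) (cC : ContinuousOn C W) (H : ∀ X ∈ W, ∀ Y ∈ W,
      bf (A X) (B X) (C X) (X - Y) (X - Y) = bf (A Y) (B Y) (C Y) (X - Y) (X - Y))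
    {o : P} {h : ℝ} (h0 : h ≠ 0) (m1 : o ∈ W) (m2 : o + (h, 0) ∈ W) (m3 : o + (0, h) ∈ W)
    (a1 : A o = 0) (b1 : B o = 0) (c1 : C o = 0) (b2 : B (o + (h, 0)) = 0)
    (b3 : B (o + (0, h)) = 0) (a3 : A (o + (0, h)) = 0) {X : P} (hX : X ∈ W) (z : P) :
    bf (A X) (B X) (C X) z z = 0 := by
  have a2 : A (o + (h, 0)) = 0 := by simpa [bf, a1, h0] using H _ m2 _ m1
  have c3 : C (o + (0, h)) = 0 := by simpa [bf, c1, h0] using H _ m3 _ m1
  have c2 : C (o + (h, 0)) = 0 := by simpa [bf, a2, a3, b2, b3, c3, h0] using H _ m2 _ m3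
  have d := (((dense_compl_singleton o.1).preimage isOpenMap_fst).inter_of_isOpen_right
    ((dense_compl_singleton o.2).preimage isOpenMap_snd)
    (isOpen_compl_singleton.preimage continuous_snd)).inter_of_isOpen_right
    ((dense_compl_singleton (o.1 + o.2 + h)).preimage (LinearMap.isOpenMap_of_finiteDimensional
      (LinearMap.fst ℝ ℝ ℝ + LinearMap.snd ℝ ℝ ℝ) fun a => ⟨(a, 0), by simp⟩))
    (isOpen_compl_singleton.preimage (continuous_fst.add continuous_snd))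
  refine EqOn.of_subset_closure (f := fun X => bf (A X) (B X) (C X) z z) (g := fun _ => 0)
    (fun Y hY => ?_) (by unfold bf; fun_prop) continuousOn_const inter_subset_left
    (d.open_subset_closure_inter hW) hX
  obtain ⟨hY, ⟨y1, y2⟩, y3⟩ := hY
  refine alg_three ((H Y hY _ m1).trans (by simp [bf, a1, b1, c1]))
    ((H Y hY _ m2).trans (by simp [bf, a2, b2, c2]))
    ((H Y hY _ m3).trans (by simp [bf, a3, b3, c3])) ?_ z
  have e : wed (Y - o) (Y - (o + (h, 0))) * wed (Y - o) (Y - (o + (0, h))) *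
      wed (Y - (o + (h, 0))) (Y - (o + (0, h))) =
      h ^ 3 * (Y.1 - o.1) * (Y.2 - o.2) * (Y.1 + Y.2 - (o.1 + o.2 + h)) := by
    simp only [wed, Prod.fst_add, Prod.snd_add, Prod.fst_sub, Prod.snd_sub]
    ring
  rw [e]
  exact mul_ne_zero (mul_ne_zero (mul_ne_zero (pow_ne_zero _ h0) (sub_ne_zero.2 y1))
    (sub_ne_zero.2 y2)) (sub_ne_zero.2 y3)

theorem t_alg : S_ALG := by
  intro W F p q s hW ⟨o, ho⟩ cp cq cs hF H
  obtain ⟨h, ⟨m2, m3⟩, h0⟩ : ∃ h : ℝ, (o + (h, 0) ∈ W ∧ o + (0, h) ∈ W) ∧ h ∈ ({0}ᶜ : Set ℝ) := by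
    have t1 : Tendsto (fun h : ℝ => o + (h, 0)) (𝓝 0) (𝓝 o) :=
      Continuous.tendsto' (by fun_prop) _ _ (add_zero o)
    have t2 : Tendsto (fun h : ℝ => o + (0, h)) (𝓝 0) (𝓝 o) :=
      Continuous.tendsto' (by fun_prop) _ _ (add_zero o)
    exact ((((t1.eventually (hW.mem_nhds ho)).and (t2.eventually (hW.mem_nhds ho))).filter_mono
      nhdsWithin_le_nhds).and (self_mem_nhdsWithin (s := {0}ᶜ))).exists
  replace h0 : h ≠ 0 := h0
  obtain ⟨p0, D0, -⟩ := hF o ho
  obtain ⟨b, e1, e2⟩ : ∃ b : P, h * (p o * b.1 + q o * b.2) = q (o + (h, 0)) - q o ∧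
      h * (q o * b.1 + s o * b.2) = q o - q (o + (0, h)) :=
    have e := mul_inv_cancel₀ (mul_ne_zero h0 D0.ne')
    ⟨((s o * (q (o + (h, 0)) - q o) - q o * (q o - q (o + (0, h)))) / (h * (p o * s o - q o ^ 2)),
      (p o * (q o - q (o + (0, h))) - q o * (q (o + (h, 0)) - q o)) / (h * (p o * s o - q o ^ 2))),
      by linear_combination (q (o + (h, 0)) - q o) * e,
      by linear_combination (q o - q (o + (0, h))) * e⟩
  obtain ⟨k, e3⟩ : ∃ k : ℝ, h ^ 2 * (k + bf (p o) (q o) (s o) b b) =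
      p (o + (0, h)) - p o + 2 * (q (o + (h, 0)) - q o) :=
    ⟨(p (o + (0, h)) - p o + 2 * (q (o + (h, 0)) - q o)) / h ^ 2 - bf (p o) (q o) (s o) b b,
      by field_simp; ring⟩
  have key : ∀ X ∈ W, ∀ z, bf (p X) (q X) (s X) z z = Qm o b (p o) (q o) (s o) k X z := by
    intro X hX z
    have := alg_uniq (A := fun X => p X - Qm o b (p o) (q o) (s o) k X (1, 0))
      (B := fun X => q X - (Qm o b (p o) (q o) (s o) k X (1, 1) - Qm o b (p o) (q o) (s o) k X (1, 0)
        - Qm o b (p o) (q o) (s o) k X (0, 1)) / 2)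
      (C := fun X => s X - Qm o b (p o) (q o) (s o) k X (0, 1)) hW
      (by unfold Qm bf wed; fun_prop) (by unfold Qm bf wed; fun_prop)
      (by unfold Qm bf wed; fun_prop) (fun X hX Y hY => ?_) h0 ho m2 m3 ?_ ?_ ?_ ?_ ?_ ?_ hX z
    on_goal 2 => replace H := H X hX Y hY
    all_goals simp only [Qm, bf, wed, Prod.fst_add, Prod.snd_add, Prod.smul_fst, Prod.smul_snd,
      smul_eq_mul, Prod.fst_sub, Prod.snd_sub] at *
    · linear_combination this
    · linear_combination H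
    · ring
    · ring
    · ring
    · linear_combination -e1
    · linear_combination e2
    · linear_combination 2 * e1 - e3
  have hD : ∀ X ∈ W, Dm o b (p o) (q o) (s o) k X = p X * s X - q X ^ 2 := fun X hX => by
    rw [← det_ident, ← key X hX, ← key X hX, ← key X hX]
    simp only [bf]
    ring
  exact ⟨o, b, _, _, _, k, ho, p0, D0, fun X hX => hD X hX ▸ (hF X hX).2.1,
    fun X hX v => by rw [hD X hX, ← key X hX, (hF X hX).2.2]⟩

end Pool.Agent.P.MP_874adf_gt.Fs
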