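import Pool.Agent.P.MP_874adf_gt.Fs.B1

/-! Blow-up when the ratio tends to zero. -/

set_option autoImplicit false

namespace Pool.Agent.P.MP_874adf_gt.Fs

open Set Filter Topology Metric

lemma b0_abs {M : Set P} {d : P → P → ℝ} (h : PM M d) {y z B : P} (hy : y ∈ M) (hz : z ∈ M)
    (hB : B ∈ M) : |d y B - d z B| ≤ d y z := by
  have t1 := h.triangle y hy z hz B hB
  have t2 := h.triangle z hz y hy B hB
  rw [h.symm z hz y hy] at t2
  rw [abs_le]
  constructor <;> linarith

theorem t_b0 : S_B0 := by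
  intro M W d F sd x hx U B l r u bl u1
  have n := sd.isN x hx
  have mx := sd.sub hx
  have a0 : Tendsto (fun a : ℝ => a) U (𝓝 0) := bl.le.trans nhdsWithin_le_nhds
  have ap : ∀ᶠ a in (U : Filter ℝ), 0 < a := bl.le self_mem_nhdsWithin
  have mB : ∀ᶠ a in (U : Filter ℝ), B a ∈ M := bl.ev.mono fun a ha => ha.2.mem
  have b0 : ∀ᶠ a in (U : Filter ℝ), 0 < F x (B a - x) := by
    filter_upwards [bl.ev] with a ha using n.pos _ (sub_ne_zero.2 ha.2.ne)
  have Y1 : ∀ X : P, Tendsto (fun a : ℝ => x + a • X) U (𝓝 x) := fun X => by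
    simpa using (a0.smul_const X).const_add x
  have Y0 : ∀ X : P, ∀ᶠ a : ℝ in (U : Filter ℝ), x + a • X ∈ M := fun X =>
    (Y1 X).eventually (sd.pm.isOpen.mem_nhds mx)
  have Y2 : ∀ X X' : P, Tendsto (fun a : ℝ => a⁻¹ • (x + a • X' - (x + a • X))) U (𝓝 (X' - X)) := by
    intro X X'
    refine tendsto_const_nhds.congr' ?_
    filter_upwards [ap] with a ha
    rw [add_sub_add_left_eq_sub, ← smul_sub, smul_smul, inv_mul_cancel₀ ha.ne', one_smul]
  have Y3 : ∀ X X' : P, Tendsto (fun a : ℝ => d (x + a • X) (x + a • X') / a) U (𝓝 (F x (X' - X))) :=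
    fun X X' => sd.scaled hx (Y1 X) (Y1 X') ap (Y2 X X')
  have ex : ∀ X : P, ∃ β : ℝ,
      Tendsto (fun a : ℝ => (d x (B a) - d (x + a • X) (B a)) / a) U (𝓝 β) := by
    intro X
    obtain ⟨β, -, h⟩ := (isCompact_Icc (a := -(F x X + 1)) (b := F x X + 1)).ultrafilter_le_nhds
      (U.map fun a : ℝ => (d x (B a) - d (x + a • X) (B a)) / a) (by
        rw [Ultrafilter.coe_map, le_principal_iff, mem_map]
        have := (Y3 0 X).eventually (ge_mem_nhds (lt_add_one _))
        simp only [smul_zero, add_zero, sub_zero] at this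
        filter_upwards [ap, mB, Y0 X, this] with a h1 h2 h3 h4
        rw [mem_preimage, mem_Icc, ← abs_le, abs_div, abs_of_pos h1]
        exact (div_le_div_of_nonneg_right (b0_abs sd.pm mx h3 h2) h1.le).trans h4)
    exact ⟨β, h⟩
  choose b hb using ex
  have lip : ∀ X Y, b X - b Y ≤ F x (X - Y) := by
    intro X Y
    refine le_of_tendsto_of_tendsto ((hb X).sub (hb Y)) (Y3 Y X) ?_
    filter_upwards [ap, mB, Y0 X, Y0 Y] with a h1 h2 h3 h4
    rw [← sub_div]
    refine div_le_div_of_nonneg_right ?_ h1.le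
    linarith [sd.pm.triangle _ h4 _ h3 _ h2]
  have far : Tendsto (fun a => a / F x (B a - x)) U (𝓝 0) := by
    rw [Metric.tendsto_nhds]
    intro ε hε
    by_contra hc
    have hc' : ∀ᶠ a in (U : Filter ℝ), ¬ dist (a / F x (B a - x)) 0 < ε :=
      Ultrafilter.eventually_not.2 hc
    have le : ∀ᶠ a in (U : Filter ℝ), F x (B a - x) ≤ ε⁻¹ * a := by
      filter_upwards [hc', ap, b0] with a h1 h2 h3
      rw [Real.dist_eq, sub_zero, abs_of_pos (by positivity), not_lt, le_div_iff₀ h3] at h1
      rwa [le_inv_mul_iff₀ hε]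
    have t0 : Tendsto (fun a => F x (B a - x)) U (𝓝 0) :=
      squeeze_zero' (b0.mono fun a h => h.le) le (by simpa using a0.const_mul ε⁻¹)
    have t1 : Tendsto B U (𝓝 x) := by
      have := (t0.smul bl.tu).const_add x
      rw [zero_smul, add_zero] at this
      refine this.congr' ?_
      filter_upwards [b0] with a h
      rw [smul_smul, mul_inv_cancel₀ h.ne', one_smul, add_sub_cancel]
    have t2 := sd.scaled hx tendsto_const_nhds t1 b0 bl.tu
    rw [u1] at t2
    have t3 := bl.tr.mul t2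
    rw [zero_mul] at t3
    obtain ⟨a, h1, h2, h3, h4, h5⟩ := ((t3.eventually (gt_mem_nhds hε)).and
      (hc'.and (ap.and (b0.and bl.ev)))).exists
    apply h2
    have r0 := h5.2.r0
    rw [h5.2.dB] at h1
    rw [Real.dist_eq, sub_zero, abs_of_pos (by positivity)]
    refine lt_of_eq_of_lt ?_ h1
    field_simp
  have sh : ∀ X (t : ℝ), 0 < t → b (X + t • u) = b X + t := by
    intro X t ht
    apply le_antisymm
    · have := lip (X + t • u) X
      rw [add_sub_cancel_left, n.smul_nonneg ht.le, u1] at this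
      linarith
    have θ0 : Tendsto (fun a => t * (a / F x (B a - x))) U (𝓝 0) := by simpa using far.const_mul t
    have w : Tendsto (fun a => a⁻¹ • (t * (a / F x (B a - x))) • (x + a • X - B a)) U
        (𝓝 (-(t • u))) := by
      have := (θ0.smul_const X).sub (bl.tu.const_smul t)
      rw [zero_smul, zero_sub] at this
      refine this.congr' ?_
      filter_upwards [ap, b0] with a h1 h2
      have e : x + a • X - B a = a • X - (B a - x) := by module
      rw [e]
      generalize B a - x = z at h2 ⊢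
      rw [smul_sub, smul_sub]
      simp only [smul_smul]
      congr 2 <;> field_simp
    have k := sd.sandwich_lim hx mB (Y1 X) (Y1 (X + t • u)) ap
      (θ := fun a => t * (a / F x (B a - x)))
      (by
        filter_upwards [ap, b0, θ0.eventually (ge_mem_nhds one_pos)] with a h1 h2 h3
        exact ⟨by positivity, h3⟩)
      (by
        have := a0.smul w
        rw [zero_smul] at this
        refine this.congr' ?_
        filter_upwards [ap] with a h1
        rw [smul_smul a, mul_inv_cancel₀ h1.ne', one_smul])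
      (Y2 X (X + t • u)) w (β := b X - b (X + t • u))
      (((hb X).sub (hb (X + t • u))).congr' (by
        filter_upwards [mB, Y0 X, Y0 (X + t • u)] with a h1 h2 h3
        rw [sd.pm.symm _ h1 _ h2, sd.pm.symm _ h1 _ h3]
        ring))
    rw [add_sub_cancel_left, add_neg_cancel, n.zero, n.neg, n.smul_nonneg ht.le, u1] at k
    linarith
  refine ⟨b, ?_, lip, fun X t => ?_, fun X hX s hs => ?_⟩
  · refine tendsto_nhds_unique (hb 0) ?_
    simp
  · rcases lt_trichotomy t 0 with ht | rfl | ht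
    · have := sh (X + t • u) (-t) (by linarith)
      rw [neg_smul, add_neg_cancel_right] at this
      linarith
    · simp
    · exact sh X t ht
  obtain ⟨C, C0, C1, C2⟩ := blow_C sd hx bl.le (bl.ev.mono fun a ha => ha.1) hX
  have z := sd.scaled hx C1 (Y1 X) ap (v := 0) (by
    have := (Y2 0 X).sub C2
    rw [sub_zero, sub_self] at this
    refine this.congr fun a => ?_
    rw [smul_zero, add_zero, ← smul_sub, sub_sub_sub_cancel_right])
  rw [n.zero] at z
  have β1 : Tendsto (fun a => (d x (B a) - d (C a) (B a)) / a) U (𝓝 (b X)) := by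
    have t : Tendsto (fun a => (d (x + a • X) (B a) - d (C a) (B a)) / a) U (𝓝 0) := by
      refine squeeze_zero_norm' ?_ z
      filter_upwards [ap, mB, Y0 X, C0] with a h1 h2 h3 h4
      rw [Real.norm_eq_abs, abs_div, abs_of_pos h1, abs_sub_comm]
      exact div_le_div_of_nonneg_right (b0_abs sd.pm h4.1 h3 h2) h1.le
    have := (hb X).add t
    rw [add_zero] at this
    exact this.congr fun a => by ring
  set A : ℝ → P := fun a => x + l a • (B a - x) with hA
  have mA : ∀ᶠ a in (U : Filter ℝ), A a ∈ M :=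
    bl.ev.mono fun a ha => sd.pm.seg_mem mx ha.2.mem ha.2.l0.le ha.2.l1.le
  have c0 : ∀ᶠ a in (U : Filter ℝ), 0 < r a * a := by
    filter_upwards [bl.ev, ap] with a ha h1 using mul_pos ha.2.r0 h1
  have β2 : Tendsto (fun a => (d (C a) x - d (C a) (A a)) / (r a * a)) U (𝓝 (b X)) := by
    refine β1.congr' ?_
    filter_upwards [bl.ev, ap, C0, mA] with a ha h1 h2 h3
    have r0 := ha.2.r0
    have e := ha.2.on _ h2.1 h2.2
    rw [sd.pm.symm _ h2.1 _ mx, sd.pm.symm _ h2.1 _ h3, sd.pm.symm _ h2.1 _ ha.2.mem, h2.2, ha.2.dB, hA]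
    simp only []
    rw [e]
    field_simp
  have l0 : ∀ᶠ a in (U : Filter ℝ), 0 < l a * F x (B a - x) := by
    filter_upwards [bl.ev, b0] with a ha h1 using mul_pos ha.2.l0 h1
  have tu : Tendsto (fun a => (l a * F x (B a - x))⁻¹ • (A a - x)) U (𝓝 u) := by
    refine bl.tu.congr' ?_
    filter_upwards [bl.ev, b0] with a ha h1
    have := ha.2.l0
    rw [hA]
    simp only [add_sub_cancel_left, smul_smul]
    congr 1
    field_simp
  obtain ⟨A1, A2⟩ := blow_pt sd hx bl.le (Y := A) (κ := 0) u1 mA l0 tu (by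
      refine bl.tr.congr' ?_
      filter_upwards [bl.ev, ap] with a ha h1
      rw [ha.2.dA]
      field_simp)
  rw [zero_smul] at A2
  have A3 : Tendsto (fun a => (r a * a)⁻¹ • (A a - x)) U (𝓝 u) := by
    have t := sd.scaled hx tendsto_const_nhds A1 l0 tu
    rw [u1] at t
    have := (t.inv₀ one_ne_zero).smul tu
    rw [inv_one, one_smul] at this
    refine this.congr' ?_
    filter_upwards [bl.ev, l0, c0] with a ha h1 h2
    rw [ha.2.dA, smul_smul]
    congr 1
    rw [inv_div, div_mul_eq_mul_div, mul_inv_cancel₀ h1.ne', one_div]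
  have θ0 : Tendsto (fun a => s⁻¹ * r a) U (𝓝 0) := by simpa using bl.tr.const_mul s⁻¹
  have θ1 : ∀ᶠ a in (U : Filter ℝ), 0 ≤ s⁻¹ * r a ∧ s⁻¹ * r a ≤ 1 := by
    filter_upwards [bl.ev, θ0.eventually (ge_mem_nhds one_pos)] with a h1 h3
    have := h1.2.r0
    exact ⟨by positivity, h3⟩
  have key : ∀ Y : ℝ → P, Tendsto Y U (𝓝 x) → Tendsto (fun a => a⁻¹ • (Y a - x)) U (𝓝 0) →
      Tendsto (fun a => (s⁻¹ * r a) • (Y a - C a)) U (𝓝 0) ∧
      Tendsto (fun a => (r a * a)⁻¹ • (s⁻¹ * r a) • (Y a - C a)) U (𝓝 (s⁻¹ • (-X))) := by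
    intro Y Z1 Z2
    refine ⟨by simpa using θ0.smul (Z1.sub C1), ?_⟩
    have := (Z2.sub C2).const_smul s⁻¹
    rw [zero_sub] at this
    refine this.congr' ?_
    filter_upwards [ap, bl.ev] with a h1 h2
    have := h2.2.r0
    rw [← smul_sub, sub_sub_sub_cancel_right, smul_smul, smul_smul]
    congr 1
    field_simp
  have kx := key (fun _ => x) tendsto_const_nhds (by simp)
  have k1 := sd.sandwich_lim hx (C0.mono fun a ha => ha.1) A1 tendsto_const_nhds c0 θ1
    (key A A1 A2).1 (v := -u) (A3.neg.congr fun a => by rw [← smul_neg, neg_sub]) (key A A1 A2).2 β2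
  have k2 := sd.sandwich_lim hx (C0.mono fun a ha => ha.1) tendsto_const_nhds A1 c0 θ1
    kx.1 A3 kx.2 (β := -b X) (β2.neg.congr fun a => by ring)
  have k3 := blow_scale n hs k1
  have k4 := blow_scale n hs k2
  rw [smul_neg, ← neg_add, n.neg, n.neg] at k3
  rw [n.neg, neg_add_eq_sub, n.sub_comm] at k4
  constructor <;> linarith

end Pool.Agent.P.MP_874adf_gt.Fs
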