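import Pool.Agent.P.MP_874adf_gt.Fs.BLOW

/-! Blow-up when the ratio tends to one: the theorem of Thales for the tangent norm. -/

set_option autoImplicit false

namespace Pool.Agent.P.MP_874adf_gt.Fs

open Set Filter Topology Metric

/-- the point of the circle in the direction of a unit vector -/
lemma blow_C {M W : Set P} {d F : P → P → ℝ} (sd : SD M W d F) {x : P} (hx : x ∈ W)
    {l : Filter ℝ} (le : l ≤ 𝓝[>] 0) (ev : ∀ᶠ a in l, Ray M d x a) {X : P} (hX : F x X = 1) :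
    ∃ C : ℝ → P, (∀ᶠ a in l, C a ∈ M ∧ d x (C a) = a) ∧ Tendsto C l (𝓝 x) ∧
      Tendsto (fun a => a⁻¹ • (C a - x)) l (𝓝 X) := by
  have n := sd.isN x hx
  have X0 : X ≠ 0 := by rintro rfl; rw [n.zero] at hX; exact zero_ne_one hX
  have ap : ∀ᶠ a in l, 0 < a := le self_mem_nhdsWithin
  have h' : ∀ a : ℝ, ∃ t : ℝ, Ray M d x a → 0 < t ∧ x + t • X ∈ M ∧ d x (x + t • X) = a := by
    intro a
    by_cases c : Ray M d x a
    · obtain ⟨t, h⟩ := c X X0
      exact ⟨t, fun _ => h⟩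
    · exact ⟨0, fun a1 => absurd a1 c⟩
  choose t ht using h'
  obtain ⟨C1, C2⟩ := blow_pt sd hx le (Y := fun a => x + t a • X) (c := t) (κ := 1) hX
    (ev.mono fun a ha => (ht a ha).2.1) (ev.mono fun a ha => (ht a ha).1)
    (by
      refine tendsto_const_nhds.congr' ?_
      filter_upwards [ev] with a ha
      rw [add_sub_cancel_left, smul_smul, inv_mul_cancel₀ (ht a ha).1.ne', one_smul])
    (by
      refine tendsto_const_nhds.congr' ?_
      filter_upwards [ev, ap] with a ha h1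
      rw [(ht a ha).2.2, div_self h1.ne'])
  rw [one_smul] at C2
  exact ⟨_, ev.mono fun a ha => (ht a ha).2, C1, C2⟩

lemma blow_scale {N : P → ℝ} (n : IsN N) {s β : ℝ} (hs : 0 < s) {v w : P}
    (h : β ≤ N (v + s⁻¹ • w) - N (s⁻¹ • w)) : s * β ≤ N (w + s • v) - N w := by
  have e1 : w + s • v = s • (v + s⁻¹ • w) := by
    rw [smul_add, smul_smul, mul_inv_cancel₀ hs.ne', one_smul, add_comm]
  have e2 : N w = s * N (s⁻¹ • w) := by
    rw [← n.smul_nonneg hs.le, smul_smul, mul_inv_cancel₀ hs.ne', one_smul]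
  rw [e1, n.smul_nonneg hs.le, e2, ← mul_sub]
  exact mul_le_mul_of_nonneg_left h hs.le

theorem t_b1 : S_B1 := by
  intro M W d F sd x hx U B l r u bl u1 X hX s hs
  have n := sd.isN x hx
  have mx := sd.sub hx
  have a0 : Tendsto (fun a : ℝ => a) U (𝓝 0) := bl.le.trans nhdsWithin_le_nhds
  have ap : ∀ᶠ a in (U : Filter ℝ), 0 < a := bl.le self_mem_nhdsWithin
  have b0 : ∀ᶠ a in (U : Filter ℝ), 0 < F x (B a - x) := by
    filter_upwards [bl.ev] with a ha using n.pos _ (sub_ne_zero.2 ha.2.ne)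
  obtain ⟨B1, B2⟩ := blow_pt sd hx bl.le (Y := B) (c := fun a => F x (B a - x)) (κ := 1⁻¹) u1
    (bl.ev.mono fun a ha => ha.2.mem) b0 bl.tu (by
      refine (bl.tr.inv₀ one_ne_zero).congr' ?_
      filter_upwards [bl.ev, ap] with a ha h1
      rw [ha.2.dB]
      field_simp)
  set A : ℝ → P := fun a => x + l a • (B a - x) with hA
  have mA : ∀ᶠ a in (U : Filter ℝ), A a ∈ M :=
    bl.ev.mono fun a ha => sd.pm.seg_mem mx ha.2.mem ha.2.l0.le ha.2.l1.le
  obtain ⟨A1, A2⟩ := blow_pt sd hx bl.le (Y := A) (c := fun a => l a * F x (B a - x)) (κ := 1) u1 mA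
    (by filter_upwards [bl.ev, b0] with a ha h1 using mul_pos ha.2.l0 h1)
    (by
      refine bl.tu.congr' ?_
      filter_upwards [bl.ev, b0] with a ha h1
      have := ha.2.l0
      rw [hA]
      simp only [add_sub_cancel_left, smul_smul]
      congr 1
      field_simp)
    (by
      refine bl.tr.congr' ?_
      filter_upwards [bl.ev, ap] with a ha h1
      rw [ha.2.dA]
      field_simp)
  rw [inv_one, one_smul] at B2
  rw [one_smul] at A2
  obtain ⟨C, C0, C1, C2⟩ := blow_C sd hx bl.le (bl.ev.mono fun a ha => ha.1) hX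
  set c : ℝ → ℝ := fun a => (1 - l a) * F x (B a - x) with hc
  have c0 : ∀ᶠ a in (U : Filter ℝ), 0 < c a := by
    filter_upwards [bl.ev, b0] with a ha h1 using mul_pos (sub_pos.2 ha.2.l1) h1
  have v1 : Tendsto (fun a => (c a)⁻¹ • (B a - A a)) U (𝓝 u) := by
    refine bl.tu.congr' ?_
    filter_upwards [bl.ev, b0] with a ha h1
    have h2 := sub_pos.2 ha.2.l1
    have e : B a - A a = (1 - l a) • (B a - x) := by rw [hA]; module
    rw [e, smul_smul, hc]
    congr 1
    field_simp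
  have v2 : Tendsto (fun a => (c a)⁻¹ • (A a - B a)) U (𝓝 (-u)) :=
    v1.neg.congr fun a => by rw [← smul_neg, neg_sub]
  have e1 := sd.scaled hx A1 B1 c0 v1
  rw [u1] at e1
  have dAB : ∀ᶠ a in (U : Filter ℝ), d (A a) (B a) = a / r a - r a * a := by
    filter_upwards [bl.ev] with a ha
    have := sd.pm.add mx ha.2.mem ha.2.l0.le ha.2.l1.le
    rw [ha.2.dA, ha.2.dB] at this
    linarith
  have ca : Tendsto (fun a => c a / a) U (𝓝 0) := by
    have := ((bl.tr.inv₀ one_ne_zero).sub bl.tr).div e1 one_ne_zero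
    rw [inv_one, sub_self, zero_div] at this
    refine this.congr' ?_
    filter_upwards [bl.ev, ap, c0, dAB] with a ha h1 h2 h3
    have r0 := ha.2.r0
    have r1 := ha.2.r1
    have h4 : 0 < 1 - r a ^ 2 := by nlinarith
    simp only [Pi.div_apply]
    rw [h3]
    field_simp
  have e2 := sd.scaled hx B1 C1 ap (v := X - u) ((C2.sub B2).congr fun a => by
    rw [← smul_sub, sub_sub_sub_cancel_right])
  rw [n.sub_comm] at e2
  have β : Tendsto (fun a => (d (C a) (B a) - d (C a) (A a)) / c a) U (𝓝 (F x (u - X) / 2)) := by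
    have := (((bl.tr.mul e2).div (bl.tr.const_add 1) (by norm_num)).mul e1)
    rw [one_mul, mul_one, one_add_one_eq_two] at this
    refine this.congr' ?_
    filter_upwards [bl.ev, ap, c0, dAB, C0, mA] with a ha h1 h2 h3 h4 h5
    have r0 := ha.2.r0
    have e := ha.2.on _ h4.1 h4.2
    simp only [Pi.div_apply]
    rw [h3, sd.pm.symm _ h4.1 _ ha.2.mem, sd.pm.symm _ h4.1 _ h5, hA]
    simp only []
    rw [e]
    field_simp
    ring
  have θ0 : Tendsto (fun a => s⁻¹ * (c a / a)) U (𝓝 0) := by simpa using ca.const_mul s⁻¹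
  have θ1 : ∀ᶠ a in (U : Filter ℝ), 0 ≤ s⁻¹ * (c a / a) ∧ s⁻¹ * (c a / a) ≤ 1 := by
    filter_upwards [ap, c0, θ0.eventually (ge_mem_nhds one_pos)] with a h1 h2 h3
    exact ⟨by positivity, h3⟩
  have key : ∀ Y : ℝ → P, Tendsto Y U (𝓝 x) → Tendsto (fun a => a⁻¹ • (Y a - x)) U (𝓝 u) →
      Tendsto (fun a => (s⁻¹ * (c a / a)) • (Y a - C a)) U (𝓝 0) ∧
      Tendsto (fun a => (c a)⁻¹ • (s⁻¹ * (c a / a)) • (Y a - C a)) U (𝓝 (s⁻¹ • (u - X))) := by
    intro Y Y1 Y2
    refine ⟨by simpa using θ0.smul (Y1.sub C1), ((Y2.sub C2).const_smul s⁻¹).congr' ?_⟩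
    filter_upwards [ap, c0] with a h1 h2
    rw [← smul_sub, sub_sub_sub_cancel_right, smul_smul, smul_smul]
    congr 1
    field_simp
  have k1 := sd.sandwich_lim hx (C0.mono fun a ha => ha.1) A1 B1 c0 θ1 (key A A1 A2).1 v1
    (key A A1 A2).2 β
  have k2 := sd.sandwich_lim hx (C0.mono fun a ha => ha.1) B1 A1 c0 θ1 (key B B1 B2).1 v2
    (key B B1 B2).2 (β := -(F x (u - X) / 2)) (β.neg.congr fun a => by ring)
  have k3 := blow_scale n hs k1
  have k4 := blow_scale n hs k2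
  rw [smul_neg, ← sub_eq_add_neg] at k4
  constructor <;> linarith

end Pool.Agent.P.MP_874adf_gt.Fs
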