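import Pool.Agent.P.MP_874adf_gt.Fs.Ident

/-! Blow-up data, the case of a limit ratio strictly between zero and one, and closedness. -/

set_option autoImplicit false

namespace Pool.Agent.P.MP_874adf_gt.Fs

open Set Filter Topology Metric

theorem t_blow : S_BLOW := by
  intro M W d F sd st x hx
  have n := sd.isN x hx
  obtain ⟨a0, a00, h⟩ := st x (sd.sub hx)
  have h' : ∀ a : ℝ, ∃ (B : P) (l r : ℝ), 0 < a → a < a0 → Ray M d x a ∧ Foc M d x a B l r := by
    intro a
    by_cases c : 0 < a ∧ a < a0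
    · obtain ⟨h1, B, l, r, h2⟩ := h a c.1 c.2
      exact ⟨B, l, r, fun _ _ => ⟨h1, h2⟩⟩
    · exact ⟨0, 0, 0, fun a1 a2 => absurd ⟨a1, a2⟩ c⟩
  choose B l r hB using h'
  set U : Ultrafilter ℝ := Ultrafilter.of (𝓝[>] (0 : ℝ)) with hU
  have le : (U : Filter ℝ) ≤ 𝓝[>] 0 := Ultrafilter.of_le _
  have ev : ∀ᶠ a in (U : Filter ℝ), Ray M d x a ∧ Foc M d x a (B a) (l a) (r a) := by
    refine le ?_
    filter_upwards [Ioo_mem_nhdsGT a00] with a ha using hB a ha.1 ha.2
  obtain ⟨K, K0, hK⟩ := n.lower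
  have cp : IsCompact {v : P | F x v = 1} := by
    refine (isCompact_closedBall (0 : P) K).of_isClosed_subset (isClosed_eq n.cont continuous_const) ?_
    intro v hv
    have := hK v
    rw [show F x v = 1 from hv, mul_one] at this
    simpa using this
  obtain ⟨u, u1, tu⟩ := cp.ultrafilter_le_nhds
    (U.map fun a => (F x (B a - x))⁻¹ • (B a - x)) (by
      rw [Ultrafilter.coe_map, le_principal_iff, mem_map]
      filter_upwards [ev] with a ha
      have := n.pos _ (sub_ne_zero.2 ha.2.ne)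
      simp only [mem_preimage, mem_ofPred_eq]
      rw [n.smul_nonneg (inv_pos.2 this).le, inv_mul_cancel₀ this.ne'])
  obtain ⟨ρ, hρ, tr⟩ := (isCompact_Icc (a := (0 : ℝ)) (b := 1)).ultrafilter_le_nhds (U.map r) (by
      rw [Ultrafilter.coe_map, le_principal_iff, mem_map]
      filter_upwards [ev] with a ha using ⟨ha.2.r0.le, ha.2.r1.le⟩)
  exact ⟨U, B, l, r, u, ρ, ⟨le, ev, tu, tr⟩, u1, hρ.1, hρ.2⟩

/-- a point `x + c • w` whose distance from `x` is asymptotic to `κ a` -/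
lemma blow_pt {M W : Set P} {d F : P → P → ℝ} (sd : SD M W d F) {x : P} (hx : x ∈ W)
    {l : Filter ℝ} (le : l ≤ 𝓝[>] 0) {Y : ℝ → P} {c : ℝ → ℝ} {u : P} {κ : ℝ} (u1 : F x u = 1)
    (hY : ∀ᶠ a in l, Y a ∈ M) (hc : ∀ᶠ a in l, 0 < c a)
    (hu : Tendsto (fun a => (c a)⁻¹ • (Y a - x)) l (𝓝 u))
    (hd : Tendsto (fun a => d x (Y a) / a) l (𝓝 κ)) :
    Tendsto Y l (𝓝 x) ∧ Tendsto (fun a => a⁻¹ • (Y a - x)) l (𝓝 (κ • u)) := by
  have a0 : Tendsto (fun a : ℝ => a) l (𝓝 0) := le.trans nhdsWithin_le_nhds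
  have ap : ∀ᶠ a in l, 0 < a := le self_mem_nhdsWithin
  have t1 : Tendsto Y l (𝓝 x) := by
    refine sd.pm.tendsto_of_d (sd.sub hx) hY ?_
    have := hd.mul a0
    rw [mul_zero] at this
    refine this.congr' ?_
    filter_upwards [ap] with a ha
    field_simp
  refine ⟨t1, ?_⟩
  have t2 := sd.scaled hx tendsto_const_nhds t1 hc hu
  rw [u1] at t2
  have t3 := (hd.div t2 one_ne_zero).smul hu
  rw [div_one] at t3
  refine t3.congr' ?_
  filter_upwards [ap, hc, t2.eventually (lt_mem_nhds one_pos)] with a h1 h2 h3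
  have h4 : d x (Y a) ≠ 0 := by
    intro e
    rw [e, zero_div] at h3
    exact lt_irrefl _ h3
  simp only [Pi.div_apply, smul_smul]
  congr 1
  field_simp

theorem t_br : S_BR := by
  intro M W d F sd x hx U B l r u ρ bl u1 r0 r1
  have n := sd.isN x hx
  refine ⟨ρ, r0, r1, fun X hX => ?_⟩
  have X0 : X ≠ 0 := by rintro rfl; rw [n.zero] at hX; exact zero_ne_one hX
  have ap : ∀ᶠ a in (U : Filter ℝ), 0 < a := bl.le self_mem_nhdsWithin
  have h' : ∀ a : ℝ, ∃ t : ℝ, Ray M d x a → 0 < t ∧ x + t • X ∈ M ∧ d x (x + t • X) = a := by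
    intro a
    by_cases c : Ray M d x a
    · obtain ⟨t, h⟩ := c X X0
      exact ⟨t, fun _ => h⟩
    · exact ⟨0, fun a1 => absurd a1 c⟩
  choose t ht using h'
  have b0 : ∀ᶠ a in (U : Filter ℝ), 0 < F x (B a - x) := by
    filter_upwards [bl.ev] with a ha using n.pos _ (sub_ne_zero.2 ha.2.ne)
  obtain ⟨B1, B2⟩ := blow_pt sd hx bl.le (Y := B) (c := fun a => F x (B a - x)) (κ := ρ⁻¹) u1
    (bl.ev.mono fun a ha => ha.2.mem) b0 bl.tu (by
      refine (bl.tr.inv₀ r0.ne').congr' ?_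
      filter_upwards [bl.ev, ap] with a ha h1
      rw [ha.2.dB]
      field_simp)
  obtain ⟨A1, A2⟩ := blow_pt sd hx bl.le (Y := fun a => x + l a • (B a - x))
    (c := fun a => l a * F x (B a - x)) (κ := ρ) u1
    (bl.ev.mono fun a ha => sd.pm.seg_mem (sd.sub hx) ha.2.mem ha.2.l0.le ha.2.l1.le)
    (by filter_upwards [bl.ev, b0] with a ha h1 using mul_pos ha.2.l0 h1)
    (by
      refine bl.tu.congr' ?_
      filter_upwards [bl.ev, b0] with a ha h1
      have := ha.2.l0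
      rw [add_sub_cancel_left, smul_smul]
      congr 1
      field_simp)
    (by
      refine bl.tr.congr' ?_
      filter_upwards [bl.ev, ap] with a ha h1
      rw [ha.2.dA]
      field_simp)
  obtain ⟨C1, C2⟩ := blow_pt sd hx bl.le (Y := fun a => x + t a • X) (c := t) (κ := 1) hX
    (bl.ev.mono fun a ha => (ht a ha.1).2.1) (bl.ev.mono fun a ha => (ht a ha.1).1)
    (by
      refine tendsto_const_nhds.congr' ?_
      filter_upwards [bl.ev] with a ha
      rw [add_sub_cancel_left, smul_smul, inv_mul_cancel₀ (ht a ha.1).1.ne', one_smul])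
    (by
      refine tendsto_const_nhds.congr' ?_
      filter_upwards [bl.ev, ap] with a ha h1
      rw [(ht a ha.1).2.2, div_self h1.ne'])
  rw [one_smul] at C2
  have e1 := sd.scaled hx A1 C1 ap (v := X - ρ • u) ((C2.sub A2).congr fun a => by
    rw [← smul_sub, sub_sub_sub_cancel_right])
  have e2 := sd.scaled hx B1 C1 ap (v := X - ρ⁻¹ • u) ((C2.sub B2).congr fun a => by
    rw [← smul_sub, sub_sub_sub_cancel_right])
  have e3 := tendsto_nhds_unique e1 ((bl.tr.mul e2).congr' (by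
    filter_upwards [bl.ev] with a ha
    rw [ha.2.on _ (ht a ha.1).2.1 (ht a ha.1).2.2, mul_div_assoc]))
  rw [e3, ← n.smul_nonneg r0.le, smul_sub, smul_smul, mul_inv_cancel₀ r0.ne', one_smul]

lemma close_coef {N : P → ℝ} (h : Quad N) (v : P) : N v ^ 2 =
    bf (N (1, 0) ^ 2) ((N (1, 1) ^ 2 - N (1, 0) ^ 2 - N (0, 1) ^ 2) / 2) (N (0, 1) ^ 2) v v := by
  obtain ⟨p, q, s, e⟩ := h
  simp only [e, bf]
  ring

theorem t_close : S_CLOSE := by
  intro M W d F sd h x hx
  refine ⟨F x (1, 0) ^ 2, (F x (1, 1) ^ 2 - F x (1, 0) ^ 2 - F x (0, 1) ^ 2) / 2, F x (0, 1) ^ 2,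
    fun v => ?_⟩
  choose y hy using fun n : ℕ => h x hx (1 / ((n : ℝ) + 1)) (by positivity)
  have ty : Tendsto y atTop (𝓝 x) := by
    rw [tendsto_iff_dist_tendsto_zero]
    exact squeeze_zero (fun _ => dist_nonneg) (fun n => (hy n).2.1.le)
      tendsto_one_div_add_atTop_nhds_zero_nat
  have tF : ∀ w, Tendsto (fun n => F (y n) w ^ 2) atTop (𝓝 (F x w ^ 2)) := fun w =>
    ((sd.contAt hx w).tendsto.comp (ty.prodMk_nhds tendsto_const_nhds)).pow 2
  refine tendsto_nhds_unique (tF v) ?_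
  simp only [close_coef (hy _).2.2 v, bf]
  exact ((((tF _).mul_const _).mul_const _).add
    (((((tF _).sub (tF _)).sub (tF _)).div_const 2).mul_const _)).add
      (((tF _).mul_const _).mul_const _)

end Pool.Agent.P.MP_874adf_gt.Fs
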