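import Pool.Agent.P.MP_874adf_gt.Fs.Iface

/-! Basic facts used by all steps. -/

set_option autoImplicit false

namespace Pool.Agent.P.MP_874adf_gt.Fs

open Set Filter Topology Metric

namespace PM

variable {M : Set P} {d : P → P → ℝ} (h : PM M d)
include h

lemma self {x : P} (hx : x ∈ M) : d x x = 0 := (h.eq_zero x hx x hx).2 rfl

lemma nonneg {x y : P} (hx : x ∈ M) (hy : y ∈ M) : 0 ≤ d x y := by
  have h1 := h.triangle x hx y hy x hx
  rw [h.self hx, h.symm y hy x hx] at h1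
  linarith

lemma pos {x y : P} (hx : x ∈ M) (hy : y ∈ M) (hne : x ≠ y) : 0 < d x y :=
  lt_of_le_of_ne (h.nonneg hx hy) fun e => hne ((h.eq_zero x hx y hy).1 e.symm)

lemma seg_mem {x z : P} (hx : x ∈ M) (hz : z ∈ M) {t : ℝ} (t0 : 0 ≤ t) (t1 : t ≤ 1) :
    x + t • (z - x) ∈ M := h.convex.add_smul_sub_mem hx hz ⟨t0, t1⟩

/-- additivity along a segment -/
lemma add {x z : P} (hx : x ∈ M) (hz : z ∈ M) {t : ℝ} (t0 : 0 ≤ t) (t1 : t ≤ 1) :
    d x (x + t • (z - x)) + d (x + t • (z - x)) z = d x z := by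
  refine (h.straight x hx _ (h.seg_mem hx hz t0 t1) z hz).2 ?_
  rw [segment_eq_image']
  exact ⟨t, ⟨t0, t1⟩, rfl⟩

/-- points of a line between two points of `M` -/
lemma line_mem {x v : P} {r s t : ℝ} (hr : x + r • v ∈ M) (ht : x + t • v ∈ M) (h1 : r ≤ s)
    (h2 : s ≤ t) : x + s • v ∈ M := by
  rcases eq_or_lt_of_le (h1.trans h2) with e | e
  · have : s = r := le_antisymm (e ▸ h2) h1
    rwa [this]
  have := h.seg_mem hr ht (t := (s - r) / (t - r)) (div_nonneg (by linarith) (by linarith))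
    ((div_le_one (by linarith)).2 (by linarith))
  have e2 : x + r • v + ((s - r) / (t - r)) • (x + t • v - (x + r • v)) = x + s • v := by
    have e3 : x + t • v - (x + r • v) = (t - r) • v := by module
    rw [e3, smul_smul, div_mul_cancel₀ _ (by linarith : t - r ≠ 0)]; module
  rwa [e2] at this

/-- additivity along a line -/
lemma line_add {x v : P} {r s t : ℝ} (hr : x + r • v ∈ M) (ht : x + t • v ∈ M) (h1 : r ≤ s)
    (h2 : s ≤ t) : d (x + r • v) (x + s • v) + d (x + s • v) (x + t • v) = d (x + r • v) (x + t • v) := by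
  rcases eq_or_lt_of_le (h1.trans h2) with e | e
  · have : s = r := le_antisymm (e ▸ h2) h1
    rw [this, h.self hr, zero_add]
  have := h.add hr ht (t := (s - r) / (t - r)) (div_nonneg (by linarith) (by linarith))
    ((div_le_one (by linarith)).2 (by linarith))
  have e2 : x + r • v + ((s - r) / (t - r)) • (x + t • v - (x + r • v)) = x + s • v := by
    have e3 : x + t • v - (x + r • v) = (t - r) • v := by module
    rw [e3, smul_smul, div_mul_cancel₀ _ (by linarith : t - r ≠ 0)]; module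
  rwa [e2] at this

/-- small Euclidean distance gives small `d` -/
lemma ev_lt {x : P} (hx : x ∈ M) {ε : ℝ} (hε : 0 < ε) : ∀ᶠ y in 𝓝 x, y ∈ M ∧ d x y < ε := by
  have := (h.top x hx {y ∈ M | d x y < ε}).2 ⟨ε, hε, subset_rfl⟩
  rwa [h.isOpen.nhdsWithin_eq hx] at this

/-- small `d` gives small Euclidean distance -/
lemma near {x : P} (hx : x ∈ M) {δ : ℝ} (hδ : 0 < δ) :
    ∃ ε > (0 : ℝ), ∀ y ∈ M, d x y < ε → y ∈ ball x δ := by
  obtain ⟨ε, e0, e1⟩ := (h.top x hx (ball x δ)).1 (mem_nhdsWithin_of_mem_nhds (ball_mem_nhds x hδ))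
  exact ⟨ε, e0, fun y hy hd => e1 ⟨hy, hd⟩⟩

lemma tendsto_of_d {ι : Type*} {l : Filter ι} {x : P} (hx : x ∈ M) {y : ι → P}
    (hy : ∀ᶠ i in l, y i ∈ M) (hd : Tendsto (fun i => d x (y i)) l (𝓝 0)) : Tendsto y l (𝓝 x) := by
  rw [Metric.tendsto_nhds]
  intro δ hδ
  obtain ⟨ε, e0, e1⟩ := h.near hx hδ
  filter_upwards [hy, hd.eventually (gt_mem_nhds e0)] with i a b using e1 _ a b

lemma contAt {x y : P} (hx : x ∈ M) (hy : y ∈ M) :
    ContinuousAt (fun p : P × P => d p.1 p.2) (x, y) := by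
  rw [ContinuousAt, Metric.tendsto_nhds]
  intro ε hε
  have h1 := h.ev_lt hx (half_pos hε)
  have h2 := h.ev_lt hy (half_pos hε)
  rw [nhds_prod_eq]
  filter_upwards [h1.prod_mk h2] with p hp
  obtain ⟨⟨a1, a2⟩, b1, b2⟩ := hp
  have t1 := h.triangle _ a1 x hx _ b1
  have t2 := h.triangle x hx y hy _ b1
  have t3 := h.triangle x hx _ a1 y hy
  have t4 := h.triangle _ a1 _ b1 y hy
  rw [h.symm _ a1 x hx] at t1
  rw [h.symm _ b1 y hy] at t4
  rw [Real.dist_eq, abs_lt]
  constructor <;> linarith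

lemma cont : ContinuousOn (fun p : P × P => d p.1 p.2) (M ×ˢ M) :=
  fun _ hp => (h.contAt hp.1 hp.2).continuousWithinAt

/-- continuity of `d` along converging families -/
lemma tendsto {ι : Type*} {l : Filter ι} {x y : P} (hx : x ∈ M) (hy : y ∈ M) {f g : ι → P}
    (hf : Tendsto f l (𝓝 x)) (hg : Tendsto g l (𝓝 y)) :
    Tendsto (fun i => d (f i) (g i)) l (𝓝 (d x y)) :=
  (h.contAt hx hy).tendsto.comp (hf.prodMk_nhds hg)

lemma contOn_line {O x v : P} (hO : O ∈ M) {s : Set ℝ} (hs : ∀ t ∈ s, x + t • v ∈ M) :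
    ContinuousOn (fun t : ℝ => d O (x + t • v)) s := fun t ht =>
  (h.tendsto hO (hs t ht) tendsto_const_nhds
    ((by fun_prop : Continuous fun t : ℝ => x + t • v).tendsto t)).mono_left nhdsWithin_le_nhds

end PM

namespace IsN

variable {N : P → ℝ} (h : IsN N)
include h

lemma zero : N 0 = 0 := by simpa using h.smul 0 0

lemma neg (v : P) : N (-v) = N v := by simpa using h.smul (-1) v

lemma sub_comm (v w : P) : N (v - w) = N (w - v) := by rw [← h.neg, neg_sub]

lemma nonneg (v : P) : 0 ≤ N v := by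
  rcases eq_or_ne v 0 with rfl | hv
  · exact h.zero.ge
  · exact (h.pos v hv).le

lemma smul_nonneg {t : ℝ} (ht : 0 ≤ t) (v : P) : N (t • v) = t * N v := by
  rw [h.smul, abs_of_nonneg ht]

lemma sub_le (v w : P) : N v - N w ≤ N (v - w) := by
  have := h.add (v - w) w
  rw [sub_add_cancel] at this
  linarith

lemma upper : ∃ K > (0 : ℝ), ∀ v, N v ≤ K * ‖v‖ := by
  refine ⟨N (1, 0) + N (0, 1) + 1, by linarith [h.nonneg (1, 0), h.nonneg (0, 1)], fun v => ?_⟩
  have e : v = v.1 • ((1, 0) : P) + v.2 • ((0, 1) : P) := by ext <;> simp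
  have h1 := h.add (v.1 • ((1, 0) : P)) (v.2 • ((0, 1) : P))
  rw [← e, h.smul, h.smul] at h1
  have a1 : |v.1| ≤ ‖v‖ := norm_fst_le v
  have a2 : |v.2| ≤ ‖v‖ := norm_snd_le v
  nlinarith [h.nonneg (1, 0), h.nonneg (0, 1), norm_nonneg v]

lemma cont : Continuous N := by
  obtain ⟨K, K0, hK⟩ := h.upper
  refine (LipschitzWith.of_dist_le_mul (K := ⟨K, K0.le⟩) fun v w => ?_).continuous
  rw [Real.dist_eq, dist_eq_norm, abs_le]
  have h1 := h.sub_le v w
  have h2 := h.sub_le w v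
  rw [h.sub_comm] at h2
  have := hK (v - w)
  change -(K * ‖v - w‖) ≤ _ ∧ _ ≤ K * ‖v - w‖
  constructor <;> linarith

lemma lower : ∃ K > (0 : ℝ), ∀ v, ‖v‖ ≤ K * N v := by
  obtain ⟨v0, hv0, hm⟩ := (isCompact_sphere (0 : P) 1).exists_isMinOn
    (NormedSpace.sphere_nonempty.2 zero_le_one) h.cont.continuousOn
  have n0 : ‖v0‖ = 1 := by simpa using hv0
  have c0 : 0 < N v0 := h.pos v0 (by rintro rfl; simp at n0)
  refine ⟨(N v0)⁻¹, inv_pos.2 c0, fun v => ?_⟩
  rcases eq_or_ne v 0 with rfl | hv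
  · simp [h.zero]
  have n1 : 0 < ‖v‖ := norm_pos_iff.2 hv
  have := hm (a := ‖v‖⁻¹ • v) (by simp [norm_smul, n1.ne'])
  simp only [mem_ofPred_eq, h.smul_nonneg (inv_pos.2 n1).le] at this
  rw [← div_eq_inv_mul, le_div_iff₀ c0]
  rw [← div_eq_inv_mul, le_div_iff₀ n1] at this
  linarith

end IsN

namespace SD

variable {M W : Set P} {d F : P → P → ℝ} (h : SD M W d F)
include h

lemma contAt {x : P} (hx : x ∈ W) (v : P) : ContinuousAt (fun p : P × P => F p.1 p.2) (x, v) :=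
  h.cont.continuousAt ((h.openW.prod isOpen_univ).mem_nhds ⟨hx, mem_univ _⟩)

/-- The comparison inequality: the difference of the distances from any point `O` of `M` to two
points `Y`, `Z` near `x` is controlled by the norm at `x`. -/
lemma sandwich {x : P} (hx : x ∈ W) {ε : ℝ} (hε : 0 < ε) : ∃ δ > (0 : ℝ), ball x δ ⊆ W ∧
    ∀ O ∈ M, ∀ Y ∈ ball x δ, ∀ Z ∈ ball x δ, ∀ θ : ℝ, 0 ≤ θ → θ ≤ 1 → Y + θ • (O - Y) ∈ ball x δ →
      d O Z - d O Y ≤ F x (Z - Y + θ • (Y - O)) - F x (θ • (Y - O)) +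
        ε * (‖Z - Y‖ + 2 * ‖θ • (Y - O)‖) := by
  obtain ⟨δ, δ0, hb, hs⟩ := h.strict x hx ε hε
  refine ⟨δ, δ0, hb, fun O hO Y hY Z hZ θ t0 t1 hQ => ?_⟩
  have mY := h.sub (hb hY)
  have mZ := h.sub (hb hZ)
  have mQ := h.sub (hb hQ)
  have a1 := h.pm.add mY hO t0 t1
  have a2 := h.pm.triangle O hO _ mQ Z mZ
  have a3 := (abs_le.1 (hs _ hQ Z hZ)).2
  have a4 := (abs_le.1 (hs _ hQ Y hY)).1
  have e1 : Z - (Y + θ • (O - Y)) = Z - Y + θ • (Y - O) := by module
  have e2 : Y - (Y + θ • (O - Y)) = θ • (Y - O) := by module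
  rw [e1] at a3
  rw [e2] at a4
  rw [h.pm.symm Y mY O hO, h.pm.symm Y mY _ mQ, h.pm.symm _ mQ O hO] at a1
  have a5 := norm_add_le (Z - Y) (θ • (Y - O))
  nlinarith

/-- rescaled distances converge to the norm -/
lemma scaled {ι : Type*} {l : Filter ι} {x : P} (hx : x ∈ W) {Y Z : ι → P} {c : ι → ℝ} {v : P}
    (hY : Tendsto Y l (𝓝 x)) (hZ : Tendsto Z l (𝓝 x)) (hc : ∀ᶠ i in l, 0 < c i)
    (hv : Tendsto (fun i => (c i)⁻¹ • (Z i - Y i)) l (𝓝 v)) :
    Tendsto (fun i => d (Y i) (Z i) / c i) l (𝓝 (F x v)) := by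
  have n := h.isN x hx
  have t1 := (n.cont.tendsto v).comp hv
  have t2 : Tendsto (fun i => d (Y i) (Z i) / c i - F x ((c i)⁻¹ • (Z i - Y i))) l (𝓝 0) := by
    rw [Metric.tendsto_nhds]
    intro ε hε
    have v1 : 0 < ‖v‖ + 1 := by positivity
    obtain ⟨δ, δ0, -, hs⟩ := h.strict x hx (ε / (‖v‖ + 1)) (by positivity)
    filter_upwards [hY.eventually (ball_mem_nhds x δ0), hZ.eventually (ball_mem_nhds x δ0), hc,
      hv.norm.eventually (gt_mem_nhds (lt_add_one ‖v‖))] with i a b c0 e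
    have := hs _ a _ b
    rw [norm_smul, Real.norm_eq_abs, abs_of_pos (inv_pos.2 c0)] at e
    rw [n.smul_nonneg (inv_pos.2 c0).le, Real.dist_eq, sub_zero, div_eq_inv_mul, ← mul_sub, abs_mul,
      abs_of_pos (inv_pos.2 c0)]
    calc _ ≤ (c i)⁻¹ * (ε / (‖v‖ + 1) * ‖Z i - Y i‖) := by gcongr
      _ = ε / (‖v‖ + 1) * ((c i)⁻¹ * ‖Z i - Y i‖) := by ring
      _ < ε / (‖v‖ + 1) * (‖v‖ + 1) := by gcongr
      _ = ε := by field_simp
  simpa using t2.add t1

/-- limit form of the comparison inequality -/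
lemma sandwich_lim {ι : Type*} {l : Filter ι} [l.NeBot] {x : P} (hx : x ∈ W) {O Y Z : ι → P}
    {c θ : ι → ℝ} {v w : P} {β : ℝ} (hO : ∀ᶠ i in l, O i ∈ M)
    (hY : Tendsto Y l (𝓝 x)) (hZ : Tendsto Z l (𝓝 x)) (hc : ∀ᶠ i in l, 0 < c i)
    (hθ : ∀ᶠ i in l, 0 ≤ θ i ∧ θ i ≤ 1) (hQ : Tendsto (fun i => θ i • (Y i - O i)) l (𝓝 0))
    (hv : Tendsto (fun i => (c i)⁻¹ • (Z i - Y i)) l (𝓝 v))
    (hw : Tendsto (fun i => (c i)⁻¹ • θ i • (Y i - O i)) l (𝓝 w))
    (hβ : Tendsto (fun i => (d (O i) (Z i) - d (O i) (Y i)) / c i) l (𝓝 β)) :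
    β ≤ F x (v + w) - F x w := by
  have n := h.isN x hx
  refine le_of_forall_pos_le_add fun η hη => ?_
  have v1 : 0 < ‖v‖ + 2 * ‖w‖ + 1 := by positivity
  set ε := η / (‖v‖ + 2 * ‖w‖ + 1) with hε
  have ε0 : 0 < ε := by positivity
  obtain ⟨δ, δ0, -, hs⟩ := h.sandwich hx ε0
  have hQ' : Tendsto (fun i => Y i + θ i • (O i - Y i)) l (𝓝 x) := by
    have := hY.sub hQ
    rw [sub_zero] at this
    refine this.congr fun i => by module
  have t1 := (((n.cont.tendsto _).comp (hv.add hw)).sub ((n.cont.tendsto _).comp hw)).add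
    ((hv.norm.add (hw.norm.const_mul 2)).const_mul ε)
  have k : β ≤ F x (v + w) - F x w + ε * (‖v‖ + 2 * ‖w‖) := by
    refine le_of_tendsto_of_tendsto hβ t1 ?_
    filter_upwards [hO, hY.eventually (ball_mem_nhds x δ0), hZ.eventually (ball_mem_nhds x δ0), hc,
      hθ, hQ'.eventually (ball_mem_nhds x δ0)] with i a1 a2 a3 c0 a4 a5
    have := hs _ a1 _ a2 _ a3 _ a4.1 a4.2 a5
    have ci := inv_pos.2 c0
    simp only [Function.comp]
    rw [← smul_add, n.smul_nonneg ci.le, n.smul_nonneg ci.le, norm_smul (c i)⁻¹,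
      norm_smul (c i)⁻¹, Real.norm_eq_abs, abs_of_pos ci, div_eq_inv_mul]
    nlinarith [mul_le_mul_of_nonneg_left this ci.le]
  have : ε * (‖v‖ + 2 * ‖w‖) ≤ η := by
    rw [hε, div_mul_eq_mul_div, div_le_iff₀ v1]
    nlinarith
  linarith

/-- the length along a line has the Finsler function as derivative -/
lemma len {O v : P} (hO : O ∈ M) {t : ℝ} (t0 : 0 < t) (ht : O + t • v ∈ W) :
    HasDerivAt (fun s : ℝ => d O (O + s • v)) (F (O + t • v) v) t := by
  have n := h.isN _ ht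
  have c : Tendsto (fun s : ℝ => O + s • v) (𝓝 t) (𝓝 (O + t • v)) :=
    (by fun_prop : Continuous fun s : ℝ => O + s • v).tendsto t
  have m0 : O + (0 : ℝ) • v ∈ M := by simpa using hO
  have mt := h.sub ht
  rw [hasDerivAt_iff_tendsto_slope_left_right]
  constructor
  · have := h.scaled (l := 𝓝[<] t) ht (Y := fun s => O + s • v) (Z := fun _ => O + t • v)
      (c := fun s => t - s) (v := v) (c.mono_left nhdsWithin_le_nhds) tendsto_const_nhds
      (by filter_upwards [self_mem_nhdsWithin] with s hs using sub_pos.2 hs)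
      (tendsto_const_nhds.congr' (by
        filter_upwards [self_mem_nhdsWithin] with s hs
        have : t - s ≠ 0 := (sub_pos.2 hs).ne'
        rw [add_sub_add_left_eq_sub, ← sub_smul, smul_smul, inv_mul_cancel₀ this, one_smul]))
    refine this.congr' ?_
    filter_upwards [self_mem_nhdsWithin, mem_nhdsWithin_of_mem_nhds (Ioi_mem_nhds t0)] with s hs s0
    have := h.pm.line_add m0 mt (le_of_lt s0) (le_of_lt hs)
    simp only [zero_smul, add_zero] at this
    have e : t - s ≠ 0 := (sub_pos.2 hs).ne'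
    have e' : s - t ≠ 0 := fun z => e (by linarith)
    rw [slope_def_field, ← this]
    field_simp
    ring
  · have := h.scaled (l := 𝓝[>] t) ht (Z := fun s => O + s • v) (Y := fun _ => O + t • v)
      (c := fun s => s - t) (v := v) tendsto_const_nhds (c.mono_left nhdsWithin_le_nhds)
      (by filter_upwards [self_mem_nhdsWithin] with s hs using sub_pos.2 hs)
      (tendsto_const_nhds.congr' (by
        filter_upwards [self_mem_nhdsWithin] with s hs
        have : s - t ≠ 0 := (sub_pos.2 hs).ne'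
        rw [add_sub_add_left_eq_sub, ← sub_smul, smul_smul, inv_mul_cancel₀ this, one_smul]))
    refine this.congr' ?_
    filter_upwards [self_mem_nhdsWithin,
      mem_nhdsWithin_of_mem_nhds (c.eventually (h.pm.isOpen.mem_nhds mt))] with s hs s0
    have := h.pm.line_add m0 s0 t0.le (le_of_lt hs)
    simp only [zero_smul, add_zero] at this
    rw [slope_def_field, ← this]
    congr 1
    ring

end SD

end Pool.Agent.P.MP_874adf_gt.Fs
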