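import Pool.Agent.P.MP_874adf_gt.Fs.Ident

/-! The infinitesimal form of the Apollonius property. -/

set_option autoImplicit false

namespace Pool.Agent.P.MP_874adf_gt.Fs

open Set Filter Topology Metric

lemma conic_pos {f : ℝ → ℝ} {c : ℝ} (h : HasDerivAt f c 0) (hc : 0 < c) :
    ∀ᶠ t in 𝓝[>] (0 : ℝ), f 0 < f t := by
  have := (hasDerivAt_iff_tendsto_slope_left_right.1 h).2.eventually (lt_mem_nhds hc)
  filter_upwards [this, self_mem_nhdsWithin] with t h1 h2
  rw [slope_def_field, sub_zero, div_pos_iff_of_pos_right h2] at h1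
  linarith

theorem t_conic : S_CONIC := by
  intro M W d F sd gr qu O hO a B l r f C hC e hw
  have n := sd.isN C hC
  obtain ⟨p, q, s, hq⟩ := qu C hC
  obtain ⟨p0, D0⟩ := n.posdef hq
  have mA := sd.pm.seg_mem hO f.mem f.l0.le f.l1.le
  have ne : ∀ t : ℝ, O + t • (B - O) ≠ C := by
    rintro t rfl
    apply hw
    simp only [add_sub_cancel_left, wed, Prod.smul_fst, Prod.smul_snd, smul_eq_mul]
    ring
  have nO : O ≠ C := by simpa using ne 0
  have nB : B ≠ C := by simpa using ne 1
  set A := O + l • (B - O) with hA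
  have nA : A ≠ C := ne l
  have FO := n.pos _ (sub_ne_zero.2 nO.symm)
  have FA := n.pos _ (sub_ne_zero.2 nA.symm)
  have FB := n.pos _ (sub_ne_zero.2 nB.symm)
  have S0 := bf_pos p0 D0 (sub_ne_zero.2 nO.symm)
  set H : P → ℝ := fun z => bf p q s (C - A) z / F C (C - A) - r * (bf p q s (C - B) z / F C (C - B))
    with hH
  have key : ∀ z, bf p q s (C - O) z < 0 → H z ≤ 0 := by
    intro z hz
    by_contra c
    rw [not_le] at c
    have d1 := conic_pos ((gr C hC p q s hq A mA nA z).fun_sub
      ((gr C hC p q s hq B f.mem nB z).const_mul r)) c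
    have d2 := conic_pos (gr C hC p q s hq O hO nO z).fun_neg (neg_pos.2 (div_neg_of_neg_of_pos hz FO))
    have c : Tendsto (fun t : ℝ => C + t • z) (𝓝 0) (𝓝 C) := by
      simpa using (by fun_prop : Continuous fun t : ℝ => C + t • z).tendsto 0
    obtain ⟨t, ⟨h1, h2⟩, h3⟩ := ((d1.and d2).and ((c.eventually
      (sd.pm.isOpen.mem_nhds (sd.sub hC))).filter_mono nhdsWithin_le_nhds)).exists
    simp only [zero_smul, add_zero] at h1 h2
    have k1 := f.ins _ h3 (by linarith)
    have k2 := f.on C (sd.sub hC) e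
    rw [← hA] at k1 k2
    linarith
  have lin : ∀ (σ ε : ℝ), H (σ • rot p q s (C - O) - ε • (C - O)) =
      σ * H (rot p q s (C - O)) - ε * H (C - O) := fun σ ε => by
    simp only [hH, bf, Prod.fst_sub, Prod.snd_sub, Prod.smul_fst, Prod.smul_snd, smul_eq_mul]
    ring
  have z : ∀ σ : ℝ, σ * H (rot p q s (C - O)) ≤ 0 := by
    intro σ
    have t : Tendsto (fun ε : ℝ => σ * H (rot p q s (C - O)) - ε * H (C - O)) (𝓝[>] 0)
        (𝓝 (σ * H (rot p q s (C - O)))) := by
      refine Tendsto.mono_left ?_ nhdsWithin_le_nhds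
      simpa using (by fun_prop : Continuous fun ε : ℝ =>
        σ * H (rot p q s (C - O)) - ε * H (C - O)).tendsto 0
    refine le_of_tendsto t ?_
    filter_upwards [self_mem_nhdsWithin] with ε hε
    rw [← lin]
    apply key
    have : bf p q s (C - O) (σ • rot p q s (C - O) - ε • (C - O)) = -(ε * bf p q s (C - O) (C - O)) := by
      simp only [bf, rot, Prod.fst_sub, Prod.snd_sub, Prod.smul_fst, Prod.smul_snd, smul_eq_mul]
      ring
    rw [this, neg_lt_zero]
    exact mul_pos hε S0
  have z0 : H (rot p q s (C - O)) = 0 := by linarith [z 1, z (-1)]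
  have e1 : wed (C - O) (C - A) = -l * wed (C - O) (B - O) := by
    simp only [hA, wed, Prod.fst_sub, Prod.snd_sub, Prod.fst_add, Prod.snd_add, Prod.smul_fst,
      Prod.smul_snd, smul_eq_mul]
    ring
  have e2 : wed (C - O) (C - B) = -wed (C - O) (B - O) := by
    simp only [wed, Prod.fst_sub, Prod.snd_sub]
    ring
  simp only [hH, bf_rot, e1, e2] at z0
  field_simp at z0
  apply mul_left_cancel₀ (mul_ne_zero D0.ne' hw)
  linarith

end Pool.Agent.P.MP_874adf_gt.Fs
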