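import Pool.Agent.P.MP_874adf_gt.Fs.Ident

/-! Circles of a Euclidean piece are Apollonius sets; non-emptiness of circles. -/

set_option autoImplicit false

namespace Pool.Agent.P.MP_874adf_gt.Fs

open Set Filter Topology Metric

/-- every smaller distance is attained on the segment -/
lemma conv_ivt {M : Set P} {d : P → P → ℝ} (h : PM M d) {O B : P} (hO : O ∈ M) (hB : B ∈ M)
    {a : ℝ} (a0 : 0 ≤ a) (a1 : a ≤ d O B) :
    ∃ t ∈ Icc (0 : ℝ) 1, d O (O + t • (B - O)) = a := by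
  have := intermediate_value_Icc zero_le_one (h.contOn_line (O := O) (x := O) (v := B - O) hO
    (s := Icc 0 1) fun t ht => h.seg_mem hO hB ht.1 ht.2)
  exact this (by simpa [h.self hO] using ⟨a0, a1⟩)

lemma conv_ne {M : Set P} {d : P → P → ℝ} (h : PM M d) {O B : P} (hO : O ∈ M) (hB : B ∈ M)
    {a : ℝ} (a0 : 0 ≤ a) (a1 : a ≤ d O B) : {X ∈ M | d O X = a}.Nonempty := by
  obtain ⟨t, ht, e⟩ := conv_ivt h hO hB a0 a1
  exact ⟨_, h.seg_mem hO hB ht.1 ht.2, e⟩

lemma conv_ext {M : Set P} {d : P → P → ℝ} (h : PM M d) {X : P} (hX : X ∈ M) (v : P) :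
    ∃ t > (0 : ℝ), X + t • v ∈ M := by
  have c : Tendsto (fun t : ℝ => X + t • v) (𝓝 0) (𝓝 X) :=
    (by fun_prop : Continuous fun t : ℝ => X + t • v).tendsto' 0 X (by simp)
  obtain ⟨t, h1, h2⟩ := (((c.eventually (h.isOpen.mem_nhds hX)).filter_mono
    nhdsWithin_le_nhds).and (self_mem_nhdsWithin (a := (0 : ℝ)) (s := Ioi 0))).exists
  exact ⟨t, h2, h1⟩

lemma conv_key {F B X : E2} {r : ℝ} (r0 : 0 < r) (r1 : r < 1) (hb : 0 < dist F B) :
    dist F X = r * dist F B ↔ dist (AffineMap.lineMap F B (r ^ 2)) X / dist X B = r := by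
  have w2 : r ^ 2 < 1 := by nlinarith
  have e0 : (AffineMap.lineMap F B (r ^ 2) : E2) = F + (r ^ 2) • (B - F) := by
    rw [AffineMap.lineMap_apply, vsub_eq_sub, vadd_eq_add, add_comm]
  have key : ‖X - (F + (r ^ 2) • (B - F))‖ ^ 2 - (r * ‖X - B‖) ^ 2 =
      (1 - r ^ 2) * (‖X - F‖ ^ 2 - (r * ‖B - F‖) ^ 2) := by
    have e1 : X - (F + (r ^ 2) • (B - F)) = (X - F) - (r ^ 2) • (B - F) := by abel
    have e2 : X - B = (X - F) - (B - F) := by abel
    rw [e1, e2, mul_pow, mul_pow]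
    generalize X - F = p
    generalize B - F = q
    rw [norm_sub_sq_real, norm_sub_sq_real, inner_smul_right, norm_smul, mul_pow, Real.norm_eq_abs,
      sq_abs]
    ring
  rw [dist_comm F B, dist_eq_norm] at hb
  rw [e0, dist_comm F, dist_comm F, dist_comm _ X, dist_eq_norm, dist_eq_norm, dist_eq_norm,
    dist_eq_norm]
  by_cases hXB : X = B
  · subst hXB
    simp only [sub_self, norm_zero, div_zero]
    exact ⟨fun e => by nlinarith, fun e => absurd e r0.ne⟩
  rw [div_eq_iff (norm_ne_zero_iff.2 (sub_ne_zero.2 hXB)),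
    ← sq_eq_sq₀ (norm_nonneg _) (by positivity), ← sq_eq_sq₀ (norm_nonneg _) (by positivity),
    ← sub_eq_zero (a := ‖X - (F + (r ^ 2) • (B - F))‖ ^ 2), key,
    mul_eq_zero, sub_eq_zero (a := ‖X - F‖ ^ 2)]
  exact ⟨Or.inr, fun e => e.resolve_left (by linarith)⟩

theorem t_conv : S_CONV := by
  intro M d h
  refine ⟨?_, fun O hO => ?_, ?_, fun hR O hO a a0 => ?_⟩
  · rintro ⟨φ, hφ⟩ O hO a a0 ⟨X, hX, hXa⟩
    obtain ⟨t, t0, hB⟩ := conv_ext h hX (X - O)
    have hXO : X - O ≠ 0 := fun e => by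
      rw [sub_eq_zero.1 e, h.self hO] at hXa; exact a0.ne hXa
    set B := X + t • (X - O) with hBd
    have hb : a < d O B := by
      have e1 : O = X + (-1 : ℝ) • (X - O) := by module
      have := h.line_add (x := X) (v := X - O) (r := -1) (s := 0) (t := t) (e1 ▸ hO) hB
        (by norm_num) t0.le
      rw [← e1, zero_smul, add_zero, hXa] at this
      have h2 := h.pos hX hB fun e => (smul_ne_zero t0.ne' hXO) (left_eq_add.1 e)
      linarith
    have b0 : 0 < d O B := a0.trans hb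
    set r := a / d O B with hr
    have r0 : 0 < r := by positivity
    have r1 : r < 1 := (div_lt_one b0).2 hb
    have rb : r * d O B = a := div_mul_cancel₀ _ b0.ne'
    have w2 : r ^ 2 < 1 := by nlinarith
    obtain ⟨s, hs, e⟩ := conv_ivt h hO hB (a := r ^ 2 * d O B) (by positivity) (by nlinarith)
    have hA := h.seg_mem hO hB hs.1 hs.2
    have e2 := h.add hO hB hs.1 hs.2
    set A := O + s • (B - O)
    have e3 : φ A = AffineMap.lineMap (φ O) (φ B) (r ^ 2) :=
      eq_lineMap_of_dist_eq_mul_of_dist_eq_mul (by rw [← hφ O hO A hA, ← hφ O hO B hB, e])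
        (by rw [← hφ A hA B hB, ← hφ O hO B hB]; linarith)
    refine ⟨A, hA, B, hB, r, fun e' => by rw [e'] at e; nlinarith, r0, r1.ne, ?_⟩
    ext C
    simp only [mem_ofPred_eq]
    refine and_congr_right fun hC => ?_
    rw [← rb, hφ O hO C hC, hφ A hA C hC, hφ C hC B hB, e3, hφ O hO B hB]
    exact conv_key r0 r1 (hφ O hO B hB ▸ b0)
  · obtain ⟨t, t0, hY⟩ := conv_ext h hO (1, 0)
    exact ⟨_, h.pos hO hY fun e => smul_ne_zero t0.ne' (by simp) (left_eq_add.1 e),
      fun a a0 a1 => conv_ne h hO hY a0.le a1.le⟩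
  · rintro O hO a ⟨A, hA, B, hB, r, hne, r0, -, e⟩
    have p0 := h.pos hA hB hne
    have hm : ∀ t ∈ Icc (0 : ℝ) 1, A + t • (B - A) ∈ M := fun t ht => h.seg_mem hA hB ht.1 ht.2
    obtain ⟨t, ht, e1⟩ := intermediate_value_Icc zero_le_one
      ((h.contOn_line hA hm).sub ((h.contOn_line hB hm).const_mul r)) (show (0 : ℝ) ∈ _ by
        simp only [Pi.sub_apply, zero_smul, add_zero, one_smul, add_sub_cancel, h.self hA, h.self hB,
          h.symm B hB A hA, mem_Icc]
        constructor <;> nlinarith)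
    refine e ▸ ⟨_, hm t ht, ?_⟩
    have e2 := h.add hA hB ht.1 ht.2
    rw [h.symm _ (hm t ht) B hB] at e2 ⊢
    simp only [Pi.sub_apply] at e1
    rw [div_eq_iff fun z => by rw [z] at e1 e2; linarith]
    linarith
  · obtain ⟨x, hx, y, hy, e⟩ := hR (2 * a)
    have := h.triangle x hx O hO y hy
    rw [h.symm x hx O hO] at this
    rcases le_total a (d O x) with c | c
    · exact conv_ne h hO hx a0.le c
    · exact conv_ne h hO hy a0.le (by linarith)

end Pool.Agent.P.MP_874adf_gt.Fs
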