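import Pool.Agent.P.MP_874adf_gt.Fs.Ident

/-! A complete flat model is the Euclidean plane. -/

set_option autoImplicit false

namespace Pool.Agent.P.MP_874adf_gt.Fs

open Set Filter Topology Metric

theorem t_cpl : S_CPL := by
  intro M d h o b p q s F hc'
  obtain ⟨T, hT⟩ := cholesky F.p0 F.det F.det
  have cT : Continuous T := T.toLinearMap.continuous_of_finiteDimensional
  have e : ∀ X ∈ M, ∀ Y ∈ M, d X Y = dist (T (ch o b X)) (T (ch o b Y)) := fun X hX Y hY => by
    rw [F.eq X hX Y hY, dist_eq_norm, ← map_sub, hT]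
  set N : Set P := {y | 0 < 1 - wed y b ∧ hc o b y ∈ M} with hN
  have m1 : ∀ X ∈ M, ch o b X ∈ N := fun X hX =>
    ⟨by rw [wed_ch o b (F.l0 X hX).ne']; exact inv_pos.2 (F.l0 X hX),
      by rwa [hc_ch o b (F.l0 X hX).ne']⟩
  have cw : Continuous fun y : P => 1 - wed y b := by unfold wed; fun_prop
  have o1 : IsOpen N := ContinuousOn.isOpen_inter_preimage (s := {y : P | 0 < 1 - wed y b})
    (f := hc o b) (continuousOn_const.add ((cw.continuousOn.inv₀ fun y hy => ne_of_gt hy).smul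
      continuousOn_id)) (isOpen_lt continuous_const cw) h.isOpen
  have c1 : IsClosed N := IsSeqClosed.isClosed fun y c hy hl => by
    have t1 := (cT.tendsto c).comp hl
    obtain ⟨z, hz, t2⟩ := hc' (fun n => hc o b (y n)) (fun n => (hy n).2) fun ε hε => by
      obtain ⟨n₀, h0⟩ := Metric.cauchySeq_iff.1 t1.cauchySeq ε hε
      refine ⟨n₀, fun m hm n hn => ?_⟩
      rw [e _ (hy m).2 _ (hy n).2, ch_hc o b (hy m).1.ne', ch_hc o b (hy n).1.ne']
      exact h0 m hm n hn
    have t3 : Tendsto (T ∘ y) atTop (𝓝 (T (ch o b z))) :=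
      tendsto_iff_dist_tendsto_zero.2 (t2.congr fun n => by
        rw [e _ (hy n).2 z hz, ch_hc o b (hy n).1.ne']; rfl)
    rw [T.injective (tendsto_nhds_unique t1 t3)]
    exact m1 z hz
  have u : N = univ := IsClopen.eq_univ ⟨c1, o1⟩ ⟨_, m1 o F.mem⟩
  have w0 : ∀ y, wed y b = 0 := fun y => by
    by_contra h0
    have : (wed y b)⁻¹ • y ∈ N := u ▸ mem_univ _
    have h1 := this.1
    have h2 : wed ((wed y b)⁻¹ • y) b = (wed y b)⁻¹ * wed y b := by
      simp only [wed, Prod.smul_fst, Prod.smul_snd, smul_eq_mul]; ring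
    rw [h2, inv_mul_cancel₀ h0, sub_self] at h1
    exact lt_irrefl _ h1
  have uM : M = univ := eq_univ_of_forall fun X => by
    have : X - o ∈ N := u ▸ mem_univ _
    simpa [hc, w0] using this.2
  refine ⟨uM, T, fun x y => ?_⟩
  rw [e x (uM ▸ mem_univ x) y (uM ▸ mem_univ y)]
  simp [ch, ell, w0]

end Pool.Agent.P.MP_874adf_gt.Fs
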