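import Pool.Agent.P.MP_874adf_gt.Fs.Ident

/-! The model has curvature zero. -/

set_option autoImplicit false

namespace Pool.Agent.P.MP_874adf_gt.Fs

open Set Filter Topology Metric

lemma curv_prim {D : ℝ} (hD : 0 < D) (k : ℝ) : ∃ Th : ℝ → ℝ, Th 0 = 0 ∧ Function.Injective Th ∧
    Continuous Th ∧ ∀ x, D / 2 < D + k * x ^ 2 → HasDerivAt Th (D + k * x ^ 2)⁻¹ x := by
  have h0 : ∀ x : ℝ, 0 < max (D + k * x ^ 2) (D / 2) := fun x => lt_max_of_lt_right (half_pos hD)
  have hc : Continuous fun x : ℝ => (max (D + k * x ^ 2) (D / 2))⁻¹ :=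
    Continuous.inv₀ (by fun_prop) fun x => (h0 x).ne'
  have hd : ∀ z, HasDerivAt (fun z => ∫ x in (0 : ℝ)..z, (max (D + k * x ^ 2) (D / 2))⁻¹)
      (max (D + k * z ^ 2) (D / 2))⁻¹ z := fun z => (hc.integral_hasStrictDerivAt 0 z).hasDerivAt
  refine ⟨_, by simp, (strictMono_of_hasDerivAt_pos hd fun x => inv_pos.2 (h0 x)).injective,
    continuous_iff_continuousAt.2 fun z => (hd z).continuousAt, fun x hx => ?_⟩
  have := hd x
  rwa [max_eq_left hx.le] at this

lemma curv_Qm (o b : P) (p q s k t : ℝ) (v : P) :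
    Qm o b p q s k (o + t • v) v = bf p q s v v := by
  have : wed (o + t • v - o) v = 0 := by
    simp only [wed, add_sub_cancel_left, Prod.smul_fst, Prod.smul_snd, smul_eq_mul]; ring
  rw [Qm, this]
  simp

lemma curv_len {M W : Set P} {d F : P → P → ℝ} (h : SD M W d F) {o b : P} {p q s k δ : ℝ}
    (hm : Model W F o b p q s k) {Th : ℝ → ℝ} (T0 : Th 0 = 0) (Tc : Continuous Th)
    (Td : ∀ x, (p * s - q ^ 2) / 2 < (p * s - q ^ 2) + k * x ^ 2 →
      HasDerivAt Th ((p * s - q ^ 2) + k * x ^ 2)⁻¹ x)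
    (hδ : ∀ X ∈ ball o δ, X ∈ W ∧ 0 < ell o b X ∧
      (p * s - q ^ 2) / 2 < (p * s - q ^ 2) + k * (bf p q s (X - o) (X - o) / ell o b X ^ 2))
    {v : P} {t : ℝ} (t0 : 0 < t) (ht : o + t • v ∈ ball o δ) :
    d o (o + t • v) = Th (t * √(bf p q s v v) / ell o b (o + t • v)) := by
  have mo := h.sub hm.mem
  have S0 := bf_nonneg hm.p0 hm.det v
  have hb : ∀ τ ∈ Icc 0 t, o + τ • v ∈ ball o δ := fun τ hτ => by
    rw [mem_ball, dist_self_add_left, norm_smul, Real.norm_eq_abs] at ht ⊢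
    rw [abs_of_pos t0] at ht
    rw [abs_of_nonneg hτ.1]
    exact (mul_le_mul_of_nonneg_right hτ.2 (norm_nonneg v)).trans_lt ht
  have hl : ∀ τ : ℝ, ell o b (o + τ • v) = 1 + τ * wed v b := fun τ => by rw [ell_line, ell_self]
  have l0 : ∀ τ ∈ Icc 0 t, 0 < 1 + τ * wed v b := fun τ hτ => hl τ ▸ (hδ _ (hb τ hτ)).2.1
  have c1 : ContinuousOn (fun τ : ℝ => d o (o + τ • v) -
      Th (τ * √(bf p q s v v) / (1 + τ * wed v b))) (Icc 0 t) :=
    (h.pm.contOn_line mo fun τ hτ => h.sub (hδ _ (hb τ hτ)).1).sub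
      (Tc.comp_continuousOn (ContinuousOn.div (by fun_prop) (by fun_prop) fun τ hτ => (l0 τ hτ).ne'))
  have c2 : ∀ τ ∈ Ioo 0 t, HasDerivAt (fun τ : ℝ => d o (o + τ • v) -
      Th (τ * √(bf p q s v v) / (1 + τ * wed v b))) 0 τ := fun τ hτ => by
    have m := hδ _ (hb τ (Ioo_subset_Icc_self hτ))
    have l1 := l0 τ (Ioo_subset_Icc_self hτ)
    have d1 := h.len mo hτ.1 m.1
    have e1 : (τ * √(bf p q s v v) / (1 + τ * wed v b)) ^ 2 =
        bf p q s (o + τ • v - o) (o + τ • v - o) / ell o b (o + τ • v) ^ 2 := by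
      rw [add_sub_cancel_left, bf_smul_smul, hl, div_pow, mul_pow, Real.sq_sqrt S0]
    have d2 : HasDerivAt (fun τ : ℝ => τ * √(bf p q s v v) / (1 + τ * wed v b))
        (√(bf p q s v v) / (1 + τ * wed v b) ^ 2) τ := by
      have := ((hasDerivAt_id' τ).mul_const (√(bf p q s v v))).div
        (((hasDerivAt_id' τ).mul_const (wed v b)).const_add 1) l1.ne'
      refine this.congr_deriv ?_
      congr 1
      ring
    have d3 := (Td _ (by rw [e1]; exact m.2.2)).comp τ d2
    have D1 := hm.D0 _ m.1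
    refine (d1.sub d3).congr_deriv ?_
    rw [hm.eq _ m.1, curv_Qm, e1]
    have e2 : p * s - q ^ 2 + k * (bf p q s (o + τ • v - o) (o + τ • v - o) /
        ell o b (o + τ • v) ^ 2) = Dm o b p q s k (o + τ • v) / (1 + τ * wed v b) ^ 2 := by
      rw [Dm, hl]; field_simp
    rw [e2]
    field_simp
    ring
  obtain ⟨c, -, hc⟩ := exists_hasDerivAt_eq_slope _ (fun _ => (0 : ℝ)) t0 c1 c2
  rw [eq_comm, div_eq_zero_iff] at hc
  simp only [zero_smul, add_zero, zero_mul, zero_div, T0, h.pm.self mo, sub_zero, t0.ne',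
    or_false] at hc
  rw [hl]
  linarith

lemma curv_Q0 {M W : Set P} {d F : P → P → ℝ} (h : SD M W d F) {o b : P} {p q s k : ℝ}
    (hm : Model W F o b p q s k) {C : P} (hC : C ∈ W) (v : P) : 0 ≤ Qm o b p q s k C v := by
  rcases eq_or_ne v 0 with rfl | hv
  · simp [Qm, bf, wed]
  have := (h.isN C hC).pos v hv
  rw [hm.eq C hC, div_pos_iff_of_pos_right (hm.D0 C hC)] at this
  exact (Real.sqrt_pos.1 this).le

theorem t_curv : S_CURV := by
  intro M W d F h hA hC o b p q s k hm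
  by_contra hk
  have mo := h.sub hm.mem
  obtain ⟨Th, T0, Ti, Tc, Td⟩ := curv_prim hm.det k
  obtain ⟨δ, δ0, hδ⟩ : ∃ δ > (0 : ℝ), ∀ X ∈ ball o δ, X ∈ W ∧ 0 < ell o b X ∧
      (p * s - q ^ 2) / 2 < (p * s - q ^ 2) + k * (bf p q s (X - o) (X - o) / ell o b X ^ 2) := by
    have e1 : ∀ᶠ X in 𝓝 o, 0 < ell o b X :=
      (ell_cont o b).continuousAt.eventually (lt_mem_nhds (by rw [ell_self]; exact one_pos))
    have c : ContinuousAt (fun X => (p * s - q ^ 2) +
        k * (bf p q s (X - o) (X - o) / ell o b X ^ 2)) o := by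
      refine continuousAt_const.add (continuousAt_const.mul (ContinuousAt.div ?_
        ((ell_cont o b).pow 2).continuousAt (by rw [ell_self]; norm_num)))
      unfold bf; fun_prop
    have e2 := c.eventually (lt_mem_nhds (a := (p * s - q ^ 2) / 2) (by
      simp only [sub_self, bf, Prod.fst_zero, Prod.snd_zero, mul_zero, add_zero, zero_div]
      exact half_lt_self hm.det))
    exact Metric.eventually_nhds_iff_ball.1
      ((show ∀ᶠ X in 𝓝 o, X ∈ W from h.openW.mem_nhds hm.mem).and (e1.and e2))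
  obtain ⟨a0, a00, ha⟩ := hA o mo
  obtain ⟨ε, ε0, hε⟩ := h.pm.near mo δ0
  have a1 : 0 < min a0 ε / 2 := half_pos (lt_min a00 ε0)
  have a2 := half_lt_self (lt_min a00 ε0)
  set a := min a0 ε / 2
  obtain ⟨hR, B, l, r, hF⟩ := ha a a1 (a2.trans_le (min_le_left _ _))
  have u0 : B - o ≠ 0 := sub_ne_zero.2 hF.ne
  have Su := bf_pos hm.p0 hm.det u0
  have key : ∀ i : ℝ, ∃ c z : ℝ, 0 < c ∧ Th z = a ∧
      l ^ 2 * ((p * s - q ^ 2 + k * z ^ 2) * Dm o b p q s k B -
        ((p * s - q ^ 2) * ell o b B + k * (i * c)) ^ 2) =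
      r ^ 2 * ((p * s - q ^ 2 + k * z ^ 2) * Dm o b p q s k (o + l • (B - o)) -
        ((p * s - q ^ 2) * ell o b (o + l • (B - o)) + k * (l * (i * c))) ^ 2) := fun i => by
    set v := rot p q s (B - o) + i • (B - o) with hv
    have w1 : wed v (B - o) = -bf p q s (B - o) (B - o) := by
      rw [← wed_rot]
      simp only [hv, wed, Prod.fst_add, Prod.snd_add, Prod.smul_fst, Prod.smul_snd, smul_eq_mul]
      ring
    have w2 : bf p q s v (B - o) = i * bf p q s (B - o) (B - o) := by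
      rw [hv, bf_add_left, bf_smul_left, bf_comm, bf_rot]
      simp only [wed]; ring
    have v0 : v ≠ 0 := fun e => by
      rw [e] at w1
      simp only [wed, Prod.fst_zero, Prod.snd_zero, zero_mul, sub_zero] at w1
      linarith
    obtain ⟨t, t0, mt, dt⟩ := hR v v0
    have bt := hε _ mt (dt ▸ a2.trans_le (min_le_right _ _))
    obtain ⟨m1, m2, -⟩ := hδ _ bt
    have e1 := curv_len h hm T0 Tc Td hδ t0 bt
    have e2 := hC o mo a B l r hF _ m1 dt (by
      have : wed (o + t • v - o) (B - o) = t * wed v (B - o) := by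
        simp only [wed, add_sub_cancel_left, Prod.smul_fst, Prod.smul_snd, smul_eq_mul]; ring
      rw [this, w1]
      exact mul_ne_zero t0.ne' (neg_ne_zero.2 Su.ne'))
    have D1 := hm.D0 _ m1
    rw [hm.eq _ m1, hm.eq _ m1, ← mul_div_assoc, ← mul_div_assoc, div_left_inj' D1.ne'] at e2
    have e3 := congrArg (fun x => (p * s - q ^ 2) * k * x ^ 2) e2
    simp only [mul_pow, Real.sq_sqrt (curv_Q0 h hm m1 _)] at e3
    rw [mul_left_comm, curv_ident, mul_left_comm, curv_ident] at e3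
    refine ⟨t * bf p q s (B - o) (B - o) / ell o b (o + t • v),
      t * √(bf p q s v v) / ell o b (o + t • v), by positivity, by rw [← e1, dt], ?_⟩
    have f1 : Dm o b p q s k (o + t • v) = ell o b (o + t • v) ^ 2 *
        (p * s - q ^ 2 + k * (t * √(bf p q s v v) / ell o b (o + t • v)) ^ 2) := by
      rw [Dm, add_sub_cancel_left, bf_smul_smul, div_pow, mul_pow,
        Real.sq_sqrt (bf_nonneg hm.p0 hm.det v)]
      field_simp
    have f2 : Bm o b p q s k (o + t • v) B = ell o b (o + t • v) * ((p * s - q ^ 2) * ell o b B +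
        k * (i * (t * bf p q s (B - o) (B - o) / ell o b (o + t • v)))) := by
      rw [Bm, add_sub_cancel_left, bf_smul_left, w2]
      field_simp
    have f3 : Bm o b p q s k (o + t • v) (o + l • (B - o)) = ell o b (o + t • v) *
        ((p * s - q ^ 2) * ell o b (o + l • (B - o)) +
        k * (l * (i * (t * bf p q s (B - o) (B - o) / ell o b (o + t • v))))) := by
      rw [Bm, add_sub_cancel_left, add_sub_cancel_left, bf_smul_left, bf_comm, bf_smul_left,
        bf_comm, w2]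
      field_simp
    rw [f1, f2, f3] at e3
    refine mul_left_cancel₀ (pow_ne_zero 2 m2.ne') ?_
    linear_combination e3
  obtain ⟨c1, z1, p1, q1, k1⟩ := key 1
  obtain ⟨c2, z2, p2, q2, k2⟩ := key 0
  obtain ⟨c3, z3, p3, q3, k3⟩ := key (-1)
  obtain rfl : z1 = z2 := Ti (q1.trans q2.symm)
  obtain rfl : z1 = z3 := Ti (q1.trans q3.symm)
  have : c1 * c3 * (c1 + c3) * (k ^ 2 * l ^ 2 * (1 - r ^ 2)) = 0 := by
    linear_combination (-c3) * k1 + (c1 + c3) * k2 - c1 * k3
  have r2 : 0 < 1 - r ^ 2 := by nlinarith [hF.r0, hF.r1]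
  have l0 := hF.l0
  exact absurd this (by positivity)

end Pool.Agent.P.MP_874adf_gt.Fs
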