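import Mathlib

/-! Projective-metric planes of affine type, their Finsler function, and Apollonius circles. -/

set_option autoImplicit false

namespace Pool.Agent.P.MP_874adf_gt.Fs

open Set Filter Topology

/-- `d` is a metric on the nonempty open convex set `M` of the plane that induces the usual
topology and for which `d x y + d y z = d x z` holds exactly when `y` lies on the segment `[x,z]`. -/
structure PM (M : Set (ℝ × ℝ)) (d : ℝ × ℝ → ℝ × ℝ → ℝ) : Prop where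
  isOpen : IsOpen M
  convex : Convex ℝ M
  nonempty : M.Nonempty
  eq_zero : ∀ x ∈ M, ∀ y ∈ M, d x y = 0 ↔ x = y
  symm : ∀ x ∈ M, ∀ y ∈ M, d x y = d y x
  triangle : ∀ x ∈ M, ∀ y ∈ M, ∀ z ∈ M, d x z ≤ d x y + d y z
  top : ∀ x ∈ M, ∀ s : Set (ℝ × ℝ), s ∈ 𝓝[M] x ↔ ∃ ε > 0, {y ∈ M | d x y < ε} ⊆ s
  straight : ∀ x ∈ M, ∀ y ∈ M, ∀ z ∈ M, d x y + d y z = d x z ↔ y ∈ segment ℝ x z

/-- On `W` the infinitesimal length `F x v = lim d(x, x + t v) / t` (as `t ↓ 0`) exists, is positive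
for `v ≠ 0` and is continuous in `(x, v)`. -/
structure Fins (W : Set (ℝ × ℝ)) (d F : ℝ × ℝ → ℝ × ℝ → ℝ) : Prop where
  cont : ContinuousOn (fun p : (ℝ × ℝ) × (ℝ × ℝ) => F p.1 p.2) (W ×ˢ univ)
  pos : ∀ x ∈ W, ∀ v, v ≠ 0 → 0 < F x v
  lim : ∀ x ∈ W, ∀ v, Tendsto (fun t : ℝ => d x (x + t • v) / t) (𝓝[>] 0) (𝓝 (F x v))

/-- The circle with centre `O` and radius `a` is an Apollonius set. -/
def IsAp (M : Set (ℝ × ℝ)) (d : ℝ × ℝ → ℝ × ℝ → ℝ) (O : ℝ × ℝ) (a : ℝ) : Prop :=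
  ∃ A ∈ M, ∃ B ∈ M, ∃ r : ℝ, A ≠ B ∧ 0 < r ∧ r ≠ 1 ∧
    {X ∈ M | d O X = a} = {C ∈ M | d A C / d C B = r}

end Pool.Agent.P.MP_874adf_gt.Fs
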