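import Pool.Agent.P.MP_874adf_gt.Fs.Ident

/-! The flat model holds on all of `M`, and gives an isometric embedding. -/

set_option autoImplicit false

namespace Pool.Agent.P.MP_874adf_gt.Fs

open Set Filter Topology Metric

theorem t_flat : S_FLAT := by
  intro M d h o ho b p q s hp hd he
  have e1 : ∀ X ∈ M, ∀ Y ∈ M, 0 < ell o b X → 0 < ell o b Y → (p * s - q ^ 2) * d X Y =
      √(bf p q s (ch o b X - ch o b Y) (ch o b X - ch o b Y)) := fun X hX Y hY lX lY => by
    have := he (ch o b X) (ch o b Y) (by rw [wed_ch o b lX.ne']; positivity)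
      (by rwa [hc_ch o b lX.ne']) (by rw [wed_ch o b lY.ne']; positivity)
      (by rwa [hc_ch o b lY.ne'])
    rwa [hc_ch o b lX.ne', hc_ch o b lY.ne'] at this
  have l0 : ∀ X ∈ M, 0 < ell o b X := fun X hX => by
    by_contra hc
    have w1 : 1 ≤ -wed (X - o) b := by
      have := not_lt.1 hc
      rw [ell] at this
      linarith
    have x0 : X - o ≠ 0 := fun e => by
      rw [e] at w1
      norm_num [wed] at w1
    have S0 : 0 < √(bf p q s (X - o) (X - o)) := Real.sqrt_pos.2 (bf_pos hp hd x0)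
    have key : ∀ η : ℝ, 0 < η → η < 1 → (1 - η) * √(bf p q s (X - o) (X - o)) ≤
        η * (-wed (X - o) b * ((p * s - q ^ 2) * d o X)) := fun η η0 η1 => by
      obtain ⟨t, ht⟩ : ∃ t : ℝ, t * -wed (X - o) b = 1 - η :=
        ⟨_, div_mul_cancel₀ _ (by linarith)⟩
      have t0 : 0 < t := by
        by_contra hc
        nlinarith [not_lt.1 hc]
      have t1 : t ≤ 1 := by nlinarith
      have hm := h.seg_mem ho hX t0.le t1
      have el : ell o b (o + t • (X - o)) = η := by
        rw [ell_line, ell_self]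
        linarith
      have a1 := e1 _ hm o ho (el ▸ η0) (by rw [ell_self]; exact one_pos)
      rw [ch, ch, sub_self, smul_zero, sub_zero, el, add_sub_cancel_left, smul_smul, bf_smul_smul,
        Real.sqrt_mul (sq_nonneg _), Real.sqrt_sq (by positivity), h.symm _ hm o ho] at a1
      have a2 : (p * s - q ^ 2) * d o (o + t • (X - o)) ≤ (p * s - q ^ 2) * d o X :=
        mul_le_mul_of_nonneg_left (by linarith [h.add ho hX t0.le t1, h.nonneg hm hX]) hd.le
      rw [a1] at a2
      calc (1 - η) * √(bf p q s (X - o) (X - o))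
          = η * (-wed (X - o) b * (η⁻¹ * t * √(bf p q s (X - o) (X - o)))) := by
            rw [← ht]
            field_simp
        _ ≤ _ := by gcongr
    have K0 : 0 ≤ -wed (X - o) b * ((p * s - q ^ 2) * d o X) :=
      mul_nonneg (by linarith) (mul_nonneg hd.le (h.nonneg ho hX))
    generalize -wed (X - o) b * ((p * s - q ^ 2) * d o X) = K at key K0
    generalize √(bf p q s (X - o) (X - o)) = A at key S0
    obtain ⟨η, hη⟩ : ∃ η : ℝ, η * (2 * (K + A)) = A := ⟨_, div_mul_cancel₀ _ (by positivity)⟩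
    have η0 : 0 < η := by
      by_contra hc
      nlinarith [not_lt.1 hc]
    have η1 : η < 1 := by
      by_contra hc
      nlinarith [not_lt.1 hc]
    nlinarith [key η η0 η1]
  have e2 : ∀ X ∈ M, ∀ Y ∈ M, d X Y =
      √(bf p q s (ch o b X - ch o b Y) (ch o b X - ch o b Y)) / (p * s - q ^ 2) :=
    fun X hX Y hY => by rw [← e1 X hX Y hY (l0 X hX) (l0 Y hY), mul_div_cancel_left₀ _ hd.ne']
  obtain ⟨T, hT⟩ := cholesky hp hd hd
  exact ⟨⟨ho, hp, hd, l0, e2⟩, fun X => T (ch o b X), fun X hX Y hY => by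
    rw [dist_eq_norm, ← map_sub, hT, e2 X hX Y hY]⟩

end Pool.Agent.P.MP_874adf_gt.Fs
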