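import Pool.Agent.P.MP_874adf_gt.Fs.Ident

/-! The derivative of the distance from a point where the norm is quadratic. -/

set_option autoImplicit false

namespace Pool.Agent.P.MP_874adf_gt.Fs

open Set Filter Topology Metric

lemma grad_norm {N : P → ℝ} (n : IsN N) {p q s : ℝ} (h : ∀ v, N v ^ 2 = bf p q s v v) {e : P}
    (he : e ≠ 0) (z : P) : Tendsto (fun t : ℝ => N (z + t⁻¹ • e) - N (t⁻¹ • e)) (𝓝[>] 0)
      (𝓝 (bf p q s e z / N e)) := by
  have sq : ∀ v, N v = √(bf p q s v v) := fun v => by rw [← h, Real.sqrt_sq (n.nonneg v)]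
  have p0 := n.pos e he
  have d1 : HasDerivAt (fun t : ℝ => bf p q s e e + 2 * bf p q s e z * t + bf p q s z z * t ^ 2)
      (2 * bf p q s e z) 0 := by
    have := (((hasDerivAt_id (0 : ℝ)).const_mul (2 * bf p q s e z)).const_add (bf p q s e e)).fun_add
      (((hasDerivAt_id (0 : ℝ)).fun_pow 2).const_mul (bf p q s z z))
    simpa using this
  have d2 := d1.sqrt (by simpa [← h] using p0.ne')
  have d3 : HasDerivAt (fun t : ℝ => N (e + t • z)) (bf p q s e z / N e) 0 := by
    convert d2 using 1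
    · funext t
      rw [sq]
      congr 1
      simp only [bf, Prod.fst_add, Prod.snd_add, Prod.smul_fst, Prod.smul_snd, smul_eq_mul]
      ring
    · rw [sq]
      simp only [mul_zero, add_zero, ne_eq, OfNat.ofNat_ne_zero, not_false_eq_true, zero_pow]
      rw [mul_div_mul_left _ _ two_ne_zero]
  refine d3.tendsto_slope_zero_right.congr' ?_
  filter_upwards [self_mem_nhdsWithin] with t (ht : 0 < t)
  have e1 : z + t⁻¹ • e = t⁻¹ • (e + t • z) := by
    rw [smul_add, smul_smul, inv_mul_cancel₀ ht.ne', one_smul, add_comm]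
  rw [e1, n.smul_nonneg (inv_pos.2 ht).le, n.smul_nonneg (inv_pos.2 ht).le]
  simp [mul_sub]

lemma grad_right {M W : Set P} {d F : P → P → ℝ} (h : SD M W d F) {y : P} (hy : y ∈ W)
    {p q s : ℝ} (hq : ∀ v, F y v ^ 2 = bf p q s v v) {O : P} (hO : O ∈ M) (hne : O ≠ y) (z : P) :
    Tendsto (fun t : ℝ => (d O (y + t • z) - d O y) / t) (𝓝[>] 0)
      (𝓝 (bf p q s (y - O) z / F y (y - O))) := by
  have n := h.isN y hy
  have he : y - O ≠ 0 := sub_ne_zero.2 hne.symm
  have my := h.sub hy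
  have t0 : Tendsto (fun t : ℝ => t) (𝓝[>] 0) (𝓝 0) := tendsto_id.mono_left nhdsWithin_le_nhds
  have c : Tendsto (fun t : ℝ => y + t • z) (𝓝[>] 0) (𝓝 y) := by
    simpa using (t0.smul_const z).const_add y
  have pos : ∀ᶠ t : ℝ in 𝓝[>] 0, 0 < t := self_mem_nhdsWithin
  have v1 : Tendsto (fun t : ℝ => t⁻¹ • (y + t • z - y)) (𝓝[>] 0) (𝓝 z) :=
    tendsto_const_nhds.congr' (pos.mono fun t ht => by
      simp only [add_sub_cancel_left, smul_smul, inv_mul_cancel₀ ht.ne', one_smul])
  have v2 : Tendsto (fun t : ℝ => t⁻¹ • (y - (y + t • z))) (𝓝[>] 0) (𝓝 (-z)) :=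
    v1.neg.congr fun t => by rw [← smul_neg, neg_sub]
  have sc := h.scaled hy tendsto_const_nhds c pos v1
  have bd : ∀ᶠ t : ℝ in 𝓝[>] 0,
      (d O (y + t • z) - d O y) / t ∈ Icc (-(F y z + 1)) (F y z + 1) := by
    filter_upwards [pos, sc.eventually (gt_mem_nhds (lt_add_one _)),
      c.eventually (h.pm.isOpen.mem_nhds my)] with t ht h1 h2
    have a1 := h.pm.triangle O hO y my _ h2
    have a2 := h.pm.triangle O hO _ h2 y my
    rw [h.pm.symm _ h2 y my] at a2
    rw [div_lt_iff₀ ht] at h1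
    rw [mem_Icc, le_div_iff₀ ht, div_le_iff₀ ht]
    constructor <;> linarith
  refine (tendsto_iff_ultrafilter _ _ _).2 fun U hU => ?_
  obtain ⟨β, -, hβ⟩ := isCompact_Icc.ultrafilter_le_nhds
    (U.map fun t : ℝ => (d O (y + t • z) - d O y) / t) (le_principal_iff.2 (hU bd))
  have hβ' : Tendsto (fun t : ℝ => (d O (y + t • z) - d O y) / t) U (𝓝 β) := hβ
  have key : ∀ (Y Z : ℝ → P) (v : P) (b : ℝ), Tendsto Y (𝓝[>] 0) (𝓝 y) →
      Tendsto Z (𝓝[>] 0) (𝓝 y) → Tendsto (fun t : ℝ => t⁻¹ • (Z t - Y t)) (𝓝[>] 0) (𝓝 v) →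
      Tendsto (fun t : ℝ => (d O (Z t) - d O (Y t)) / t) U (𝓝 b) →
      b ≤ bf p q s (y - O) v / F y (y - O) := fun Y Z v b hY hZ hv hb => by
    refine ge_of_tendsto (grad_norm n hq he v) (pos.mono fun r hr => ?_)
    have a0 : Tendsto (fun t : ℝ => t / r) (𝓝[>] 0) (𝓝 0) := by simpa using t0.div_const r
    refine h.sandwich_lim (l := U) hy (O := fun _ => O) (c := fun t => t) (θ := fun t => t / r)
      (Eventually.of_forall fun _ => hO) (hY.mono_left hU) (hZ.mono_left hU) (hU pos) (hU ?_)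
      (Tendsto.mono_left ?_ hU) (hv.mono_left hU) (Tendsto.mono_left ?_ hU) hb
    · filter_upwards [pos, a0.eventually (gt_mem_nhds one_pos)] with t h1 h2
      exact ⟨by positivity, h2.le⟩
    · simpa using a0.smul (hY.sub_const O)
    · refine ((hY.sub_const O).const_smul r⁻¹).congr' (pos.mono fun t ht => ?_)
      simp only [smul_smul]
      congr 1
      field_simp
  have k1 := key _ _ z β tendsto_const_nhds c v1 hβ'
  have k2 := key _ _ (-z) (-β) c tendsto_const_nhds v2
    (hβ'.neg.congr fun t => by rw [← neg_div, neg_sub])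
  have e : bf p q s (y - O) (-z) = -bf p q s (y - O) z := by
    simp only [bf, Prod.fst_neg, Prod.snd_neg]; ring
  rw [e, neg_div, neg_le_neg_iff] at k2
  rwa [← le_antisymm k1 k2]

theorem t_grad : S_GRAD := by
  intro M W d F h y hy p q s hq O hO hne w
  have k1 := grad_right h hy hq hO hne w
  have k2 := (grad_right h hy hq hO hne (-w)).neg
  have e : bf p q s (y - O) (-w) = -bf p q s (y - O) w := by
    simp only [bf, Prod.fst_neg, Prod.snd_neg]; ring
  rw [e, neg_div, neg_neg] at k2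
  rw [hasDerivAt_iff_tendsto_slope_left_right]
  constructor
  · have n0 : Tendsto (fun t : ℝ => -t) (𝓝[<] 0) (𝓝[>] 0) := by
      simpa using tendsto_neg_nhdsLT (a := (0 : ℝ))
    refine (k2.comp n0).congr fun t => ?_
    simp [slope_def_field, div_neg]
  · refine k1.congr fun t => ?_
    simp [slope_def_field]

end Pool.Agent.P.MP_874adf_gt.Fs
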