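import Pool.Agent.P.MP_874adf_gt.Fs.Base

/-! The steps combined. -/

set_option autoImplicit false

namespace Pool.Agent.P.MP_874adf_gt.Fs

open Set Filter Topology Metric

theorem glue (h1 : S_STRUCT) (h2 : S_STRICT) (h3 : S_SC) (h4 : S_BLOW) (h5 : S_BR) (h6 : S_B1)
    (h7 : S_B0) (h8 : S_LR) (h9 : S_L1) (h10 : S_L0) (h11 : S_CLOSE) (h12 : S_GRAD) (h13 : S_INV)
    (h14 : S_ALG) (h15 : S_CONIC) (h16 : S_CURV) (h17 : S_PROP) (h18 : S_PRE) (h19 : S_FLAT)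
    {M W : Set P} {d F : P → P → ℝ} (pm : PM M d) (oW : IsOpen W) (sub : W ⊆ M)
    (de : M ⊆ closure W) (fi : Fins W d F)
    (ap : ∀ O ∈ M, ∃ a0 > (0 : ℝ), ∀ a, 0 < a → a < a0 → IsAp M d O a) :
    (∃ o b p q s, Flat M d o b p q s) ∧ Emb M d := by
  have st := h1 M d pm ap
  have sd := h2 M W d F pm oW sub de fi
  have gr := h12 M W d F sd
  have qu : ∀ x ∈ W, Quad (F x) := by
    refine h11 M W d F sd fun x hx δ hδ => ?_
    obtain ⟨y, hy, hd, sc⟩ := h3 M W d F sd x hx δ hδ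
    refine ⟨y, hy, hd, ?_⟩
    obtain ⟨U, B, l, r, u, ρ, bl, u1, r0, r1⟩ := h4 M W d F sd st y hy
    rcases r0.eq_or_lt with rfl | r0
    · exact h10 _ u (sd.isN y hy) u1 (h7 M W d F sd y hy U B l r u bl u1)
    rcases r1.eq_or_lt with rfl | r1
    · exact h9 _ u (sd.isN y hy) sc u1 (h6 M W d F sd y hy U B l r u bl u1)
    · exact h8 _ u (sd.isN y hy) sc u1 (h5 M W d F sd y hy U B l r u ρ bl u1 r0 r1)
  obtain ⟨p, q, s, cp, cq, cs, e1, e2⟩ := h13 M W d F sd gr qu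
  have ne : W.Nonempty := by
    obtain ⟨x, hx⟩ := pm.nonempty
    exact closure_nonempty_iff.1 ⟨x, de hx⟩
  obtain ⟨o, b, p0, q0, s0, k, mo⟩ := h14 W F p q s oW ne cp cq cs e1 e2
  have co := h15 M W d F sd gr qu
  obtain rfl := h16 M W d F sd st co o b p0 q0 s0 k mo
  have pr := h17 _ _ _ _ _ _ (h18 M W d F sd st gr co o b p0 q0 s0 mo)
  have fl := h19 M d pm o (sub mo.mem) b p0 q0 s0 mo.p0 mo.det
    fun y z a1 a2 a3 a4 => pr y ⟨a1, a2⟩ z ⟨a3, a4⟩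
  exact ⟨⟨o, b, p0, q0, s0, fl.1⟩, fl.2⟩

end Pool.Agent.P.MP_874adf_gt.Fs
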