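import Pool.Agent.P.MP_874adf_gt.Fs.Ident

/-! The Hilbert metric has a Finsler function and is not flat. -/

set_option autoImplicit false

namespace Pool.Agent.P.MP_874adf_gt.Fs

open Set Filter Topology Metric

/-- the gauge of `M` seen from `x` -/
noncomputable def hilbG (M : Set P) (x v : P) : ℝ := gauge (Homeomorph.addLeft x ⁻¹' M) v

variable {M : Set P} {d : P → P → ℝ} {x v : P} {c : ℝ}

lemma hilb_iff (h : PM M d) (hx : x ∈ M) (hc : 0 < c) (v : P) :
    (hilbG M x v < c ↔ x + c⁻¹ • v ∈ M) ∧ (hilbG M x v ≤ c ↔ x + c⁻¹ • v ∈ closure M) := by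
  have h1 : Convex ℝ (Homeomorph.addLeft x ⁻¹' M) := h.convex.translate_preimage_right x
  have h2 : IsOpen (Homeomorph.addLeft x ⁻¹' M) := h.isOpen.preimage (Homeomorph.continuous _)
  have h3 := h2.mem_nhds (x := 0) (by simpa using hx)
  have h4 := gauge_lt_one_iff_mem_interior (x := c⁻¹ • v) h1 h3
  have h5 := gauge_le_one_iff_mem_closure (x := c⁻¹ • v) h1 h3
  rw [gauge_smul_of_nonneg (inv_pos.2 hc).le, smul_eq_mul] at h4 h5
  rw [h2.interior_eq, inv_mul_lt_iff₀ hc, mul_one] at h4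
  rw [← Homeomorph.preimage_closure, inv_mul_le_iff₀ hc, mul_one] at h5
  exact ⟨h4, h5⟩

lemma hilb_pos (h : PM M d) (hb : Bornology.IsBounded M) (hx : x ∈ M) (hv : v ≠ 0) :
    0 < hilbG M x v := by
  obtain ⟨r, hr, h1⟩ := hb.subset_closedBall_lt 0 x
  refine lt_of_lt_of_le (div_pos (norm_pos_iff.2 hv) hr) (le_gauge_of_subset_closedBall
    (absorbent_nhds_zero ((h.isOpen.preimage (Homeomorph.continuous _)).mem_nhds
      (by simpa using hx))) hr.le fun z hz => ?_)
  simpa using h1 hz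

lemma hilb_cont (h : PM M d) (hx : x ∈ M) (v : P) :
    ContinuousAt (fun p : P × P => hilbG M p.1 p.2) (x, v) := by
  have h0 : ∀ᶠ p : P × P in 𝓝 (x, v), p.1 ∈ M := continuousAt_fst.eventually (h.isOpen.mem_nhds hx)
  have h1 : ∀ c : ℝ, Continuous fun p : P × P => p.1 + c⁻¹ • p.2 := fun c => by fun_prop
  refine tendsto_order.2 ⟨fun a ha => ?_, fun a ha => ?_⟩
  · rcases lt_or_ge a 0 with a0 | a0
    · exact Eventually.of_forall fun p => a0.trans_le (gauge_nonneg _)
    obtain ⟨c, c1, c2⟩ := exists_between ha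
    have c0 := a0.trans_lt c1
    filter_upwards [h0, (h1 c).continuousAt.eventually (isClosed_closure.isOpen_compl.mem_nhds
      ((hilb_iff h hx c0 v).2.not.1 c2.not_ge))] with p p1 p2
    exact c1.trans (not_le.1 ((hilb_iff h p1 c0 _).2.not.2 p2))
  · have a0 : 0 < a := (gauge_nonneg _).trans_lt ha
    filter_upwards [h0, (h1 a).continuousAt.eventually (h.isOpen.mem_nhds
      ((hilb_iff h hx a0 v).1.1 ha))] with p p1 p2
    exact (hilb_iff h p1 a0 _).1.2 p2

lemma hilb_fr (h : PM M d) (hb : Bornology.IsBounded M) (hx : x ∈ M) (hv : v ≠ 0) :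
    x + (hilbG M x v)⁻¹ • v ∈ frontier M :=
  h.isOpen.frontier_eq ▸ ⟨(hilb_iff h hx (hilb_pos h hb hx hv) v).2.1 le_rfl,
    fun e => lt_irrefl _ ((hilb_iff h hx (hilb_pos h hb hx hv) v).1.2 e)⟩

lemma hilb_seg (x v : P) {r s t : ℝ} (h1 : r ≤ s) (h2 : s ≤ t) :
    x + s • v ∈ segment ℝ (x + r • v) (x + t • v) := by
  obtain ⟨a, b, ha, hb, e, rfl⟩ : s ∈ segment ℝ r t := by
    rw [segment_eq_Icc (h1.trans h2)]; exact ⟨h1, h2⟩
  exact ⟨a, b, ha, hb, e, by linear_combination (norm := module) e • x⟩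

lemma hilb_norm (x v : P) (r s : ℝ) : ‖x + r • v - (x + s • v)‖ = |r - s| * ‖v‖ := by
  rw [add_sub_add_left_eq_sub, ← sub_smul, norm_smul, Real.norm_eq_abs]

lemma hilb_d (h : PM M d) (hb : Bornology.IsBounded M) (H : Hilb M d) (hx : x ∈ M) (hv : v ≠ 0)
    {t : ℝ} (t0 : 0 < t) (t1 : t * hilbG M x v < 1) : x + t • v ∈ M ∧ d x (x + t • v) =
      (Real.log (1 + t * hilbG M x (-v)) - Real.log (1 - t * hilbG M x v)) / 2 := by
  have p0 := hilb_pos h hb hx hv
  have m0 := hilb_pos h hb hx (neg_ne_zero.2 hv)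
  have p1 := hilb_fr h hb hx hv
  have m1 := hilb_fr h hb hx (neg_ne_zero.2 hv)
  rw [smul_neg, ← neg_smul] at m1
  have h1 := (hilb_iff h hx (inv_pos.2 t0) v).1.1 (by rwa [← one_div, lt_div_iff₀' t0])
  rw [inv_inv] at h1
  set gp := hilbG M x v
  set gm := hilbG M x (-v)
  have t2 : t < gp⁻¹ := by rwa [← one_div, lt_div_iff₀ p0]
  have p2 := inv_pos.2 p0
  have m2 := inv_pos.2 m0
  have n0 := norm_pos_iff.2 hv
  have h2 := H (x + (0 : ℝ) • v) (by simpa using hx) _ h1 (by simpa [t0.ne'] using hv) _ m1 _ p1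
    (hilb_seg x v (by linarith) t0.le) (hilb_seg x v t0.le t2.le)
  simp only [hilb_norm] at h2
  rw [zero_smul, add_zero, abs_of_pos (by linarith), abs_of_neg (by linarith),
    abs_of_pos (by linarith), abs_of_neg (by linarith)] at h2
  have h3 : 1 - t * gp ≠ 0 := by linarith
  refine ⟨h1, ?_⟩
  rw [h2, ← Real.log_div (by positivity) h3]
  congr 2
  rw [div_eq_div_iff (mul_pos (mul_pos (by linarith) n0) (mul_pos (by linarith) n0)).ne' h3]
  field_simp
  ring

theorem t_hilb : S_HILB := by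
  intro M d h hb H
  refine ⟨⟨fun x v => (hilbG M x (-v) + hilbG M x v) / 2, fun p hp => ?_, fun x hx v hv => ?_,
    fun x hx v => ?_⟩, fun o b p q s hF => ?_⟩
  · exact ((((hilb_cont h hp.1 (-p.2)).comp_of_eq (f := fun p : P × P => (p.1, -p.2))
      (by fun_prop) rfl).add (hilb_cont h hp.1 p.2)).div_const 2).continuousWithinAt
  · exact half_pos (add_pos (hilb_pos h hb hx (neg_ne_zero.2 hv)) (hilb_pos h hb hx hv))
  · rcases eq_or_ne v 0 with rfl | hv
    · simp [hilbG, h.self hx]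
    have h1 := ((((hasDerivAt_mul_const (x := (0 : ℝ)) (hilbG M x (-v))).const_add 1).log
      (by simp)).sub (((hasDerivAt_mul_const (hilbG M x v)).const_sub 1).log (by simp))).div_const 2
    have h2 := h1.tendsto_slope_zero_right
    simp only [zero_mul, add_zero, sub_zero, div_one, sub_neg_eq_add, zero_add, Pi.sub_apply,
      Real.log_one, zero_div, smul_eq_mul] at h2
    refine h2.congr' ?_
    have h3 : ContinuousAt (fun t : ℝ => t * hilbG M x v) 0 := by fun_prop
    filter_upwards [self_mem_nhdsWithin, mem_nhdsWithin_of_mem_nhds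
      (h3.eventually (gt_mem_nhds (by simp : (0 : ℝ) * hilbG M x v < 1)))] with t t0 t1
    rw [(hilb_d h hb H hx hv t0 t1).2, div_eq_inv_mul _ t]
  · obtain ⟨v, hv, hw⟩ : ∃ v : P, v ≠ 0 ∧ wed v b = 0 := by
      rcases eq_or_ne b 0 with rfl | e
      · exact ⟨(1, 0), by simp, by simp [wed]⟩
      · exact ⟨b, e, by simp [wed, mul_comm]⟩
    have p0 := hilb_pos h hb hF.mem hv
    have m0 := hilb_pos h hb hF.mem (neg_ne_zero.2 hv)
    have d0 := hF.det
    set C := √(bf p q s v v) / (p * s - q ^ 2) / hilbG M o v with hC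
    have C0 : 0 ≤ C := by positivity
    have e0 := Real.exp_pos (-(2 * C + 1))
    have e1 : Real.exp (-(2 * C + 1)) < 1 := Real.exp_lt_one_iff.2 (by linarith)
    set t := (1 - Real.exp (-(2 * C + 1))) / hilbG M o v with ht
    have t0 : 0 < t := div_pos (by linarith) p0
    have t1 : t * hilbG M o v = 1 - Real.exp (-(2 * C + 1)) := div_mul_cancel₀ _ p0.ne'
    obtain ⟨h1, h2⟩ := hilb_d h hb H hF.mem hv t0 (by linarith)
    have h3 := Real.log_nonneg (le_add_of_nonneg_right (mul_pos t0 m0).le)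
    rw [hF.eq o hF.mem _ h1, t1, sub_sub_cancel, Real.log_exp, ch, ch, ell_line, ell_self, hw,
      show (1 : ℝ)⁻¹ • (o - o) - (1 + t * 0)⁻¹ • (o + t • v - o) = (-t) • v by simp,
      bf_smul_smul, neg_sq, Real.sqrt_mul (sq_nonneg t), Real.sqrt_sq t0.le] at h2
    have h4 : t * √(bf p q s v v) / (p * s - q ^ 2) = (t * hilbG M o v) * C := by
      rw [hC]; field_simp
    rw [h4, t1] at h2
    nlinarith

end Pool.Agent.P.MP_874adf_gt.Fs
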