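import Pool.Agent.P.MP_874adf_gt.Fs.Ident

/-! The projective invariant of a Riemannian projective metric. -/

set_option autoImplicit false

namespace Pool.Agent.P.MP_874adf_gt.Fs

open Set Filter Topology Metric

lemma inv_half {f f1 f12 : ℝ → ℝ → ℝ} {ρ h : ℝ} (h0 : 0 < h) (hρ : h < ρ)
    (h1 : ∀ s t, |s| < ρ → |t| < ρ → HasDerivAt (fun s => f s t) (f1 s t) s)
    (h12 : ∀ s t, |s| < ρ → |t| < ρ → HasDerivAt (fun t => f1 s t) (f12 s t) t) :
    ∃ s ∈ Ioo 0 h, ∃ t ∈ Ioo 0 h, f h h - f h 0 - f 0 h + f 0 0 = h ^ 2 * f12 s t := by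
  have e : ∀ x ∈ Icc 0 h, |x| < ρ := fun x hx => by
    rw [abs_of_nonneg hx.1]
    exact hx.2.trans_lt hρ
  have a1 : ∀ x ∈ Icc 0 h, HasDerivAt (fun s => f s h - f s 0) (f1 x h - f1 x 0) x := fun x hx =>
    (h1 x h (e x hx) (e h ⟨h0.le, le_rfl⟩)).sub (h1 x 0 (e x hx) (e 0 ⟨le_rfl, h0.le⟩))
  obtain ⟨s, hs, hs'⟩ := exists_hasDerivAt_eq_slope _ _ h0
    (fun x hx => (a1 x hx).continuousAt.continuousWithinAt)
    fun x hx => a1 x (Ioo_subset_Icc_self hx)
  have a2 : ∀ x ∈ Icc 0 h, HasDerivAt (fun t => f1 s t) (f12 s x) x := fun x hx =>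
    h12 s x (e s (Ioo_subset_Icc_self hs)) (e x hx)
  obtain ⟨t, ht, ht'⟩ := exists_hasDerivAt_eq_slope _ _ h0
    (fun x hx => (a2 x hx).continuousAt.continuousWithinAt)
    fun x hx => a2 x (Ioo_subset_Icc_self hx)
  refine ⟨s, hs, t, ht, ?_⟩
  rw [ht', hs', sub_zero]
  field_simp
  ring

/-- symmetry of mixed derivatives -/
lemma inv_clair {f f1 f2 f12 f21 : ℝ → ℝ → ℝ} {ρ : ℝ} (hρ : 0 < ρ)
    (h1 : ∀ s t, |s| < ρ → |t| < ρ → HasDerivAt (fun s => f s t) (f1 s t) s)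
    (h12 : ∀ s t, |s| < ρ → |t| < ρ → HasDerivAt (fun t => f1 s t) (f12 s t) t)
    (h2 : ∀ t s, |t| < ρ → |s| < ρ → HasDerivAt (fun t => f s t) (f2 t s) t)
    (h21 : ∀ t s, |t| < ρ → |s| < ρ → HasDerivAt (fun s => f2 t s) (f21 t s) s)
    (c12 : ContinuousAt (fun z : ℝ × ℝ => f12 z.1 z.2) (0, 0))
    (c21 : ContinuousAt (fun z : ℝ × ℝ => f21 z.1 z.2) (0, 0)) : f12 0 0 = f21 0 0 := by
  refine eq_of_forall_dist_le fun ε hε => ?_
  obtain ⟨δ₁, hδ₁, a1⟩ := Metric.continuousAt_iff.1 c12 (ε / 2) (by linarith)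
  obtain ⟨δ₂, hδ₂, a2⟩ := Metric.continuousAt_iff.1 c21 (ε / 2) (by linarith)
  obtain ⟨h, h0, hh⟩ := exists_between (lt_min hρ (lt_min hδ₁ hδ₂))
  simp only [lt_min_iff] at hh
  obtain ⟨s, hs, t, ht, e1⟩ := inv_half h0 hh.1 h1 h12
  obtain ⟨t', ht', s', hs', e2⟩ := inv_half (f := fun t s => f s t) h0 hh.1 h2 h21
  have e3 : f12 s t = f21 t' s' := by
    apply mul_left_cancel₀ (pow_pos h0 2).ne'
    linarith
  have b : ∀ x ∈ Ioo 0 h, ∀ y ∈ Ioo 0 h, dist ((x, y) : ℝ × ℝ) (0, 0) < h := by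
    intro x hx y hy
    rw [Prod.dist_eq, Real.dist_eq, Real.dist_eq, sub_zero, sub_zero, abs_of_pos hx.1,
      abs_of_pos hy.1]
    exact max_lt hx.2 hy.2
  have b1 : dist (f12 s t) (f12 0 0) < ε / 2 := a1 ((b s hs t ht).trans hh.2.1)
  have b2 : dist (f21 t' s') (f21 0 0) < ε / 2 := a2 ((b t' ht' s' hs').trans hh.2.2)
  have := dist_triangle_left (f12 0 0) (f21 0 0) (f12 s t)
  rw [← e3] at b2
  linarith

lemma inv_der {p q s : ℝ} {N : P → ℝ} (hN : IsN N) (e : ∀ v, N v ^ 2 = bf p q s v v)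
    (A Y w : P) {t : ℝ} (hz : A - (Y + t • w) ≠ 0) :
    HasDerivAt (fun t : ℝ => bf p q s (A - (Y + t • w)) w / N (A - (Y + t • w)))
      (-((p * s - q ^ 2) * wed (A - (Y + t • w)) w ^ 2 / N (A - (Y + t • w)) ^ 3)) t := by
  have e' : ∀ v, N v = √(bf p q s v v) := fun v => by rw [← e, Real.sqrt_sq (hN.nonneg v)]
  have h0 := hN.pos _ hz
  have a1 : HasDerivAt (fun t : ℝ => bf p q s (A - (Y + t • w)) w) (-bf p q s w w) t := by
    have : (fun t : ℝ => bf p q s (A - (Y + t • w)) w) =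
        fun t => bf p q s (A - Y) w - t * bf p q s w w := by
      funext t
      simp only [bf, Prod.fst_sub, Prod.snd_sub, Prod.fst_add, Prod.snd_add, Prod.smul_fst,
        Prod.smul_snd, smul_eq_mul]
      ring
    rw [this]
    simpa using ((hasDerivAt_id t).mul_const (bf p q s w w)).const_sub (bf p q s (A - Y) w)
  have a2 : HasDerivAt (fun t : ℝ => bf p q s (A - (Y + t • w)) (A - (Y + t • w)))
      (-2 * bf p q s (A - (Y + t • w)) w) t := by
    have : (fun t : ℝ => bf p q s (A - (Y + t • w)) (A - (Y + t • w))) = fun t =>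
        bf p q s (A - Y) (A - Y) - t * (2 * bf p q s (A - Y) w) + t * t * bf p q s w w := by
      funext t
      simp only [bf, Prod.fst_sub, Prod.snd_sub, Prod.fst_add, Prod.snd_add, Prod.smul_fst,
        Prod.smul_snd, smul_eq_mul]
      ring
    rw [this]
    refine ((((hasDerivAt_id t).mul_const (2 * bf p q s (A - Y) w)).const_sub
      (bf p q s (A - Y) (A - Y))).add
      (((hasDerivAt_id t).mul (hasDerivAt_id t)).mul_const (bf p q s w w))).congr_deriv ?_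
    simp only [bf, Prod.fst_sub, Prod.snd_sub, Prod.fst_add, Prod.snd_add, Prod.smul_fst,
      Prod.smul_snd, smul_eq_mul, id]
    ring
  have a3 := a2.sqrt (by rw [← e]; positivity)
  simp only [← e'] at a3
  refine (a1.div a3 h0.ne').congr_deriv ?_
  rw [← lagrange, ← e (A - _)]
  field_simp
  ring

lemma inv_grad {M W : Set P} {d F : P → P → ℝ} (hG : Grad M W d F) {p q s : ℝ} (X w : P) {O : P}
    {t : ℝ} (hy : X + t • w ∈ W) (e : ∀ v, F (X + t • w) v ^ 2 = bf p q s v v) (hO : O ∈ M)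
    (hne : X + t • w - O ≠ 0) :
    HasDerivAt (fun t : ℝ => d O (X + t • w))
      (bf p q s (X + t • w - O) w / F (X + t • w) (X + t • w - O)) t := by
  have h1 := hG _ hy p q s e O hO (sub_ne_zero.1 hne).symm w
  have h2 := HasDerivAt.comp_sub_const t t (by rwa [sub_self])
  have h3 : ∀ x : ℝ, X + t • w + (x - t) • w = X + x • w := fun x => by
    rw [sub_smul]
    abel
  simpa only [h3] using h2

lemma inv_key {M W : Set P} {d F : P → P → ℝ} (h : SD M W d F) (hG : Grad M W d F)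
    {p q s : P → ℝ} (hp : ContinuousOn p W) (hq : ContinuousOn q W) (hs : ContinuousOn s W)
    (e : ∀ x ∈ W, ∀ v, F x v ^ 2 = bf (p x) (q x) (s x) v v) {X Y : P} (hX : X ∈ W) (hY : Y ∈ W)
    (hne : X ≠ Y) :
    (p X * s X - q X ^ 2) / F X (X - Y) ^ 3 = (p Y * s Y - q Y ^ 2) / F Y (X - Y) ^ 3 := by
  set w : P := (-(X - Y).2, (X - Y).1) with hw
  have hw0 : wed (X - Y) w ≠ 0 := by
    have := bf_pos (p := 1) (q := 0) (s := 1) one_pos (by norm_num) (sub_ne_zero.2 hne)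
    refine ne_of_gt (this.trans_eq ?_)
    simp only [bf, wed, hw]
    ring
  have hz : ∀ a b : ℝ, X + a • w - (Y + b • w) ≠ 0 := fun a b h0 => by
    have : wed (X + a • w - (Y + b • w)) w = wed (X - Y) w := by
      simp only [wed, Prod.fst_sub, Prod.snd_sub, Prod.fst_add, Prod.snd_add, Prod.smul_fst,
        Prod.smul_snd, smul_eq_mul]
      ring
    rw [h0] at this
    exact hw0 (by rw [← this]; simp [wed])
  have hz' : ∀ a b : ℝ, Y + a • w - (X + b • w) ≠ 0 := fun a b h0 =>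
    hz b a (by rw [← neg_sub, h0, neg_zero])
  have hl : ∀ Z : P, Continuous fun a : ℝ => Z + a • w := fun Z => by fun_prop
  have hev : ∀ Z ∈ W, ∀ᶠ a : ℝ in 𝓝 0, Z + a • w ∈ W := fun Z hZ =>
    (hl Z).continuousAt.eventually_mem (h.openW.mem_nhds (by simpa using hZ))
  obtain ⟨ρ, hρ, hρ'⟩ := Metric.eventually_nhds_iff_ball.1 ((hev X hX).and (hev Y hY))
  simp only [mem_ball_zero_iff, Real.norm_eq_abs] at hρ'
  have hc : ∀ A ∈ W, ∀ B : P, A - B ≠ 0 → ContinuousAt (fun z : ℝ × ℝ =>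
      -((p (A + z.1 • w) * s (A + z.1 • w) - q (A + z.1 • w) ^ 2) *
        wed (A + z.1 • w - (B + z.2 • w)) w ^ 2 /
        F (A + z.1 • w) (A + z.1 • w - (B + z.2 • w)) ^ 3)) (0, 0) := by
    intro A hA B hAB
    have c1 : Continuous fun z : ℝ × ℝ => A + z.1 • w := by fun_prop
    have c2 : Continuous fun z : ℝ × ℝ => A + z.1 • w - (B + z.2 • w) := by fun_prop
    have c3 : ∀ g : P → ℝ, ContinuousOn g W →
        ContinuousAt (fun z : ℝ × ℝ => g (A + z.1 • w)) (0, 0) := fun g hg =>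
      ContinuousAt.comp_of_eq (hg.continuousAt (h.openW.mem_nhds hA)) c1.continuousAt (by simp)
    have c4 : ContinuousAt (fun z : ℝ × ℝ =>
        F (A + z.1 • w) (A + z.1 • w - (B + z.2 • w))) (0, 0) :=
      ContinuousAt.comp_of_eq (h.contAt hA (A - B)) (c1.prodMk c2).continuousAt (by simp)
    have c5 : Continuous fun z : ℝ × ℝ => wed (A + z.1 • w - (B + z.2 • w)) w :=
      wed_cont.comp (c2.prodMk continuous_const)
    refine (((((c3 p hp).mul (c3 s hs)).sub ((c3 q hq).pow 2)).mul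
      (c5.continuousAt.pow 2)).div (c4.pow 3) ?_).neg
    simpa using ((h.isN A hA).pos _ hAB).ne'
  have key := inv_clair (f := fun a b => d (Y + b • w) (X + a • w)) hρ
    (fun a b ha hb => inv_grad hG X w (hρ' a ha).1 (e _ (hρ' a ha).1) (h.sub (hρ' b hb).2) (hz a b))
    (fun a b ha _ => inv_der (h.isN _ (hρ' a ha).1) (e _ (hρ' a ha).1) _ Y w (hz a b))
    (fun b a hb ha => (inv_grad hG Y w (hρ' b hb).2 (e _ (hρ' b hb).2) (h.sub (hρ' a ha).1)
      (hz' b a)).congr_of_eventuallyEq (by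
        filter_upwards [(hl Y).continuousAt.eventually_mem (h.openW.mem_nhds (hρ' b hb).2)]
          with x hx using h.pm.symm _ (h.sub hx) _ (h.sub (hρ' a ha).1)))
    (fun b a hb _ => inv_der (h.isN _ (hρ' b hb).2) (e _ (hρ' b hb).2) _ X w (hz' b a))
    (hc X hX Y (sub_ne_zero.2 hne)) (hc Y hY X (sub_ne_zero.2 hne.symm))
  simp only [zero_smul, add_zero, neg_inj] at key
  have e1 : wed (Y - X) w ^ 2 = wed (X - Y) w ^ 2 := by
    simp only [wed, Prod.fst_sub, Prod.snd_sub]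
    ring
  rw [e1, (h.isN Y hY).sub_comm Y X, mul_div_right_comm, mul_div_right_comm] at key
  exact mul_right_cancel₀ (pow_ne_zero 2 hw0) key

theorem t_inv : S_INV := by
  intro M W d F h hG hQ
  set p : P → ℝ := fun x => F x (1, 0) ^ 2 with hp
  set s : P → ℝ := fun x => F x (0, 1) ^ 2 with hs
  set q : P → ℝ := fun x => (F x (1, 1) ^ 2 - p x - s x) / 2 with hq
  have cF : ∀ v, ContinuousOn (fun x => F x v) W := fun v x hx =>
    (ContinuousAt.comp (f := fun x : P => (x, v)) (h.contAt hx v)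
      (by fun_prop)).continuousWithinAt
  have cp : ContinuousOn p W := (cF _).pow 2
  have cs : ContinuousOn s W := (cF _).pow 2
  have cq : ContinuousOn q W := ((((cF _).pow 2).sub cp).sub cs).div_const 2
  have e : ∀ x ∈ W, ∀ v, F x v ^ 2 = bf (p x) (q x) (s x) v v := by
    intro x hx v
    obtain ⟨a, b, c, e⟩ := hQ x hx
    simp only [hp, hq, hs, e, bf]
    ring
  have hD := fun x hx => (h.isN x hx).posdef (e x hx)
  set c : P → ℝ := fun x => (p x * s x - q x ^ 2) ^ ((3 : ℕ) : ℝ)⁻¹ with hc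
  have c0 : ∀ x ∈ W, 0 < c x := fun x hx => Real.rpow_pos_of_pos (hD x hx).2 _
  have c3 : ∀ x ∈ W, c x ^ 3 = p x * s x - q x ^ 2 := fun x hx =>
    Real.rpow_inv_natCast_pow (hD x hx).2.le (by norm_num)
  have cc : ContinuousOn (fun x => c x ^ 2) W :=
    (((cp.mul cs).sub (cq.pow 2)).rpow_const fun x hx => Or.inl (hD x hx).2.ne').pow 2
  have cc' : ∀ x ∈ W, c x ^ 2 ≠ 0 := fun x hx => (pow_pos (c0 x hx) 2).ne'
  have eb : ∀ x ∈ W, ∀ v, bf (p x / c x ^ 2) (q x / c x ^ 2) (s x / c x ^ 2) v v =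
      (F x v / c x) ^ 2 := fun x hx v => by
    rw [div_pow, e x hx, bf, bf]
    ring
  refine ⟨fun x => p x / c x ^ 2, fun x => q x / c x ^ 2, fun x => s x / c x ^ 2,
    cp.div cc cc', cq.div cc cc', cs.div cc cc', fun x hx => ?_, fun X hX Y hY => ?_⟩
  · have h0 := c0 x hx
    have e1 : p x / c x ^ 2 * (s x / c x ^ 2) - (q x / c x ^ 2) ^ 2 = (c x)⁻¹ := by
      have : p x / c x ^ 2 * (s x / c x ^ 2) - (q x / c x ^ 2) ^ 2 =
          (p x * s x - q x ^ 2) / c x ^ 4 := by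
        field_simp
      rw [this, ← c3 x hx]
      field_simp
    refine ⟨div_pos (hD x hx).1 (by positivity), by rw [e1]; positivity, fun v => ?_⟩
    rw [e1, eb x hx, Real.sqrt_sq (div_nonneg ((h.isN x hx).nonneg v) h0.le)]
    field_simp
  · rw [eb X hX, eb Y hY]
    rcases eq_or_ne X Y with rfl | hne
    · rfl
    have key := inv_key h hG cp cq cs e hX hY hne
    rw [← c3 X hX, ← c3 Y hY, ← div_pow, ← div_pow] at key
    have k2 := (Odd.strictMono_pow (R := ℝ) (n := 3) (by decide)).injective key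
    rw [← inv_div (c X), ← inv_div (c Y)]
    exact congrArg (fun x => x⁻¹ ^ 2) k2

end Pool.Agent.P.MP_874adf_gt.Fs
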