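import Pool.Agent.P.MP_874adf_gt.Fs.Ident
import Pool.Agent.P.MP_874adf_gt.Main

/-! The case of a ratio strictly between zero and one. -/

set_option autoImplicit false

namespace Pool.Agent.P.MP_874adf_gt.Fs

open Set Filter Topology Metric

def lrSyn : Type := ℝ × ℝ

instance : AddCommGroup lrSyn := inferInstanceAs (AddCommGroup (ℝ × ℝ))

instance : Module ℝ lrSyn := inferInstanceAs (Module ℝ (ℝ × ℝ))

lemma lr_sc {N : P → ℝ} (n : IsN N) (sc : SC N) (x y : P) (hx : N x = 1) (hy : N y = 1)
    (ne : x ≠ y) : N (x + y) ≠ 2 := by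
  intro e
  by_cases c : wed x y = 0
  · have x0 : x ≠ 0 := by
      intro z
      rw [z, n.zero] at hx
      exact zero_ne_one hx
    have S := bf_pos (p := 1) (q := 0) (s := 1) one_pos (by norm_num) x0
    obtain ⟨t, ht⟩ : ∃ t : ℝ, y = t • x := by
      refine ⟨bf 1 0 1 x y / bf 1 0 1 x x, ?_⟩
      simp only [wed] at c
      refine Prod.ext ?_ ?_
      · rw [Prod.smul_fst, smul_eq_mul, div_mul_eq_mul_div, eq_div_iff S.ne']
        simp only [bf]
        linear_combination (-x.2) * c
      · rw [Prod.smul_snd, smul_eq_mul, div_mul_eq_mul_div, eq_div_iff S.ne']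
        simp only [bf]
        linear_combination x.1 * c
    have e1 : x + y = (1 + t) • x := by rw [ht, add_smul, one_smul]
    rw [e1, n.smul, hx, mul_one] at e
    rw [ht, n.smul, hx, mul_one] at hy
    have : t = 1 := by
      rcases (abs_eq zero_le_one).1 hy with k | k
      · exact k
      · rw [k] at e
        norm_num at e
    apply ne
    rw [ht, this, one_smul]
  · have := sc x y c
    linarith

theorem t_lr : S_LR := by
  intro N u n sc u1 ⟨r, r0, r1, h⟩
  let i1 : NormedAddCommGroup lrSyn := AddGroupNorm.toNormedAddCommGroup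
    { toFun := N
      map_zero' := n.zero
      add_le' := n.add
      neg' := n.neg
      eq_zero_of_map_eq_zero' := fun x hx => by
        by_contra c
        exact (n.pos x c).ne' hx }
  let i2 : NormedSpace ℝ lrSyn := ⟨fun t v => (n.smul t v).le⟩
  have i3 : StrictConvexSpace ℝ lrSyn :=
    StrictConvexSpace.of_norm_add_ne_two fun x y hx hy ne => lr_sc n sc x y hx hy ne
  obtain ⟨e⟩ := euclid_of_ap (E := lrSyn) (by change Module.finrank ℝ (ℝ × ℝ) = 2; simp)
    (u := u) u1 r0 r1 h
  let a : lrSyn := ((1, 0) : P)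
  let b : lrSyn := ((0, 1) : P)
  refine ⟨‖e a‖ ^ 2, inner ℝ (e a) (e b), ‖e b‖ ^ 2, fun v => ?_⟩
  have ev : (v : lrSyn) = v.1 • a + v.2 • b := by
    change v = v.1 • ((1, 0) : P) + v.2 • ((0, 1) : P)
    ext <;> simp
  have : N v = ‖v.1 • e a + v.2 • e b‖ := by
    rw [← map_smul, ← map_smul, ← map_add, e.norm_map, ← ev]
    rfl
  rw [this, norm_add_sq_real, norm_smul, norm_smul, inner_smul_left, inner_smul_right, mul_pow,
    mul_pow, Real.norm_eq_abs, Real.norm_eq_abs, sq_abs, sq_abs]
  simp only [bf, conj_trivial]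
  ring

end Pool.Agent.P.MP_874adf_gt.Fs
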