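import Pool.Agent.P.MP_874adf_gt.Fs.Ident

/-! Transport of the flat model to the Euclidean chart. -/

set_option autoImplicit false

namespace Pool.Agent.P.MP_874adf_gt.Fs

open Set Filter Topology Metric

lemma pre_seg (o b : P) {x z : P} (hx : 0 < 1 - wed x b) (hz : 0 < 1 - wed z b) {t : ℝ}
    (t0 : 0 ≤ t) (t1 : t ≤ 1) : 0 < 1 - wed (x + t • (z - x)) b ∧ ∃ τ : ℝ, 0 ≤ τ ∧ τ ≤ 1 ∧
      hc o b (x + t • (z - x)) = hc o b x + τ • (hc o b z - hc o b x) := by
  have e : 1 - wed (x + t • (z - x)) b = (1 - t) * (1 - wed x b) + t * (1 - wed z b) := by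
    simp only [wed, Prod.smul_fst, Prod.smul_snd, Prod.fst_add, Prod.snd_add, Prod.fst_sub,
      Prod.snd_sub, smul_eq_mul]
    ring
  have a1 : 0 ≤ (1 - t) * (1 - wed x b) := mul_nonneg (by linarith) hx.le
  have a2 : 0 ≤ t * (1 - wed z b) := mul_nonneg t0 hz.le
  have p : 0 < (1 - t) * (1 - wed x b) + t * (1 - wed z b) := by
    rcases t0.eq_or_lt with rfl | c
    · simpa using hx
    · have := mul_pos c hz
      linarith
  refine ⟨e ▸ p, t * (1 - wed z b) / ((1 - t) * (1 - wed x b) + t * (1 - wed z b)),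
    div_nonneg a2 p.le, (div_le_one p).2 (by linarith), ?_⟩
  simp only [hc, e]
  generalize 1 - wed x b = α at *
  generalize 1 - wed z b = β at *
  ext <;> simp only [Prod.smul_fst, Prod.smul_snd, Prod.fst_add, Prod.snd_add, Prod.fst_sub,
      Prod.snd_sub, smul_eq_mul] <;> field_simp <;> ring

lemma pre_wc (b : P) : Continuous fun y : P => 1 - wed y b := by
  unfold wed; fun_prop

lemma pre_hc_cont (o b : P) {y : P} (hy : 1 - wed y b ≠ 0) : ContinuousAt (hc o b) y :=
  continuousAt_const.add (((pre_wc b).continuousAt.inv₀ hy).smul continuousAt_id)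

lemma pre_ch_cont (o b : P) {y : P} (hy : ell o b y ≠ 0) : ContinuousAt (ch o b) y :=
  ((ell_cont o b).continuousAt.inv₀ hy).smul (by fun_prop)

lemma pre_open (o b : P) {M : Set P} (hM : IsOpen M) :
    IsOpen {y | 0 < 1 - wed y b ∧ hc o b y ∈ M} := by
  rw [isOpen_iff_mem_nhds]
  intro y hy
  exact inter_mem ((pre_wc b).continuousAt (Ioi_mem_nhds hy.1))
    (pre_hc_cont o b hy.1.ne' (hM.mem_nhds hy.2))

lemma pre_const {f : P → ℝ} {C : P} {δ : ℝ}
    (h : ∀ y ∈ ball C δ, ∀ w : P, HasDerivAt (fun t : ℝ => f (y + t • w)) 0 0) :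
    ∀ X ∈ ball C δ, f X = f C := by
  intro X hX
  have k : ∀ t ∈ Icc (0 : ℝ) 1, HasDerivAt (fun t : ℝ => f (C + t • (X - C))) 0 t := by
    intro t ht
    have m := (convex_ball C δ).add_smul_sub_mem (mem_ball_self (pos_of_mem_ball hX)) hX ht
    have h1 := h _ m (X - C)
    have h2 : HasDerivAt (fun τ : ℝ => τ - t) 1 t := (hasDerivAt_id t).sub_const t
    have h3 := HasDerivAt.comp t (h₂ := fun τ : ℝ => f (C + t • (X - C) + τ • (X - C)))
      (by rwa [sub_self]) h2
    rw [zero_mul] at h3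
    refine h3.congr_of_eventuallyEq (Eventually.of_forall fun τ => ?_)
    simp only [Function.comp]
    congr 1
    module
  have := constant_of_has_deriv_right_zero (fun t ht => (k t ht).continuousAt.continuousWithinAt)
    (fun t ht => (k t (Ico_subset_Icc_self ht)).hasDerivWithinAt) 1 ⟨zero_le_one, le_rfl⟩
  simpa using this

lemma pre_Tm (o b y w : P) : Tm o b y w = ell o b y • w - wed w b • (y - o) := by
  ext <;> simp only [Tm, wed, ell, Prod.fst_add, Prod.snd_add, Prod.smul_fst, Prod.smul_snd,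
    smul_eq_mul, Prod.fst_sub, Prod.snd_sub] <;> ring

lemma pre_quad (o b y : P) (p q s D : ℝ) (v w : P) :
    bf (bf p q s (Tm o b y (1, 0)) (Tm o b y (1, 0)) / D ^ 2)
      (bf p q s (Tm o b y (1, 0)) (Tm o b y (0, 1)) / D ^ 2)
      (bf p q s (Tm o b y (0, 1)) (Tm o b y (0, 1)) / D ^ 2) v w =
      bf p q s (Tm o b y v) (Tm o b y w) / D ^ 2 := by
  simp only [bf, Tm, wed, Prod.fst_add, Prod.snd_add, Prod.smul_fst, Prod.smul_snd,
    smul_eq_mul, Prod.fst_sub, Prod.snd_sub]
  ring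

lemma pre_Tm_ne (o b : P) {y v : P} (hy : ell o b y ≠ 0) (hv : v ≠ 0) : Tm o b y v ≠ 0 := by
  intro e
  have h1 := wed_Tm o b y v (rot 1 0 1 v)
  rw [e, wed_rot] at h1
  have h2 := bf_pos (p := 1) (q := 0) (s := 1) one_pos (by norm_num) hv
  have : wed 0 (Tm o b y (rot 1 0 1 v)) = 0 := by simp [wed]
  rw [this] at h1
  exact mul_ne_zero hy h2.ne' h1.symm

namespace Model

variable {W : Set P} {F : P → P → ℝ} {o b : P} {p q s : ℝ} (m : Model W F o b p q s 0)
include m

lemma flat {y : P} (hy : y ∈ W) (v : P) :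
    F y v = √(bf p q s (Tm o b y v) (Tm o b y v)) / ((p * s - q ^ 2) * ell o b y ^ 2) := by
  rw [m.eq y hy, Qm_eq, Dm]
  simp

lemma deriv0 {M : Set P} {d : P → P → ℝ} (gr : Grad M W d F) {y O : P} (hy : y ∈ W)
    (ly : 0 < ell o b y) (hO : O ∈ M) (lO : 0 < ell o b O) (ne : O ≠ y) (w : P) :
    HasDerivAt (fun t : ℝ => (p * s - q ^ 2) * d O (y + t • w) -
      √(bf p q s (ch o b (y + t • w) - ch o b O) (ch o b (y + t • w) - ch o b O))) 0 0 := by
  have D0 := m.det
  have g := gr y hy _ _ _ (fun v => by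
    rw [pre_quad o b y p q s ((p * s - q ^ 2) * ell o b y ^ 2), m.flat hy, div_pow,
      Real.sq_sqrt (bf_nonneg m.p0 m.det _)]) O hO ne w
  rw [pre_quad, m.flat hy] at g
  set G0 := Tm o b y (y - O) with hG0
  set G1 := ell o b O • w - wed w b • (O - o) with hG1
  set ω := wed w b with hω
  have a0 : 0 < bf p q s G0 G0 := bf_pos m.p0 m.det (pre_Tm_ne o b ly.ne' (sub_ne_zero.2 ne.symm))
  have s0 := Real.sqrt_pos.2 a0
  have e1 : ∀ t : ℝ, Tm o b (y + t • w) (y + t • w - O) = G0 + t • G1 := fun t => by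
    rw [hG0, Tm_sub, Tm_sub, ell_line, hG1]
    module
  have e2 : ∀ t : ℝ, bf p q s (G0 + t • G1) (G0 + t • G1) =
      bf p q s G0 G0 + 2 * bf p q s G0 G1 * t + bf p q s G1 G1 * t ^ 2 := fun t => by
    simp only [bf, Prod.fst_add, Prod.snd_add, Prod.smul_fst, Prod.smul_snd, smul_eq_mul]
    ring
  have e3 : ell o b y * bf p q s G0 G1 - ω * bf p q s G0 G0 =
      ell o b O * bf p q s G0 (Tm o b y w) := by
    have : ell o b y • G1 - ω • G0 = ell o b O • Tm o b y w := by
      rw [hG0, Tm_sub, hG1, pre_Tm o b y w]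
      module
    rw [bf_comm p q s G0 (Tm o b y w), ← bf_smul_left p q s (ell o b O), ← this]
    simp only [bf, Prod.fst_sub, Prod.snd_sub, Prod.smul_fst, Prod.smul_snd, smul_eq_mul]
    ring
  have d1 : HasDerivAt (fun t : ℝ => bf p q s G0 G0 + 2 * bf p q s G0 G1 * t + bf p q s G1 G1 * t ^ 2)
      (2 * bf p q s G0 G1) 0 := by
    simpa using (((hasDerivAt_id (0 : ℝ)).const_mul (2 * bf p q s G0 G1)).const_add
      (bf p q s G0 G0)).fun_add ((hasDerivAt_pow 2 (0 : ℝ)).const_mul (bf p q s G1 G1))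
  have d2 : HasDerivAt (fun t : ℝ => (ell o b y + t * ω) * ell o b O) (ω * ell o b O) 0 := by
    simpa using (((hasDerivAt_id (0 : ℝ)).mul_const ω).const_add (ell o b y)).mul_const (ell o b O)
  have d3 := (d1.sqrt (by simpa using a0.ne')).div d2 (by simpa using ⟨ly.ne', lO.ne'⟩)
  have d4 := (g.const_mul (p * s - q ^ 2)).sub d3
  have ev : ∀ᶠ t : ℝ in 𝓝 0, 0 < ell o b y + t * ω :=
    (by fun_prop : Continuous fun t : ℝ => ell o b y + t * ω).continuousAt.eventually
      (lt_mem_nhds (by simpa using ly))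
  refine (d4.congr_of_eventuallyEq ?_).congr_deriv ?_
  · filter_upwards [ev] with t ht
    have : 0 < (ell o b y + t * ω) * ell o b O := by positivity
    rw [ch_sub o b (by rw [ell_line]; exact ht.ne') lO.ne', bf_smul_smul, e1, e2, ell_line,
      Real.sqrt_mul (sq_nonneg _), Real.sqrt_sq (inv_pos.2 this).le]
    simp only [Pi.sub_apply, Pi.div_apply]
    rw [div_eq_inv_mul]
  · simp only [mul_zero, add_zero, zero_mul, ne_eq, OfNat.ofNat_ne_zero, not_false_eq_true, zero_pow]
    have e4 : bf p q s G0 (Tm o b y w) =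
        (ell o b y * bf p q s G0 G1 - ω * √(bf p q s G0 G0) ^ 2) / ell o b O := by
      rw [Real.sq_sqrt a0.le, e3]
      field_simp
    rw [e4]
    generalize √(bf p q s G0 G0) = σ at *
    generalize p * s - q ^ 2 = D at *
    field_simp
    ring

end Model

theorem t_pre : S_PRE := by
  intro M W d F sd st gr co o b p q s m
  have D0 := m.det
  have lh : ∀ y : P, 0 < 1 - wed y b → 0 < ell o b (hc o b y) := fun y hy => by
    rw [ell_hc o b hy.ne']; positivity
  refine ⟨m.p0, m.det, pre_open o b sd.pm.isOpen, ?_, pre_open o b sd.openW,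
    fun y hy => ⟨hy.1, sd.sub hy.2⟩, ?_, ?_, ?_, ?_, ?_, ?_, ?_⟩
  · rw [convex_iff_add_mem]
    intro x hx z hz u t u0 t0 ut
    obtain ⟨a1, τ, τ0, τ1, e⟩ := pre_seg o b hx.1 hz.1 t0 (by linarith)
    have : u • x + t • z = x + t • (z - x) := by
      rw [show u = 1 - t by linarith]; module
    rw [this]
    exact ⟨a1, e ▸ sd.pm.seg_mem hx.2 hz.2 τ0 τ1⟩
  · intro y hy
    have l := lh y hy.1
    have c := pre_ch_cont o b l.ne'
    rw [ContinuousAt, ch_hc o b hy.1.ne'] at c
    refine mem_closure_of_frequently_of_tendsto ?_ c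
    refine ((mem_closure_iff_frequently.1 (sd.dense hy.2)).and_eventually
      ((ell_cont o b).continuousAt.eventually (lt_mem_nhds l))).mono fun X hX => ?_
    refine ⟨by rw [wed_ch o b hX.2.ne']; exact inv_pos.2 hX.2, ?_⟩
    rw [hc_ch o b hX.2.ne']
    exact hX.1
  · intro z hz
    exact ((sd.pm.tendsto hz.1.2 hz.2.2
      ((pre_hc_cont o b hz.1.1.ne').tendsto.comp (continuous_fst.tendsto z))
      ((pre_hc_cont o b hz.2.1.ne').tendsto.comp (continuous_snd.tendsto z))).const_mul _).mono_left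
      nhdsWithin_le_nhds
  · intro x hx y hy
    rw [sd.pm.symm _ hx.2 _ hy.2]
  · intro x hx y hy ne
    refine mul_pos D0 (sd.pm.pos hx.2 hy.2 fun e => ne ?_)
    rw [← ch_hc o b hx.1.ne', e, ch_hc o b hy.1.ne']
  · intro x hx z hz t ht
    obtain ⟨-, τ, τ0, τ1, e⟩ := pre_seg o b hx.1 hz.1 ht.1 ht.2
    rw [e, ← mul_add, sd.pm.add hx.2 hz.2 τ0 τ1]
  · intro O hO C hC ne
    have ne' : hc o b C ≠ hc o b O := fun e => ne (by
      rw [← ch_hc o b hC.1.ne', e, ch_hc o b hO.1.ne'])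
    obtain ⟨δ, δ0, hδ⟩ := Metric.eventually_nhds_iff_ball.1
      (((sd.openW.eventually_mem hC.2).and ((ell_cont o b).continuousAt.eventually
        (lt_mem_nhds (lh C hC.1)))).and (isOpen_ne.eventually_mem ne'))
    have k := pre_const (C := hc o b C) (δ := δ) (f := fun X => (p * s - q ^ 2) * d (hc o b O) X -
      √(bf p q s (ch o b X - ch o b (hc o b O)) (ch o b X - ch o b (hc o b O))))
      fun y hy w => m.deriv0 gr (hδ y hy).1.1 (hδ y hy).1.2 hO.2 (lh O hO.1)
        (Ne.symm (hδ y hy).2) w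
    filter_upwards [(pre_hc_cont o b hC.1.ne').eventually (ball_mem_nhds _ δ0),
      (pre_wc b).continuousAt.eventually (lt_mem_nhds hC.1)] with X h1 h2
    have := k _ h1
    simp only [ch_hc o b h2.ne', ch_hc o b hO.1.ne', ch_hc o b hC.1.ne'] at this
    exact this
  · intro O hO
    obtain ⟨a0, a00, h⟩ := st _ hO.2
    refine ⟨(p * s - q ^ 2) * a0, by positivity, fun a a1 a2 => ?_⟩
    obtain ⟨-, B, l, r, f⟩ := h (a / (p * s - q ^ 2)) (by positivity)
      (by rwa [div_lt_iff₀' D0])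
    set O1 := hc o b O with hO1
    have lO := lh O hO.1
    rw [← hO1] at lO
    set w := (ell o b O1)⁻¹ • Tm o b O1 (B - O1) with hw
    have w0 : w ≠ 0 :=
      smul_ne_zero (inv_pos.2 lO).ne' (pre_Tm_ne o b lO.ne' (sub_ne_zero.2 f.ne))
    have Sw := bf_pos m.p0 m.det w0
    have l0 := f.l0
    have r2 : 0 < 1 - r ^ 2 := by nlinarith [f.r0, f.r1]
    set A := O1 + l • (B - O1) with hA
    refine ⟨w, l ^ 2 * ell o b B ^ 2 - r ^ 2 * ell o b A ^ 2,
      l ^ 2 * ell o b B - r ^ 2 * l * ell o b A, l ^ 2 * (1 - r ^ 2) * bf p q s w w, w0,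
      by positivity, fun C hC h1 h2 => ?_⟩
    set C1 := hc o b C with hC1
    have lC := lh C hC.1
    rw [← hC1] at lC
    have eO : O1 - o = ell o b O1 • O := by
      rw [hO1, ell_hc o b hO.1.ne', hc, add_sub_cancel_left]
    have eC : C1 - o = ell o b C1 • C := by
      rw [hC1, ell_hc o b hC.1.ne', hc, add_sub_cancel_left]
    have ew : w = B - O1 - wed (B - O1) b • O := by
      rw [hw, pre_Tm, eO, smul_sub, smul_smul, smul_smul, smul_smul, inv_mul_cancel₀ lO.ne', one_smul]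
      congr 2
      field_simp
    have eT : ∀ t : ℝ, Tm o b C1 (C1 - (O1 + t • (B - O1))) =
        ell o b C1 • (ell o b (O1 + t • (B - O1)) • (C - O) - t • w) := fun t => by
      have : O1 + t • (B - O1) - o = ell o b O1 • O + t • (B - O1) := by rw [← eO]; module
      rw [Tm_sub, eC, this, ell_line, ew]
      module
    have h3 : wed (C1 - O1) (B - O1) ≠ 0 := by
      intro e
      apply h2
      have e1 : O - C = (ell o b O1 * ell o b C1)⁻¹ • Tm o b O1 (O1 - C1) := by
        rw [← ch_sub o b lO.ne' lC.ne', hO1, hC1, ch_hc o b hO.1.ne', ch_hc o b hC.1.ne']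
      have e2 := wed_Tm o b O1 (O1 - C1) (B - O1)
      have e3 : wed (O1 - C1) (B - O1) = -wed (C1 - O1) (B - O1) := by
        simp only [wed, Prod.fst_sub, Prod.snd_sub]; ring
      rw [e3, e, neg_zero, mul_zero] at e2
      rw [← neg_sub O C, e1, hw]
      generalize Tm o b O1 (O1 - C1) = X at *
      generalize Tm o b O1 (B - O1) = Y at *
      have : wed (-((ell o b O1 * ell o b C1)⁻¹ • X)) ((ell o b O1)⁻¹ • Y) =
          -((ell o b O1 * ell o b C1)⁻¹ * (ell o b O1)⁻¹) * wed X Y := by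
        simp only [wed, Prod.fst_neg, Prod.snd_neg, Prod.smul_fst, Prod.smul_snd, smul_eq_mul]; ring
      rw [this, e2, mul_zero]
    have k := co O1 hO.2 _ B l r f C1 hC.2 (by rw [← h1]; field_simp) h3
    have eB := eT 1
    rw [one_smul, add_sub_cancel, one_smul] at eB
    rw [m.flat hC.2, m.flat hC.2, eB, eT l, ← mul_div_assoc, ← mul_div_assoc,
      div_left_inj' (by positivity)] at k
    have k2 := congrArg (· ^ 2) k
    simp only [mul_pow] at k2
    rw [Real.sq_sqrt (bf_nonneg m.p0 m.det _), Real.sq_sqrt (bf_nonneg m.p0 m.det _), bf_smul_smul,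
      bf_smul_smul, ← hA] at k2
    have k3 : l ^ 2 * bf p q s (ell o b B • (C - O) - w) (ell o b B • (C - O) - w) =
        r ^ 2 * bf p q s (ell o b A • (C - O) - l • w) (ell o b A • (C - O) - l • w) := by
      apply mul_left_cancel₀ (pow_pos lC 2).ne'
      linarith
    generalize C - O = ψ at k3 ⊢
    generalize ell o b A = α at k3 ⊢
    generalize ell o b B = β at k3 ⊢
    clear_value w
    simp only [bf, Prod.fst_sub, Prod.snd_sub, Prod.smul_fst, Prod.smul_snd, smul_eq_mul] at k3 ⊢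
    linear_combination k3

end Pool.Agent.P.MP_874adf_gt.Fs
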