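import Pool.Agent.P.MP_874adf_gt.Fs.Ident

/-! Propagation of flatness from a dense open set. -/

set_option autoImplicit false

namespace Pool.Agent.P.MP_874adf_gt.Fs

open Set Filter Topology Metric

/-- a continuous function whose symmetric second differences vanish locally is affine -/
lemma prop_schwarz {D : ℝ → ℝ} (hc : ContinuousOn D (Icc 0 1)) (h0 : D 0 = 0)
    (hs : ∀ t ∈ Ioo (0 : ℝ) 1, ∀ᶠ h in 𝓝[>] (0 : ℝ), D (t + h) - D t = D t - D (t - h)) :
    ∀ t ∈ Icc (0 : ℝ) 1, D t = t * D 1 := by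
  have key : ∀ σ : ℝ, ∀ t ∈ Icc (0 : ℝ) 1, σ * (D t - t * D 1) ≤ 0 := by
    intro σ t ht
    by_contra hp
    rw [not_le] at hp
    set ε := σ * (D t - t * D 1) with hε
    set G : ℝ → ℝ := fun x => σ * (D x - x * D 1) + ε * (x * (x - 1)) with hG
    have cG : ContinuousOn G (Icc 0 1) :=
      (continuousOn_const.mul (hc.sub (by fun_prop))).add (by fun_prop)
    obtain ⟨m, hm, hmax⟩ := isCompact_Icc.exists_isMaxOn ⟨t, ht⟩ cG
    have g1 : 0 < G t := by
      simp only [hG, ← hε]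
      nlinarith [ht.1, ht.2, sq_nonneg (t - 1 / 2), mul_pos hp hp]
    have g2 : 0 < G m := g1.trans_le (hmax ht)
    have m0 : m ∈ Ioo (0 : ℝ) 1 := by
      refine ⟨lt_of_le_of_ne hm.1 ?_, lt_of_le_of_ne hm.2 ?_⟩
      · rintro rfl
        simp [hG, h0] at g2
      · rintro rfl
        simp [hG] at g2
    obtain ⟨h, e, h1, h2⟩ := ((hs m m0).and
      (Ioo_mem_nhdsGT (lt_min m0.1 (sub_pos.2 m0.2)))).exists
    rw [lt_min_iff] at h2
    have a1 := hmax (a := m + h) ⟨by linarith [m0.1], by linarith [h2.2]⟩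
    have a2 := hmax (a := m - h) ⟨by linarith [h2.1], by linarith [m0.2]⟩
    simp only [mem_ofPred_eq, hG] at a1 a2
    have e' : D (m + h) = 2 * D m - D (m - h) := by linarith
    rw [e'] at a1
    nlinarith [mul_pos hp (mul_pos h1 h1)]
  intro t ht
  linarith [key 1 t ht, key (-1) t ht]

namespace Pre

variable {U V : Set P} {e : P → P → ℝ} {p q s : ℝ} (h : Pre U V e p q s)
include h

lemma self {x : P} (hx : x ∈ U) : e x x = 0 := by
  have := h.add x hx x hx 0 ⟨le_rfl, zero_le_one⟩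
  simp only [zero_smul, add_zero] at this
  linarith

lemma contAt {x y : P} (hx : x ∈ U) (hy : y ∈ U) : ContinuousAt (e x) y :=
  ContinuousAt.comp (g := fun z : P × P => e z.1 z.2) (f := fun y => (x, y))
    (h.cont.continuousAt ((h.openU.prod h.openU).mem_nhds ⟨hx, hy⟩)) (by fun_prop)

lemma mem {O v : P} (hO : O ∈ U) {a b : ℝ} (hb : O + b • v ∈ U) (a0 : 0 ≤ a) (ab : a ≤ b) :
    O + a • v ∈ U := by
  rcases eq_or_lt_of_le (a0.trans ab) with c | c
  · have : a = 0 := le_antisymm (c ▸ ab) a0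
    simpa [this] using hO
  have := h.conv.add_smul_sub_mem hO hb (t := a / b) ⟨by positivity, (div_le_one c).2 ab⟩
  rwa [add_sub_cancel_left, smul_smul, div_mul_cancel₀ _ c.ne'] at this

lemma radd {O v : P} (hO : O ∈ U) {a b : ℝ} (hb : O + b • v ∈ U) (a0 : 0 ≤ a) (ab : a ≤ b) :
    e O (O + a • v) + e (O + a • v) (O + b • v) = e O (O + b • v) := by
  rcases eq_or_lt_of_le (a0.trans ab) with c | c
  · have : a = 0 := le_antisymm (c ▸ ab) a0
    simp [this, h.self hO]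
  have := h.add O hO _ hb (a / b) ⟨by positivity, (div_le_one c).2 ab⟩
  rwa [add_sub_cancel_left, smul_smul, div_mul_cancel₀ _ c.ne'] at this

lemma mono {O v : P} (hO : O ∈ U) (hv : v ≠ 0) {a b : ℝ} (hb : O + b • v ∈ U) (a0 : 0 ≤ a)
    (ab : a < b) : e O (O + a • v) < e O (O + b • v) := by
  have := h.radd hO hb a0 ab.le
  have h1 := h.pos _ (h.mem hO hb a0 ab.le) _ hb (fun c => by
    have : (b - a) • v = 0 := by linear_combination (norm := module) -c
    rcases smul_eq_zero.1 this with c | c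
    · linarith
    · exact hv c)
  linarith

lemma rcont {O v : P} (hO : O ∈ U) {b : ℝ} (hb : O + b • v ∈ U) :
    ContinuousOn (fun t : ℝ => e O (O + t • v)) (Icc 0 b) := fun t ht =>
  (ContinuousAt.comp (g := e O) (f := fun t : ℝ => O + t • v)
    (h.contAt hO (h.mem hO hb ht.1 ht.2)) (by fun_prop)).continuousWithinAt

/-- near a point the levels fill an interval -/
lemma levels {O X : P} (hO : O ∈ U) (hX : X ∈ U) (hne : X ≠ O) {N : Set P} (hN : N ∈ 𝓝 X) :
    ∀ᶠ c in 𝓝 (e O X), ∃ Y ∈ N, e O Y = c := by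
  set v := X - O with hv
  have v0 : v ≠ 0 := sub_ne_zero.2 hne
  have eX : O + (1 : ℝ) • v = X := by rw [hv]; module
  have c : Tendsto (fun t : ℝ => O + t • v) (𝓝 1) (𝓝 X) := by
    rw [← eX]
    exact (by fun_prop : Continuous fun t : ℝ => O + t • v).tendsto 1
  obtain ⟨δ, δ0, hδ⟩ := Metric.eventually_nhds_iff_ball.1
    (c.eventually (inter_mem hN (h.openU.mem_nhds hX)))
  set η := min (δ / 2) (1 / 2) with hη
  have η0 : 0 < η := by positivity
  have η1 : η ≤ δ / 2 := min_le_left _ _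
  have η2 : η ≤ 1 / 2 := min_le_right _ _
  have inb : ∀ t ∈ Icc (1 - η) (1 + η), t ∈ ball (1 : ℝ) δ := fun t ht => by
    rw [mem_ball, Real.dist_eq, abs_lt]
    constructor <;> linarith [ht.1, ht.2]
  have m2 : O + (1 + η) • v ∈ U := (hδ _ (inb _ ⟨by linarith, le_rfl⟩)).2
  have l1 := h.mono hO v0 (b := 1) (a := 1 - η) (by rwa [eX]) (by linarith) (by linarith)
  have l2 := h.mono hO v0 m2 zero_le_one (by linarith)
  rw [eX] at l1 l2
  have iv := intermediate_value_Icc (a := 1 - η) (b := 1 + η) (by linarith)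
    ((h.rcont hO m2).mono (Icc_subset_Icc_left (by linarith)))
  filter_upwards [Icc_mem_nhds l1 l2] with c hc
  obtain ⟨t, ht, e1⟩ := iv hc
  exact ⟨_, (hδ _ (inb t ht)).1, e1⟩

/-- moving along the Euclidean circle -/
lemma slide {O C : P} (hO : O ∈ U) (hC : C ∈ V) (hne : C ≠ O) (z : P) :
    ∀ᶠ ε : ℝ in 𝓝[>] 0, ∃ κ > (0 : ℝ), O + κ • (C - O + ε • z) ∈ V ∧
      e O (O + κ • (C - O + ε • z)) = e O C ∧
      bf p q s (κ • (C - O + ε • z)) (κ • (C - O + ε • z)) = bf p q s (C - O) (C - O) := by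
  set ψ := C - O with hψ
  have S0 : 0 < bf p q s ψ ψ := bf_pos h.p0 h.det (sub_ne_zero.2 hne)
  have c1 : Continuous fun ε : ℝ => bf p q s (ψ + ε • z) (ψ + ε • z) :=
    (bf_cont p q s).comp (f := fun ε : ℝ => (ψ + ε • z, ψ + ε • z)) (by fun_prop)
  have t1 : Tendsto (fun ε : ℝ => bf p q s (ψ + ε • z) (ψ + ε • z)) (𝓝 0) (𝓝 (bf p q s ψ ψ)) := by
    simpa using c1.tendsto 0
  set κ : ℝ → ℝ := fun ε => √(bf p q s ψ ψ / bf p q s (ψ + ε • z) (ψ + ε • z)) with hκ
  have t2 : Tendsto κ (𝓝 0) (𝓝 1) := by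
    have := (tendsto_const_nhds (x := bf p q s ψ ψ)).div t1 S0.ne'
    rw [div_self S0.ne'] at this
    simpa using this.sqrt
  have t3 : Tendsto (fun ε : ℝ => O + κ ε • (ψ + ε • z)) (𝓝 0) (𝓝 C) := by
    have t : Tendsto (fun ε : ℝ => ψ + ε • z) (𝓝 0) (𝓝 ψ) := by
      simpa using (by fun_prop : Continuous fun ε : ℝ => ψ + ε • z).tendsto 0
    have := (t2.smul t).const_add O
    rwa [one_smul, hψ, add_sub_cancel] at this
  refine Eventually.filter_mono nhdsWithin_le_nhds ?_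
  filter_upwards [t1.eventually (lt_mem_nhds S0), t3.eventually (h.openV.mem_nhds hC),
    t3.eventually (h.lc O hO C hC hne)] with ε h1 h2 h3
  have e1 : bf p q s (κ ε • (ψ + ε • z)) (κ ε • (ψ + ε • z)) = bf p q s ψ ψ := by
    rw [bf_smul_smul, hκ, Real.sq_sqrt (by positivity)]
    field_simp
  refine ⟨κ ε, Real.sqrt_pos.2 (by positivity), h2, ?_, e1⟩
  rw [add_sub_cancel_left, e1] at h3
  linarith

lemma stepA {O : P} (hO : O ∈ U) {a : ℝ} (ha : 0 < a) {w : P} {c2 c1 c0 : ℝ} (w0 : w ≠ 0)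
    (con : ∀ C ∈ V, e O C = a → wed (C - O) w ≠ 0 →
      c2 * bf p q s (C - O) (C - O) - 2 * c1 * bf p q s (C - O) w + c0 = 0) :
    ∀ C ∈ V, e O C = a → c2 * bf p q s (C - O) (C - O) + c0 = 0 := by
  have Sw := bf_pos h.p0 h.det w0
  have ne : ∀ C ∈ V, e O C = a → C ≠ O := by
    rintro C - h1 rfl
    rw [h.self hO] at h1
    linarith
  have gen : ∀ C ∈ V, e O C = a → wed (C - O) w ≠ 0 → c2 * bf p q s (C - O) (C - O) + c0 = 0 := by
    intro C hC h1 h2
    obtain ⟨ε, ⟨κ, κ0, m, l, e1⟩, ε0⟩ := ((h.slide hO hC (ne C hC h1) w).and self_mem_nhdsWithin).exists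
    have ε0 : 0 < ε := ε0
    set ψ := C - O with hψ
    have e2 : wed (κ • (ψ + ε • w)) w = κ * wed ψ w := by
      simp only [wed, Prod.smul_fst, Prod.smul_snd, Prod.fst_add, Prod.snd_add, smul_eq_mul]; ring
    have k1 := con C hC h1 h2
    have k2 := con _ m (l.trans h1) (by rw [add_sub_cancel_left, e2]; positivity)
    rw [add_sub_cancel_left, e1] at k2
    by_contra hc
    have c1' : c1 ≠ 0 := by
      rintro rfl
      apply hc
      linarith
    have e3 : bf p q s (κ • (ψ + ε • w)) w = bf p q s ψ w := by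
      apply mul_left_cancel₀ c1'
      linarith
    have l1 := lagrange p q s ψ w
    have l2 := lagrange p q s (κ • (ψ + ε • w)) w
    rw [e1, e3, l1, e2, mul_pow] at l2
    have k3 : κ ^ 2 = 1 := by
      have := mul_left_cancel₀ h.det.ne' l2
      have h3 : wed ψ w ^ 2 ≠ 0 := by positivity
      apply mul_right_cancel₀ h3
      linarith
    have k4 : κ = 1 := by nlinarith
    rw [k4, one_smul, bf_add_left, bf_smul_left] at e3
    nlinarith [mul_pos ε0 Sw]
  intro C hC h1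
  by_cases h2 : wed (C - O) w = 0
  swap
  · exact gen C hC h1 h2
  obtain ⟨ε, ⟨κ, κ0, m, l, e1⟩, ε0⟩ :=
    ((h.slide hO hC (ne C hC h1) (rot p q s w)).and self_mem_nhdsWithin).exists
  have ε0 : 0 < ε := ε0
  have := gen _ m (l.trans h1) (by
    have e2 : wed (κ • (C - O + ε • rot p q s w)) w = κ * (wed (C - O) w - ε * wed w (rot p q s w)) := by
      simp only [wed, Prod.smul_fst, Prod.smul_snd, Prod.fst_add, Prod.snd_add, smul_eq_mul]; ring
    rw [add_sub_cancel_left, e2, h2, wed_rot, zero_sub]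
    have : 0 < ε * bf p q s w w := by positivity
    exact mul_ne_zero κ0.ne' (by linarith))
  rwa [add_sub_cancel_left, e1] at this

lemma stepB {O : P} (hO : O ∈ U) : ∃ a0 > (0 : ℝ), ∀ X ∈ U, ∀ Y ∈ U, X ≠ O → e O X < a0 →
    e O X = e O Y → bf p q s (X - O) (X - O) = bf p q s (Y - O) (Y - O) := by
  obtain ⟨a0, a00, con⟩ := h.con O hO
  have A : ∀ C ∈ V, ∀ C' ∈ V, 0 < e O C → e O C < a0 → e O C = e O C' →
      bf p q s (C - O) (C - O) = bf p q s (C' - O) (C' - O) := by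
    intro C hC C' hC' h1 h2 h3
    obtain ⟨w, c2, c1, c0, w0, c00, k⟩ := con _ h1 h2
    have k1 := h.stepA hO h1 w0 k C hC rfl
    have k2 := h.stepA hO h1 w0 k C' hC' h3.symm
    have : c2 ≠ 0 := by
      rintro rfl
      apply c00
      linarith
    apply mul_left_cancel₀ this
    linarith
  refine ⟨a0, a00, fun X hX Y hY ne h1 h2 => ?_⟩
  have p1 := h.pos O hO X hX ne.symm
  have neY : Y ≠ O := by
    rintro rfl
    rw [h.self hY] at h2
    linarith
  have cS : Continuous fun Z : P => bf p q s (Z - O) (Z - O) :=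
    (bf_cont p q s).comp (f := fun Z : P => (Z - O, Z - O)) (by fun_prop)
  by_contra hne
  obtain ⟨I, J, oI, oJ, mI, mJ, dj⟩ := t2_separation hne
  have N1 : {Z : P | bf p q s (Z - O) (Z - O) ∈ I} ∈ 𝓝 X := cS.continuousAt (oI.mem_nhds mI)
  have oN2 : IsOpen ({Z : P | bf p q s (Z - O) (Z - O) ∈ J} ∩ U) := (oJ.preimage cS).inter h.openU
  have L2 := h.levels hO hY neY (oN2.mem_nhds ⟨mJ, hY⟩)
  rw [← h2] at L2
  have ev : ∀ᶠ Z in 𝓝 X, bf p q s (Z - O) (Z - O) ∈ I ∧ Z ≠ O ∧ ∀ᶠ c in 𝓝 (e O Z),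
      (0 < c ∧ c < a0) ∧ ∃ Y ∈ {Z : P | bf p q s (Z - O) (Z - O) ∈ J} ∩ U, e O Y = c := by
    have io : ∀ᶠ c in 𝓝 (e O X), 0 < c ∧ c < a0 := Ioo_mem_nhds p1 h1
    filter_upwards [N1, isOpen_ne.mem_nhds ne, (h.contAt hO hX).eventually
      ((io.and L2).eventually_nhds)] with Z a1 a2 a3
    exact ⟨a1, a2, a3⟩
  obtain ⟨C1, ⟨i1, n1, e1⟩, v1⟩ :=
    (ev.and_frequently (mem_closure_iff_frequently.1 (h.dense hX))).exists
  have L1 := h.levels hO (h.sub v1) n1 (N := {Z : P | bf p q s (Z - O) (Z - O) ∈ I} ∩ V)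
    (((oI.preimage cS).inter h.openV).mem_nhds ⟨i1, v1⟩)
  have L3 := (L1.and e1).eventually_nhds
  obtain ⟨-, Y1, ⟨j1, u1⟩, y1⟩ := e1.self_of_nhds
  rw [← y1] at L3
  obtain ⟨C2, ⟨⟨⟨C, ⟨i, v⟩, ec⟩, ⟨b0, b1⟩, -⟩, j2⟩, v2⟩ :=
    ((((h.contAt hO u1).eventually (L3.mono fun c hc => hc.self_of_nhds)).and
      ((oJ.preimage cS).mem_nhds j1)).and_frequently
        (mem_closure_iff_frequently.1 (h.dense u1))).exists
  have := A C v C2 v2 (ec ▸ b0) (ec ▸ b1) ec
  exact disjoint_left.1 dj (show bf p q s (C - O) (C - O) ∈ I from i) (this ▸ j2)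

lemma stepC {O v : P} (hO : O ∈ U) (hv : v ≠ 0) :
    ∀ᶠ t : ℝ in 𝓝[>] 0, e O (O + t • v) = e O (O + t • (-v)) := by
  obtain ⟨a0, a00, B⟩ := h.stepB hO
  have ev : ∀ w : P, ∀ᶠ t : ℝ in 𝓝 0, O + t • w ∈ U ∧ e O (O + t • w) < a0 := by
    intro w
    have c : Tendsto (fun t : ℝ => O + t • w) (𝓝 0) (𝓝 O) := by
      simpa using (by fun_prop : Continuous fun t : ℝ => O + t • w).tendsto 0
    have := (h.contAt hO hO).tendsto.comp c
    rw [h.self hO] at this
    exact (c.eventually (h.openU.mem_nhds hO)).and (this.eventually (gt_mem_nhds a00))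
  have key : ∀ w : P, w ≠ 0 → ∀ t : ℝ, 0 < t → O + t • w ∈ U → O + t • (-w) ∈ U →
      e O (O + t • w) < a0 → ¬ e O (O + t • w) < e O (O + t • (-w)) := by
    intro w w0 t t0 m1 m2 l1 l2
    have ne : O + t • w ≠ O := by simpa using ⟨t0.ne', w0⟩
    have p1 := h.pos O hO _ m1 ne.symm
    obtain ⟨t', ht', e1⟩ := intermediate_value_Icc t0.le (h.rcont hO m2)
      (show e O (O + t • w) ∈ _ from ⟨by simp only [zero_smul, add_zero, h.self hO]; exact p1.le, l2.le⟩)
    have := B _ m1 _ (h.mem hO m2 ht'.1 ht'.2) ne l1 e1.symm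
    rw [add_sub_cancel_left, add_sub_cancel_left, smul_neg, ← neg_smul, bf_smul_smul, bf_smul_smul,
      neg_sq] at this
    have e2 := mul_right_cancel₀ (bf_pos h.p0 h.det w0).ne' this
    have e3 : t' = t := by nlinarith [ht'.1, ht'.2]
    rw [e3] at e1
    simp only at e1
    linarith
  filter_upwards [nhdsWithin_le_nhds (ev v), nhdsWithin_le_nhds (ev (-v)), self_mem_nhdsWithin]
    with t a1 a2 t0
  have k1 := key v hv t t0 a1.1 a2.1 a1.2
  have k2 := key (-v) (neg_ne_zero.2 hv) t t0 a2.1 (by simpa using a1.1) a2.2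
  rw [neg_neg] at k2
  exact le_antisymm (not_lt.1 k2) (not_lt.1 k1)

lemma stepD {C X : P} (hC : C ∈ V) (hX : X ∈ U) : e C X = √(bf p q s (C - X) (C - X)) := by
  have mC := h.sub hC
  rcases eq_or_ne X C with rfl | ne
  · simp [h.self hX, bf]
  set v := X - C with hv
  have v0 : v ≠ 0 := sub_ne_zero.2 ne
  have eX : C + (1 : ℝ) • v = X := by rw [hv]; module
  have m1 : C + (1 : ℝ) • v ∈ U := by rwa [eX]
  have aff := prop_schwarz (D := fun t => e C (C + t • v)) (h.rcont mC m1) (by simp [h.self mC]) (by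
    intro t ht
    have mt := h.mem mC m1 ht.1.le ht.2.le
    filter_upwards [h.stepC mt v0, Ioo_mem_nhdsGT (lt_min ht.1 (sub_pos.2 ht.2))] with k e1 hk
    have k0 := hk.1
    have k1 := (lt_min_iff.1 hk.2).1
    have k2 := (lt_min_iff.1 hk.2).2
    have mp := h.mem mC m1 (a := t + k) (by linarith [ht.1]) (by linarith)
    have a1 := h.radd mC mp ht.1.le (by linarith)
    have a2 := h.radd mC mt (a := t - k) (by linarith) (by linarith)
    rw [show C + t • v + k • v = C + (t + k) • v by module,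
      show C + t • v + k • (-v) = C + (t - k) • v by module,
      h.symm _ mt _ (h.mem mC mt (a := t - k) (by linarith) (by linarith))] at e1
    linarith)
  simp only [eX] at aff
  set E := √(bf p q s v v) with hE
  have c : Tendsto (fun t : ℝ => C + t • v) (𝓝 0) (𝓝 C) := by
    simpa using (by fun_prop : Continuous fun t : ℝ => C + t • v).tendsto 0
  obtain ⟨t, tV, t0, t1⟩ := (((c.eventually (h.openV.mem_nhds hC)).filter_mono
    (nhdsWithin_le_nhds (s := Ioi 0))).and (Ioo_mem_nhdsGT one_pos)).exists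
  have ne' : C + t • v ≠ C := by simpa using ⟨t0.ne', v0⟩
  have c' : Tendsto (fun t : ℝ => C + t • v) (𝓝 t) (𝓝 (C + t • v)) :=
    (by fun_prop : Continuous fun t : ℝ => C + t • v).tendsto t
  obtain ⟨t', e1, t2, t3⟩ := (((c'.eventually (h.lc C mC _ tV ne')).filter_mono
    (nhdsWithin_le_nhds (s := Ioi t))).and (Ioo_mem_nhdsGT t1)).exists
  simp only [add_sub_cancel_left, bf_smul_smul, Real.sqrt_mul (sq_nonneg _), ← hE,
    Real.sqrt_sq t0.le, Real.sqrt_sq (t0.trans t2).le] at e1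
  rw [aff t ⟨t0.le, t1.le⟩, aff t' ⟨(t0.trans t2).le, t3.le⟩] at e1
  have e2 : e C X = E := by
    apply mul_left_cancel₀ (sub_pos.2 t2).ne'
    linarith
  rw [e2, hE, show C - X = (-1 : ℝ) • v by rw [hv]; module, bf_smul_smul]
  simp

end Pre

theorem t_prop : S_PROP := by
  intro U V e p q s h x hx y hy
  have c1 : ContinuousAt (fun z => e y z - √(bf p q s (z - y) (z - y))) x :=
    (h.contAt hy hx).sub (((bf_cont p q s).comp (f := fun Z : P => (Z - y, Z - y))
      (by fun_prop)).sqrt.continuousAt)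
  have fr : ∃ᶠ z in 𝓝 x, e y z - √(bf p q s (z - y) (z - y)) = 0 :=
    (mem_closure_iff_frequently.1 (h.dense hx)).mono fun z hz => by
      rw [h.symm y hy z (h.sub hz), h.stepD hz hy, sub_self]
  have := tendsto_nhds_unique_of_frequently_eq c1.tendsto tendsto_const_nhds fr
  rw [h.symm x hx y hy]
  linarith

end Pool.Agent.P.MP_874adf_gt.Fs
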