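import Pool.Agent.P.MP_874adf_gt.Fs.Ident

/-! The great spheres of the projective plane are not Apollonius sets. -/

namespace Pool.Agent.P.MP_874adf_gt.Fs

open Set Filter Topology Metric

theorem rp2_main {Q : Type} [MetricSpace Q] {L : ℝ} (hL : 0 < L)
    (h : ∀ O X : Q, ∃ γ : ℝ → Q, O ∈ range γ ∧ X ∈ range γ ∧
      ∀ s t : ℝ, dist (γ s) (γ t) = ‖((s - t : ℝ) : AddCircle L)‖) (O : Q) :
    {X | dist O X = L / 2}.Nonempty ∧ ∀ A B, ∀ r : ℝ, A ≠ B → 0 < r →
      {X | dist O X = L / 2} ≠ {C | dist A C / dist C B = r} := by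
  have le : ∀ x : ℝ, ‖(x : AddCircle L)‖ ≤ |x| := fun x => QuotientAddGroup.norm_mk_le_norm
  refine ⟨?_, fun A B r AB r0 e => ?_⟩
  · obtain ⟨γ, ⟨s, rfl⟩, -, hγ⟩ := h O O
    refine ⟨γ (s - L / 2), ?_⟩
    rw [mem_ofPred, hγ, sub_sub_cancel, AddCircle.norm_half_period_eq, abs_of_pos hL]
  have lt : ∀ X, dist A X / dist X B = 0 → X ∈ ball O (L / 2) := fun X hX => by
    have : X ∉ {X | dist O X = L / 2} := e ▸ fun h => r0.ne (hX.symm.trans h)
    obtain ⟨γ, ⟨s, rfl⟩, ⟨t, rfl⟩, hγ⟩ := h O X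
    refine mem_ball'.2 (lt_of_le_of_ne ?_ this)
    simpa only [hγ, abs_of_pos hL] using AddCircle.norm_le_half_period L hL.ne'
  have pc : IsPreconnected (ball O (L / 2)) := by
    refine isPreconnected_of_forall O fun X hX => ?_
    obtain ⟨γ, ⟨s, rfl⟩, ⟨t, rfl⟩, hγ⟩ := h O X
    have lip : ∀ s t, dist (γ s) (γ t) ≤ dist s t := fun s t => (hγ s t).trans_le (le _)
    refine ⟨γ '' ball s (L / 2), ?_, mem_image_of_mem _ (mem_ball_self (half_pos hL)),
      ⟨t + round (L⁻¹ * (s - t)) * L, ?_, dist_eq_zero.1 ?_⟩, (convex_ball _ _).isPreconnected.image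
        _ (LipschitzWith.mk_one lip).continuous.continuousOn⟩
    · rintro _ ⟨u, hu, rfl⟩
      exact (lip _ _).trans_lt hu
    · rw [mem_ball', hγ, AddCircle.norm_eq] at hX
      rwa [mem_ball', Real.dist_eq, ← sub_sub]
    · rw [hγ, add_sub_cancel_left, norm_eq_zero, ← zsmul_eq_mul, AddCircle.coe_zsmul,
        AddCircle.coe_period, smul_zero]
  have d0 := dist_pos.2 AB
  obtain ⟨C, hC, hC'⟩ := pc.intermediate_value (f := fun C => dist A C - r * dist C B)
    (lt A (by simp)) (lt B (by simp)) (by fun_prop)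
    (show (0 : ℝ) ∈ _ by constructor <;> simp <;> positivity)
  have CB : dist C B ≠ 0 := fun h => by
    rw [dist_eq_zero.1 h] at hC'
    simp [AB] at hC'
  have : C ∈ {X | dist O X = L / 2} := e ▸ (div_eq_iff CB).2 (sub_eq_zero.1 hC')
  exact (mem_ball'.1 hC).ne this

theorem t_rp2 : S_RP2 := by
  intro m L hL h
  refine rp2_main hL fun O X => ?_
  obtain ⟨f, f0, hf⟩ := Submodule.exists_le_ker_of_lt_top (O.submodule ⊔ X.submodule)
    (Submodule.lt_top_of_finrank_lt_finrank ((Submodule.finrank_add_le_finrank_add_finrank _ _).trans_lt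
      (by simp [Projectivization.finrank_submodule])))
  obtain ⟨γ, h1, h2⟩ := h (LinearMap.ker f)
    (by simpa using Module.Dual.finrank_ker_add_one_of_ne_zero f0)
  exact ⟨γ, h1 ▸ le_sup_left.trans hf, h1 ▸ le_sup_right.trans hf, h2⟩

end Pool.Agent.P.MP_874adf_gt.Fs
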