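import Pool.Agent.P.MP_874adf_gt.Fs.Ident

/-! Strict convexity of the Finsler norm on a dense set. -/

namespace Pool.Agent.P.MP_874adf_gt.Fs

open Set Filter Topology Metric

theorem sc_cone {N : P → ℝ} (h : IsN N) {v w : P} (e : N v + N w ≤ N (v + w)) {a b : ℝ}
    (a0 : 0 ≤ a) (b0 : 0 ≤ b) : N (a • v + b • w) = a * N v + b * N w := by
  have h1 := h.add (a • v) (b • w)
  have h2 := h.add (b • v) (a • w)
  have h3 := h.add (a • v + b • w) (b • v + a • w)
  rw [show a • v + b • w + (b • v + a • w) = (a + b) • (v + w) by module,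
    h.smul_nonneg (add_nonneg a0 b0)] at h3
  rw [h.smul_nonneg a0, h.smul_nonneg b0] at h1 h2
  nlinarith [mul_le_mul_of_nonneg_left e (add_nonneg a0 b0)]

theorem sc_dense {N : P → ℝ} (h : IsN N) (hn : ¬ SC N) {u : ℕ → P × P} (hu : DenseRange u) :
    ∃ n, wed (u n).1 (u n).2 ≠ 0 ∧ N (u n).1 + N (u n).2 ≤ N ((u n).1 + (u n).2) := by
  simp only [SC, not_forall, not_lt] at hn
  obtain ⟨v, w, h0, e⟩ := hn
  have co : ∀ z : P, z = (wed z w / wed v w) • v + (wed v z / wed v w) • w := fun z => by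
    ext <;> simp only [Prod.fst_add, Prod.snd_add, Prod.smul_fst, Prod.smul_snd, smul_eq_mul] <;>
      field_simp <;> simp only [wed] <;> ring
  have ev : ∀ {f : P × P → ℝ}, Continuous f → 0 < f ((2 : ℝ) • v + w, v + (2 : ℝ) • w) →
      ∀ᶠ q in 𝓝 ((2 : ℝ) • v + w, v + (2 : ℝ) • w), 0 < f q :=
    fun hf h => hf.continuousAt.eventually (lt_mem_nhds h)
  have pos : ∀ (c : ℝ) {s : ℝ}, 0 < c → s = c * wed v w → 0 < s / wed v w := fun c s hc e => by
    rwa [e, mul_div_cancel_right₀ _ h0]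
  obtain ⟨n, h1, h2, h3, h4, h5⟩ := hu.mem_nhds
    ((ev (f := fun q => wed q.1 w / wed v w) (by unfold wed; fun_prop)
      (pos 2 two_pos (by simp [wed]; ring))).and
    ((ev (f := fun q => wed v q.1 / wed v w) (by unfold wed; fun_prop)
      (pos 1 one_pos (by simp [wed]; ring))).and
    ((ev (f := fun q => wed q.2 w / wed v w) (by unfold wed; fun_prop)
      (pos 1 one_pos (by simp [wed]; ring))).and
    ((ev (f := fun q => wed v q.2 / wed v w) (by unfold wed; fun_prop)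
      (pos 2 two_pos (by simp [wed]; ring))).and
    (ev (f := fun q => wed q.1 q.2 / wed v w) (by unfold wed; fun_prop)
      (pos 3 three_pos (by simp [wed]; ring)))))))
  refine ⟨n, fun h6 => by simp [h6] at h5, ?_⟩
  rw [co (u n).1, co (u n).2, add_add_add_comm, ← add_smul, ← add_smul, sc_cone h e h1.le h2.le,
    sc_cone h e h3.le h4.le, sc_cone h e (add_pos h1 h3).le (add_pos h2 h4).le]
  linarith

variable {M W : Set P} {d F : P → P → ℝ}

theorem sc_mono (h : SD M W d F) {O y e : P} (hO : O ∈ M) {s : ℝ} (s0 : 0 ≤ s)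
    (hW : ∀ t ∈ Icc 0 s, y + t • e ∈ W ∧ ∃ K : ℝ, 0 ≤ K ∧
      F (y + t • e) (-e + K • (y + t • e - O)) -
        F (y + t • e) (K • (y + t • e - O)) + F (y + t • e) e ≤ 0) :
    d y (y + s • e) ≤ d O (y + s • e) - d O y := by
  have hM : ∀ t ∈ Icc 0 s, y + t • e ∈ M := fun t ht => h.sub (hW t ht).1
  have hy : y ∈ M := by simpa using hM 0 ⟨le_rfl, s0⟩
  have := image_le_of_liminf_slope_right_le_deriv_boundary
    (f := fun t => d y (y + t • e) - d O (y + t • e)) (B := fun _ => -d O y) (B' := fun _ => 0)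
    ((h.pm.contOn_line hy hM).sub (h.pm.contOn_line hO hM)) (by simp [h.pm.self hy])
    continuousOn_const (fun _ _ => hasDerivWithinAt_const _ _ _) (fun t ht r r0 => ?_) ⟨s0, le_rfl⟩
  · linarith
  obtain ⟨w1, K, K0, hK⟩ := hW t (Ico_subset_Icc_self ht)
  have n := h.isN _ w1
  have c := n.cont
  have p0 : 0 < 2 * ‖e‖ + 2 * ‖K • (y + t • e - O)‖ + 1 := by positivity
  set ε := r / (2 * ‖e‖ + 2 * ‖K • (y + t • e - O)‖ + 1) with hε
  have ε0 : 0 < ε := by positivity
  obtain ⟨δ, δ0, hb, hs⟩ := h.sandwich w1 ε0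
  obtain ⟨δ', δ0', -, hs'⟩ := h.strict _ w1 ε ε0
  have e1 : ∀ᶠ z in 𝓝 t, F (y + t • e) (-e + K • (y + z • e - O)) -
      F (y + t • e) (K • (y + z • e - O)) + F (y + t • e) e +
      ε * (2 * ‖e‖ + 2 * ‖K • (y + z • e - O)‖) < r := by
    refine ContinuousAt.eventually_lt (by fun_prop) continuousAt_const ?_
    have : ε * (2 * ‖e‖ + 2 * ‖K • (y + t • e - O)‖ + 1) = r := div_mul_cancel₀ _ p0.ne'
    linarith
  have c1 : Tendsto (fun z : ℝ => y + z • e) (𝓝 t) (𝓝 (y + t • e)) :=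
    (by fun_prop : Continuous fun z : ℝ => y + z • e).tendsto t
  have c2 : Tendsto (fun z : ℝ => y + z • e + ((z - t) * K) • (O - (y + z • e))) (𝓝 t)
      (𝓝 (y + t • e)) := Continuous.tendsto' (by fun_prop) _ _ (by simp)
  have e2 : ∀ᶠ z in 𝓝 t, (z - t) * K < 1 :=
    ContinuousAt.eventually_lt (by fun_prop) continuousAt_const (by simp)
  refine Eventually.frequently ?_
  filter_upwards [self_mem_nhdsWithin, mem_nhdsWithin_of_mem_nhds (e1.and (e2.and
    ((c1.eventually (ball_mem_nhds _ δ0)).and ((c1.eventually (ball_mem_nhds _ δ0')).and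
      (c2.eventually (ball_mem_nhds _ δ0))))))] with z hz ⟨a1, a2, a3, a4, a5⟩
  have τ0 : 0 < z - t := sub_pos.2 hz
  have b1 := hs O hO _ a3 _ (mem_ball_self δ0) _ (mul_nonneg τ0.le K0) a2.le a5
  have b2 := (abs_le.1 (hs' _ (mem_ball_self δ0') _ a4)).2
  have b3 := h.pm.triangle y hy _ (h.sub w1) _ (h.sub (hb a3))
  rw [show y + z • e - (y + t • e) = (z - t) • e by module, n.smul_nonneg τ0.le,
    norm_smul_of_nonneg τ0.le] at b2
  rw [show y + t • e - (y + z • e) = (z - t) • -e by module, mul_smul, ← smul_add,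
    n.smul_nonneg τ0.le, n.smul_nonneg τ0.le, norm_smul_of_nonneg τ0.le,
    norm_smul_of_nonneg τ0.le, norm_neg] at b1
  rw [slope_def_field, div_lt_iff₀ τ0]
  nlinarith [mul_lt_mul_of_pos_left a1 τ0]

theorem sc_leg (h : SD M W d F) {O y v w : P} (hO : O ∈ M) {a b s : ℝ} (a0 : 0 < a) (b0 : 0 ≤ b)
    (s0 : 0 ≤ s) (hy : y = O + a • v + b • w) (hW : ∀ t ∈ Icc 0 s, y + t • v ∈ W ∧
      F (y + t • v) v + F (y + t • v) w ≤ F (y + t • v) (v + w)) :
    d y (y + s • v) ≤ d O (y + s • v) - d O y := by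
  refine sc_mono h hO s0 fun t ht =>
    ⟨(hW t ht).1, (a + t)⁻¹, (inv_pos.2 (add_pos_of_pos_of_nonneg a0 ht.1)).le, ?_⟩
  have p0 := add_pos_of_pos_of_nonneg a0 ht.1
  have n := h.isN _ (hW t ht).1
  have q0 : 0 ≤ (a + t)⁻¹ * b := by positivity
  have e : (a + t)⁻¹ • (y + t • v - O) = (1 : ℝ) • v + ((a + t)⁻¹ * b) • w := by
    rw [← inv_mul_cancel₀ p0.ne', hy]; module
  rw [e, sc_cone n (hW t ht).2 zero_le_one q0, one_smul, neg_add_cancel_left, n.smul_nonneg q0]
  linarith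

theorem t_sc : S_SC := by
  intro M W d F h x hx δ δ0
  by_contra hcon
  obtain ⟨r, r0, hr⟩ := nhds_basis_closedBall.mem_iff.1
    (inter_mem (h.openW.mem_nhds hx) (ball_mem_nhds x δ0))
  set u := TopologicalSpace.denseSeq (P × P)
  have cF : ∀ v, ContinuousOn (fun y => F y v) (closedBall x r) := fun v y hy =>
    ((h.contAt (hr hy).1 v).comp_of_eq (f := fun y => (y, v)) (by fun_prop) rfl).continuousWithinAt
  have B := dense_iUnion_interior_of_closed (f := fun n => {_y | wed (u n).1 (u n).2 ≠ 0} ∩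
      {y ∈ closedBall x r | F y (u n).1 + F y (u n).2 ≤ F y ((u n).1 + (u n).2)} ∪ (ball x r)ᶜ)
    (fun n => (isClosed_const.inter (isClosed_closedBall.isClosed_le ((cF _).add (cF _))
      (cF _))).union isOpen_ball.isClosed_compl)
    (eq_univ_of_forall fun y => by
      by_cases hy : y ∈ ball x r
      · have h1 := hr (ball_subset_closedBall hy)
        obtain ⟨n, h2, h3⟩ := sc_dense (h.isN y h1.1) (fun h2 => hcon ⟨y, h1.1, h1.2, h2⟩)
          (TopologicalSpace.denseRange_denseSeq (P × P))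
        exact mem_iUnion.2 ⟨n, Or.inl ⟨h2, ball_subset_closedBall hy, h3⟩⟩
      · exact mem_iUnion.2 ⟨0, Or.inr hy⟩)
  obtain ⟨O, h1, h2⟩ := B.inter_open_nonempty _ isOpen_ball ⟨x, mem_ball_self r0⟩
  obtain ⟨n, h2⟩ := mem_iUnion.1 h2
  obtain ⟨ρ, ρ0, hρ⟩ := Metric.mem_nhds_iff.1
    (inter_mem (isOpen_ball.mem_nhds h1) (mem_interior_iff_mem_nhds.1 h2))
  generalize (u n).1 = v, (u n).2 = w at hρ
  have k : ∀ y ∈ ball O ρ, wed v w ≠ 0 ∧ y ∈ W ∧ F y v + F y w ≤ F y (v + w) := fun y hy =>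
    let g := (hρ hy).2.resolve_right (not_not.2 (hρ hy).1)
    ⟨g.1, (hr g.2.1).1, g.2.2⟩
  have p0 : 0 < 2 * ‖v‖ + 2 * ‖w‖ + 1 := by positivity
  set s := ρ / (2 * ‖v‖ + 2 * ‖w‖ + 1) with hs
  have s0 : 0 < s := by positivity
  have m : ∀ a b : ℝ, 0 ≤ a → a ≤ 2 * s → 0 ≤ b → b ≤ 2 * s → ∀ y, y = O + a • v + b • w →
      y ∈ ball O ρ := fun a b a0 a1 b0 b1 y e => by
    have : s * (2 * ‖v‖ + 2 * ‖w‖ + 1) = ρ := div_mul_cancel₀ _ p0.ne'
    rw [e, mem_ball, dist_eq_norm, add_assoc, add_sub_cancel_left]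
    refine (norm_add_le _ _).trans_lt ?_
    rw [norm_smul_of_nonneg a0, norm_smul_of_nonneg b0]
    nlinarith [mul_le_mul_of_nonneg_right a1 (norm_nonneg v),
      mul_le_mul_of_nonneg_right b1 (norm_nonneg w)]
  obtain ⟨w0, hO, -⟩ := k O (mem_ball_self ρ0)
  replace hO := h.sub hO
  have l1 := sc_leg h hO (y := O + s • (v + w)) (v := v) (w := w) s0 s0.le s0.le (by module)
    fun t ht => (k _ (m (s + t) s (by linarith [ht.1]) (by linarith [ht.2]) s0.le (by linarith) _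
      (by module))).2
  have l2 := sc_leg h hO (y := O + s • (v + w) + s • v) (v := w) (w := v) (b := 2 * s) s0
    (by linarith) s0.le (by module) fun t ht => by
      rw [add_comm w v, add_comm (F _ w)]
      exact (k _ (m (2 * s) (s + t) (by linarith) le_rfl (by linarith [ht.1]) (by linarith [ht.2]) _
        (by module))).2
  have m0 : O + s • (v + w) ∈ M :=
    h.sub (k _ (m s s s0.le (by linarith) s0.le (by linarith) _ (by module))).2.1
  have m1 : O + s • (v + w) + s • v ∈ M :=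
    h.sub (k _ (m (2 * s) s (by linarith) le_rfl s0.le (by linarith) _ (by module))).2.1
  have m2 : O + (2 * s) • (v + w) ∈ M :=
    h.sub (k _ (m (2 * s) (2 * s) (by linarith) le_rfl (by linarith) le_rfl _ (by module))).2.1
  have l3 := h.pm.line_add (r := 0) (s := s) (by simpa using hO) m2 s0.le (by linarith)
  rw [show O + s • (v + w) + s • v + s • w = O + (2 * s) • (v + w) by module] at l2
  rw [zero_smul, add_zero] at l3
  have := (h.pm.straight _ m0 _ m1 _ m2).1
    (le_antisymm (by linarith) (h.pm.triangle _ m0 _ m1 _ m2))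
  rw [segment_eq_image'] at this
  obtain ⟨c, -, e⟩ := this
  have e1 := congrArg Prod.fst e
  have e2 := congrArg Prod.snd e
  simp only [Prod.fst_add, Prod.snd_add, Prod.fst_sub, Prod.snd_sub, Prod.smul_fst, Prod.smul_snd,
    smul_eq_mul] at e1 e2
  refine w0 (mul_left_cancel₀ s0.ne' ?_)
  unfold wed
  linear_combination (v.1 + w.1) * e2 - (v.2 + w.2) * e1

end Pool.Agent.P.MP_874adf_gt.Fs
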