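import Pool.Agent.P.MP_874adf_gt.Fs.Ident

/-! A continuous infinitesimal length gives strict differentiability of the metric. -/

set_option autoImplicit false

namespace Pool.Agent.P.MP_874adf_gt.Fs

open Set Filter Topology Metric

section

variable {M W : Set P} {d F : P → P → ℝ} {x : P}

lemma strict_zero (h : PM M d) (hW : W ⊆ M) (hF : Fins W d F) (hx : x ∈ W) : F x 0 = 0 := by
  have := hF.lim x hx 0
  simp only [smul_zero, add_zero, h.self (hW hx), zero_div] at this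
  exact (tendsto_nhds_unique tendsto_const_nhds this).symm

lemma strict_hom (hF : Fins W d F) (hx : x ∈ W) {c : ℝ} (hc : 0 < c) (v : P) :
    F x (c • v) = c * F x v := by
  have h1 : Tendsto (fun t : ℝ => t * c) (𝓝[>] 0) (𝓝[>] 0) := by
    refine tendsto_nhdsWithin_iff.2 ⟨?_, eventually_mem_nhdsWithin.mono fun t ht => mul_pos ht hc⟩
    exact ((continuous_mul_const c).tendsto' 0 0 (zero_mul c)).mono_left nhdsWithin_le_nhds
  refine tendsto_nhds_unique (hF.lim x hx _) ((((hF.lim x hx v).comp h1).const_mul c).congr ?_)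
  intro t
  simp only [Function.comp, smul_smul]
  rw [mul_comm t c, ← mul_div_assoc, mul_div_mul_left _ _ hc.ne']

lemma strict_unif (h : PM M d) (hO : IsOpen W) (hW : W ⊆ M) (hF : Fins W d F) (hx : x ∈ W)
    {ε : ℝ} (hε : 0 < ε) :
    ∃ δ > 0, ball x δ ⊆ W ∧ ∀ y ∈ ball x δ, ∀ v, |F y v - F x v| ≤ ε * ‖v‖ := by
  have c1 : ∀ v, ContinuousAt (fun p : P × P => F p.1 p.2) (x, v) := fun v =>
    hF.cont.continuousAt ((hO.prod isOpen_univ).mem_nhds ⟨hx, mem_univ _⟩)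
  have h1 : ∀ᶠ y in 𝓝 x, ∀ v ∈ sphere (0 : P) 1, |F y v - F x v| < ε := by
    refine (isCompact_sphere (0 : P) 1).eventually_forall_of_forall_eventually fun v _ => ?_
    have c2 : ContinuousAt (fun p : P × P => F x p.2) (x, v) :=
      ContinuousAt.comp (f := fun p : P × P => (x, p.2)) (g := fun p : P × P => F p.1 p.2)
        (c1 v) (by fun_prop)
    exact ((c1 v).sub c2).abs.eventually_lt continuousAt_const (by simpa using hε)
  obtain ⟨δ, δ0, h2⟩ := Metric.nhds_basis_ball.eventually_iff.1 (h1.and (hO.mem_nhds hx))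
  refine ⟨δ, δ0, fun y hy => (h2 hy).2, fun y hy v => ?_⟩
  obtain ⟨a1, a2⟩ := h2 hy
  rcases eq_or_ne v 0 with rfl | hv
  · simp [strict_zero h hW hF hx, strict_zero h hW hF a2]
  have n1 : 0 < ‖v‖ := norm_pos_iff.2 hv
  have a3 := a1 (‖v‖⁻¹ • v) (by simp [norm_smul, n1.ne'])
  rw [strict_hom hF hx (inv_pos.2 n1), strict_hom hF a2 (inv_pos.2 n1), ← mul_sub, abs_mul,
    abs_of_pos (inv_pos.2 n1), inv_mul_lt_iff₀ n1, mul_comm] at a3
  exact a3.le

lemma strict_deriv (h : PM M d) (hW : W ⊆ M) (hF : Fins W d F) {y v : P}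
    (hs : ∀ t ∈ Icc (0 : ℝ) 1, y + t • v ∈ W) {t : ℝ} (ht : t ∈ Ico (0 : ℝ) 1) :
    HasDerivWithinAt (fun t : ℝ => d y (y + t • v)) (F (y + t • v) v) (Ici t) t := by
  refine HasDerivWithinAt.Ici_of_Ioi ((hasDerivWithinAt_iff_tendsto_slope' self_notMem_Ioi).2 ?_)
  have h1 : Tendsto (fun s : ℝ => s - t) (𝓝[>] t) (𝓝[>] 0) := by
    refine tendsto_nhdsWithin_iff.2 ⟨?_, eventually_mem_nhdsWithin.mono fun s hs =>
      mem_Ioi.2 (sub_pos.2 (mem_Ioi.1 hs))⟩
    exact ((continuous_sub_right t).tendsto' t 0 (sub_self t)).mono_left nhdsWithin_le_nhds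
  refine ((hF.lim _ (hs t (Ico_subset_Icc_self ht)) v).comp h1).congr' ?_
  filter_upwards [Ioc_mem_nhdsGT ht.2] with s hs'
  have a1 := h.line_add (hW (hs 0 (left_mem_Icc.2 zero_le_one)))
    (hW (hs s ⟨ht.1.trans hs'.1.le, hs'.2⟩)) ht.1 hs'.1.le
  rw [zero_smul, add_zero] at a1
  simp only [Function.comp, slope_def_field]
  rw [← a1, add_sub_cancel_left, add_assoc, ← add_smul, add_sub_cancel]

lemma strict_main (h : PM M d) (hO : IsOpen W) (hW : W ⊆ M) (hF : Fins W d F) (hx : x ∈ W)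
    {ε : ℝ} (hε : 0 < ε) : ∃ δ > 0, ball x δ ⊆ W ∧
      ∀ y ∈ ball x δ, ∀ z ∈ ball x δ, |d y z - F x (z - y)| ≤ ε * ‖z - y‖ := by
  obtain ⟨δ, δ0, h1, h2⟩ := strict_unif h hO hW hF hx hε
  refine ⟨δ, δ0, h1, fun y hy z hz => ?_⟩
  have hs : ∀ t ∈ Icc (0 : ℝ) 1, y + t • (z - y) ∈ ball x δ := fun t ht =>
    (convex_ball x δ).add_smul_sub_mem hy hz ht
  have := norm_image_sub_le_of_norm_deriv_right_le_segment (a := 0) (b := 1)
    (f := fun t : ℝ => d y (y + t • (z - y)) - t * F x (z - y))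
    (f' := fun t : ℝ => F (y + t • (z - y)) (z - y) - F x (z - y)) (C := ε * ‖z - y‖)
    ((h.contOn_line (hW (h1 hy)) fun t ht => hW (h1 (hs t ht))).sub (by fun_prop))
    (fun t ht => (strict_deriv h hW hF (fun t ht => h1 (hs t ht)) ht).sub
      (hasDerivAt_mul_const _).hasDerivWithinAt)
    (fun t ht => h2 _ (hs t (Ico_subset_Icc_self ht)) _) 1 (right_mem_Icc.2 zero_le_one)
  simpa [h.self (hW (h1 hy))] using this

lemma strict_scale (h : PM M d) (hO : IsOpen W) (hW : W ⊆ M) (hF : Fins W d F) (hx : x ∈ W)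
    {ε R : ℝ} (hε : 0 < ε) (hR : 0 ≤ R) : ∃ t > (0 : ℝ), (∀ a : P, ‖a‖ ≤ R → x + t • a ∈ M) ∧
      ∀ a b : P, ‖a‖ ≤ R → ‖b‖ ≤ R → |d (x + t • a) (x + t • b) - t * F x (b - a)| ≤ t * ε := by
  obtain ⟨δ, δ0, h1, h2⟩ := strict_main h hO hW hF hx (show 0 < ε / (2 * R + 1) by positivity)
  have t0 : 0 < δ / (R + 1) := by positivity
  have hb : ∀ a : P, ‖a‖ ≤ R → x + (δ / (R + 1)) • a ∈ ball x δ := fun a ha => by
    rw [mem_ball_iff_norm, add_sub_cancel_left, norm_smul, Real.norm_of_nonneg t0.le,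
      div_mul_eq_mul_div, div_lt_iff₀ (by positivity)]
    exact mul_lt_mul_of_pos_left (by linarith) δ0
  refine ⟨_, t0, fun a ha => hW (h1 (hb a ha)), fun a b ha hb' => ?_⟩
  have a1 := h2 _ (hb a ha) _ (hb b hb')
  rw [add_sub_add_left_eq_sub, ← smul_sub, strict_hom hF hx t0, norm_smul,
    Real.norm_of_nonneg t0.le, mul_left_comm] at a1
  refine a1.trans (mul_le_mul_of_nonneg_left ?_ t0.le)
  rw [div_mul_eq_mul_div, div_le_iff₀ (by positivity)]
  exact mul_le_mul_of_nonneg_left (by linarith [norm_sub_le b a]) hε.le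

lemma strict_neg (h : PM M d) (hO : IsOpen W) (hW : W ⊆ M) (hF : Fins W d F) (hx : x ∈ W)
    (v : P) : F x (-v) ≤ F x v := by
  refine le_of_forall_pos_le_add fun ε hε => ?_
  obtain ⟨t, t0, h1, h2⟩ := strict_scale h hO hW hF hx (half_pos hε) (norm_nonneg v)
  have z0 : ‖(0 : P)‖ ≤ ‖v‖ := by simp
  have a1 := abs_le.1 (h2 0 v z0 le_rfl)
  have a2 := abs_le.1 (h2 v 0 le_rfl z0)
  rw [h.symm _ (h1 v le_rfl) _ (h1 0 z0), zero_sub] at a2
  rw [sub_zero] at a1
  exact le_of_mul_le_mul_left (by linarith [a1.2, a2.1]) t0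

lemma strict_add (h : PM M d) (hO : IsOpen W) (hW : W ⊆ M) (hF : Fins W d F) (hx : x ∈ W)
    (v w : P) : F x (v + w) ≤ F x v + F x w := by
  refine le_of_forall_pos_le_add fun ε hε => ?_
  have r0 : 0 ≤ ‖v‖ + ‖w‖ := by positivity
  obtain ⟨t, t0, h1, h2⟩ := strict_scale h hO hW hF hx (show 0 < ε / 3 by positivity) r0
  have z0 : ‖(0 : P)‖ ≤ ‖v‖ + ‖w‖ := by simpa using r0
  have z1 : ‖v‖ ≤ ‖v‖ + ‖w‖ := le_add_of_nonneg_right (norm_nonneg w)
  have z2 := norm_add_le v w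
  have a1 := abs_le.1 (h2 0 v z0 z1)
  have a2 := abs_le.1 (h2 v (v + w) z1 z2)
  have a3 := abs_le.1 (h2 0 (v + w) z0 z2)
  have a4 := h.triangle _ (h1 0 z0) _ (h1 v z1) _ (h1 _ z2)
  rw [add_sub_cancel_left] at a2
  rw [sub_zero] at a1 a3
  exact le_of_mul_le_mul_left (by linarith [a1.2, a2.2, a3.1]) t0

end

theorem t_strict : S_STRICT := by
  intro M W d F h hO hW hd hF
  refine ⟨h, hO, hW, hd, hF.cont, fun x hx => ⟨fun t v => ?_, strict_add h hO hW hF hx,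
    hF.pos x hx⟩, fun x hx ε hε => strict_main h hO hW hF hx hε⟩
  rcases lt_trichotomy t 0 with ht | rfl | ht
  · have e : F x (-v) = F x v := le_antisymm (strict_neg h hO hW hF hx v)
      (by simpa using strict_neg h hO hW hF hx (-v))
    rw [← neg_smul_neg, strict_hom hF hx (neg_pos.2 ht), e, abs_of_neg ht]
  · simp [strict_zero h hW hF hx]
  · rw [strict_hom hF hx ht, abs_of_pos ht]

end Pool.Agent.P.MP_874adf_gt.Fs
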