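import Pool.Agent.P.MP_874adf_gt.Fs.Ident

/-! Position of the foci of a small Apollonius circle. -/

set_option autoImplicit false

namespace Pool.Agent.P.MP_874adf_gt.Fs

open Set Filter Topology Metric

variable {M : Set P} {d : P → P → ℝ}

theorem struct_exit (h : PM M d) {O : P} (hO : O ∈ M) : ∃ m > (0 : ℝ), ∀ a < m, ∀ X ∈ M,
    d O X < a → ∀ v : P, v ≠ 0 → ∃ t > (0 : ℝ), X + t • v ∈ M ∧ d O (X + t • v) = a := by
  obtain ⟨ρ, ρ0, hρ⟩ := nhds_basis_closedBall.mem_iff.1 (h.isOpen.mem_nhds hO)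
  have hs : sphere O ρ ⊆ M := sphere_subset_closedBall.trans hρ
  obtain ⟨Z, hZ, hm⟩ := (isCompact_sphere O ρ).exists_isMinOn (f := d O)
    (NormedSpace.sphere_nonempty.2 ρ0.le) (fun y hy =>
      (h.tendsto hO (hs hy) tendsto_const_nhds tendsto_id).mono_left nhdsWithin_le_nhds)
  refine ⟨d O Z, h.pos hO (hs hZ) (by rintro rfl; simp at hZ; linarith), fun a ha X hX hd v hv => ?_⟩
  have h1 : ‖X - O‖ < ρ := by
    by_contra hc
    have hc' : ρ ≤ ‖X - O‖ := not_lt.1 hc
    have n0 : 0 < ‖X - O‖ := ρ0.trans_le hc'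
    have t0 : 0 ≤ ρ / ‖X - O‖ := by positivity
    have t1 : ρ / ‖X - O‖ ≤ 1 := (div_le_one n0).2 hc'
    have a1 := h.add hO hX t0 t1
    have a2 := h.nonneg (h.seg_mem hO hX t0 t1) hX
    have a3 : d O Z ≤ d O (O + (ρ / ‖X - O‖) • (X - O)) := hm (by
      rw [mem_sphere_iff_norm, add_sub_cancel_left, norm_smul, Real.norm_of_nonneg t0,
        div_mul_cancel₀ _ n0.ne'])
    linarith
  have n0 : 0 < ‖v‖ := norm_pos_iff.2 hv
  obtain ⟨t₁, ht₁, e₁⟩ := intermediate_value_Icc (show 0 ≤ 2 * ρ / ‖v‖ by positivity)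
    (f := fun t : ℝ => ‖X + t • v - O‖) (by fun_prop) (show ρ ∈ _ from ⟨by simpa using h1.le, by
      have a1 := norm_sub_norm_le ((2 * ρ / ‖v‖) • v) (O - X)
      rw [norm_smul, Real.norm_of_nonneg (by positivity), div_mul_cancel₀ _ n0.ne',
        norm_sub_rev O X, show (2 * ρ / ‖v‖) • v - (O - X) = X + (2 * ρ / ‖v‖) • v - O by abel]
        at a1
      linarith⟩)
  have s₁ : X + t₁ • v ∈ sphere O ρ := mem_sphere_iff_norm.2 e₁
  have hm' : ∀ t ∈ Icc 0 t₁, X + t • v ∈ M := fun t ht =>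
    h.line_mem (r := 0) (by simpa using hX) (hs s₁) ht.1 ht.2
  obtain ⟨t, ht, e⟩ := intermediate_value_Icc ht₁.1 (h.contOn_line hO hm')
    (show a ∈ _ from ⟨by simpa using hd.le, ha.le.trans (hm s₁)⟩)
  refine ⟨t, lt_of_le_of_ne ht.1 ?_, hm' t ht, e⟩
  rintro rfl
  simp at e
  linarith

theorem struct_foc (h : PM M d) {O A B : P} {a r : ℝ} (hO : O ∈ M) (hA : A ∈ M) (hB : B ∈ M)
    (a0 : 0 < a) (hAB : A ≠ B) (r0 : 0 < r) (r1 : r < 1)
    (hex : ∀ X ∈ M, d O X < a → ∀ v : P, v ≠ 0 →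
      ∃ t > (0 : ℝ), X + t • v ∈ M ∧ d O (X + t • v) = a)
    (hc : ∀ C ∈ M, d O C = a ↔ d A C = r * d B C) : ∃ l, Foc M d O a B l r := by
  have L0 : 0 < d A B := h.pos hA hB hAB
  have sBA : d B A = d A B := h.symm _ hB _ hA
  have HA : d A A < r * d B A := by rw [h.self hA, sBA]; positivity
  have HB : r * d B B < d A B := by rw [h.self hB, mul_zero]; exact L0
  have dOO : d O O < a := by rwa [h.self hO]
  have zero : ∀ X ∈ M, ∀ Y ∈ M, d A X ≤ r * d B X → r * d B Y ≤ d A Y →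
      ∃ t ∈ Icc (0 : ℝ) 1, d O (X + t • (Y - X)) = a := by
    intro X hX Y hY h1 h2
    have hm : ∀ t ∈ Icc (0 : ℝ) 1, X + t • (Y - X) ∈ M := fun t ht => h.seg_mem hX hY ht.1 ht.2
    obtain ⟨t, ht, e⟩ := intermediate_value_Icc zero_le_one
      ((h.contOn_line hA hm).sub ((h.contOn_line hB hm).const_smul r))
      (show (0 : ℝ) ∈ _ from ⟨by simpa using h1, by simpa using h2⟩)
    exact ⟨t, ht, (hc _ (hm t ht)).2 (by simpa [sub_eq_zero] using e)⟩
  have dOA : d O A < a := by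
    by_contra hn
    have hne : O - A ≠ 0 := by
      intro e
      rw [← sub_eq_zero.1 e] at hn
      exact hn dOO
    have hm : ∀ t ∈ Icc (0 : ℝ) 1, A + t • (O - A) ∈ M := fun t ht => h.seg_mem hA hO ht.1 ht.2
    obtain ⟨s, hs, e⟩ := intermediate_value_Icc' zero_le_one (h.contOn_line hO hm)
      (show a ∈ _ from ⟨by simpa using dOO.le, by simpa using hn⟩)
    obtain ⟨t, t0, ht, e'⟩ := hex O hO dOO _ hne
    rw [show O + t • (O - A) = A + (1 + t) • (O - A) by module] at ht e'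
    have a1 := h.line_add (r := 0) (s := s) (by simpa using hA) ht hs.1 (by linarith [hs.2])
    have a2 := h.pos (hm s hs) ht fun e => by
      have := smul_left_injective ℝ hne (add_left_cancel e)
      linarith [hs.2]
    have a3 := h.triangle _ hB _ (hm s hs) _ ht
    have a4 := (hc _ (hm s hs)).1 e
    have a5 := (hc _ ht).1 e'
    simp only [zero_smul, add_zero] at a1
    nlinarith
  have HO : d A O < r * d B O := by
    by_contra hn
    obtain ⟨t, ht, e⟩ := zero A hA O hO HA.le (not_lt.1 hn)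
    have a1 := h.add hA hO ht.1 ht.2
    have a2 := h.nonneg hA (h.seg_mem hA hO ht.1 ht.2)
    rw [h.symm _ (h.seg_mem hA hO ht.1 ht.2) _ hO, h.symm _ hA _ hO] at a1
    linarith
  have ins : ∀ C ∈ M, d O C < a → d A C < r * d B C := by
    intro C hC hd
    by_contra hn
    obtain ⟨t, ht, e⟩ := zero O hO C hC HO.le (not_lt.1 hn)
    have a1 := h.add hO hC ht.1 ht.2
    have a2 := h.nonneg (h.seg_mem hO hC ht.1 ht.2) hC
    linarith
  have dOB : a < d O B := by
    rcases lt_trichotomy a (d O B) with h1 | h1 | h1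
    · exact h1
    · linarith [(hc B hB).1 h1.symm]
    · linarith [ins B hB h1]
  have hBO : B ≠ O := by rintro rfl; linarith
  obtain ⟨t, ht, eP⟩ := zero A hA B hB HA.le HB.le
  have mP := h.seg_mem hA hB ht.1 ht.2
  have aP := h.add hA hB ht.1 ht.2
  obtain ⟨Q, hQ⟩ : ∃ Q, Q = A + t • (B - A) := ⟨_, rfl⟩
  rw [← hQ] at mP aP eP
  have cP := (hc Q mP).1 eP
  rw [h.symm _ mP _ hB] at aP
  have low : ∀ C ∈ M, d O C = a → d A Q ≤ d A C := by
    intro C hC hd
    have a1 := (hc C hC).1 hd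
    have a2 := h.triangle _ hA _ hC _ hB
    rw [h.symm _ hC _ hB] at a2
    nlinarith
  have hAO : A ≠ O := by
    rintro rfl
    obtain ⟨u, u0, hu, e⟩ := hex A hA dOO (A - B) (sub_ne_zero.2 hAB)
    have a1 := h.line_add (r := -1) (s := 0) (by simpa using hB) hu (by norm_num) u0.le
    have a2 := (hc _ hu).1 e
    simp only [neg_smul, one_smul, neg_sub, add_sub_cancel, zero_smul, add_zero] at a1
    nlinarith [mul_pos r0 a0]
  obtain ⟨u, u0, hu, e⟩ := hex A hA dOA (A - O) (sub_ne_zero.2 hAO)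
  have a1 := h.line_add (r := -1) (s := 0) (by simpa using hO) hu (by norm_num) u0.le
  simp only [neg_smul, one_smul, neg_sub, add_sub_cancel, zero_smul, add_zero] at a1
  have a2 := low _ hu e
  have a3 := h.triangle _ hO _ hA _ mP
  have a4 : d O A + d A Q = d O Q := by linarith
  have a5 := (h.straight _ hO _ hA _ mP).1 a4
  rw [segment_eq_image'] at a5
  obtain ⟨s, hs, es⟩ := a5
  have es' : O + s • (Q - O) = A := es
  have s0 : 0 < s := lt_of_le_of_ne hs.1 (by rintro rfl; exact hAO (by simpa using es'.symm))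
  have hQA : Q ≠ A := by rintro rfl; linarith
  have s1 : s < 1 := lt_of_le_of_ne hs.2 (by rintro rfl; exact hQA (by simpa using es'))
  have t0 : 0 < t := lt_of_le_of_ne ht.1 (by rintro rfl; exact hQA (by simpa using hQ))
  have D0 : 0 < 1 - s + s * t := by nlinarith [mul_pos s0 t0]
  have l0 : 0 < s * t / (1 - s + s * t) := by positivity
  have l1 : s * t / (1 - s + s * t) < 1 := (div_lt_one D0).2 (by linarith)
  have eA : O + (s * t / (1 - s + s * t)) • (B - O) = A := by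
    apply smul_right_injective P D0.ne'
    simp only [smul_add, smul_smul, mul_div_cancel₀ _ D0.ne']
    rw [hQ] at es'
    linear_combination (norm := module) es'
  obtain ⟨l, hl⟩ : ∃ l, l = s * t / (1 - s + s * t) := ⟨_, rfl⟩
  rw [← hl] at l0 l1 eA
  obtain ⟨w, w0, hw, ew⟩ := hex O hO dOO (O - B) (sub_ne_zero.2 hBO.symm)
  have b1 := h.line_add (r := -1) (s := 0) (by simpa using hB) hw (by norm_num) w0.le
  simp only [neg_smul, one_smul, neg_sub, add_sub_cancel, zero_smul, add_zero] at b1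
  have eA' : O + (-l) • (O - B) = A := by rw [← eA]; module
  have b2 := h.line_add (r := -l) (s := 0) (by rwa [eA']) hw (by linarith) w0.le
  simp only [eA', zero_smul, add_zero] at b2
  have b3 := (hc _ hw).1 ew
  have b4 := h.add hO hB l0.le l1.le
  rw [eA] at b4
  rw [h.symm _ hB _ hO] at b1
  rw [h.symm _ hA _ hO] at b2
  have c1 : d O A + a = r * (d O B + a) := by rw [← ew, b1, b2, b3]
  have c2 : a - d O A = r * (d O B - a) := by
    rw [show d O B - a = d B Q by linarith, ← cP]; linarith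
  refine ⟨l, hB, hBO, l0, l1, r0, r1, by rw [eA]; linarith, ?_, ?_, ?_⟩
  · rw [eq_div_iff r0.ne']; linarith
  · rw [eA]; exact fun C hC => (hc C hC).1
  · rw [eA]; exact ins

theorem t_struct : S_STRUCT := by
  intro M d h hap O hO
  obtain ⟨a₀, a₀0, hap⟩ := hap O hO
  obtain ⟨m, m0, hex⟩ := struct_exit h hO
  refine ⟨min a₀ m, lt_min a₀0 m0, fun a a0 ha => ?_⟩
  have hex' := hex a (ha.trans_le (min_le_right _ _))
  refine ⟨hex' O hO (by rwa [h.self hO]), ?_⟩
  obtain ⟨A, hA, B, hB, r, hAB, r0, r1, e⟩ := hap a a0 (ha.trans_le (min_le_left _ _))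
  have hc : ∀ C ∈ M, d O C = a ↔ d A C = r * d B C := by
    intro C hC
    have h1 := Set.ext_iff.1 e C
    simp only [mem_ofPred_eq, hC, true_and] at h1
    rw [h1, h.symm _ hC _ hB]
    rcases eq_or_ne B C with rfl | hne
    · rw [h.self hB, div_zero, mul_zero]
      exact iff_of_false r0.ne (h.pos hA hB hAB).ne'
    · exact div_eq_iff (h.pos hB hC hne).ne'
  rcases r1.lt_or_gt with h1 | h1
  · obtain ⟨l, hl⟩ := struct_foc h hO hA hB a0 hAB r0 h1 hex' hc
    exact ⟨B, l, r, hl⟩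
  · obtain ⟨l, hl⟩ := struct_foc h hO hB hA a0 hAB.symm (inv_pos.2 r0) (inv_lt_one_of_one_lt₀ h1)
      hex' fun C hC => by rw [hc C hC, eq_inv_mul_iff_mul_eq₀ r0.ne', eq_comm]
    exact ⟨A, l, r⁻¹, hl⟩

end Pool.Agent.P.MP_874adf_gt.Fs
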