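import Pool.Agent.P.MP_874adf_gt.Fs.Plane
import Pool.Agent.P.MP_874adf_gt.Fs.Glue
import Pool.Agent.P.MP_874adf_gt.Fs.ALG
import Pool.Agent.P.MP_874adf_gt.Fs.B0
import Pool.Agent.P.MP_874adf_gt.Fs.CONIC
import Pool.Agent.P.MP_874adf_gt.Fs.CONV
import Pool.Agent.P.MP_874adf_gt.Fs.CURV
import Pool.Agent.P.MP_874adf_gt.Fs.FLAT
import Pool.Agent.P.MP_874adf_gt.Fs.GRAD
import Pool.Agent.P.MP_874adf_gt.Fs.HILB
import Pool.Agent.P.MP_874adf_gt.Fs.INV
import Pool.Agent.P.MP_874adf_gt.Fs.L0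
import Pool.Agent.P.MP_874adf_gt.Fs.LR
import Pool.Agent.P.MP_874adf_gt.Fs.PRE
import Pool.Agent.P.MP_874adf_gt.Fs.PROP
import Pool.Agent.P.MP_874adf_gt.Fs.RP2
import Pool.Agent.P.MP_874adf_gt.Fs.SC
import Pool.Agent.P.MP_874adf_gt.Fs.STRICT
import Pool.Agent.P.MP_874adf_gt.Fs.STRUCT

/-! The classification. -/

set_option autoImplicit false

namespace Pool.Agent.P.MP_874adf_gt.Fs

open Set Filter Topology Metric

theorem main {M W : Set P} {d F : P → P → ℝ} (pm : PM M d) (oW : IsOpen W) (sub : W ⊆ M)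
    (de : M ⊆ closure W) (fi : Fins W d F)
    (ap : ∀ O ∈ M, ∃ a0 > (0 : ℝ), ∀ a, 0 < a → a < a0 → IsAp M d O a) :
    (∃ o b p q s, Flat M d o b p q s) ∧ Emb M d :=
  glue t_struct t_strict t_sc t_blow t_br t_b1 t_b0 t_lr t_l1 t_l0 t_close t_grad t_inv t_alg
    t_conic t_curv t_prop t_pre t_flat pm oW sub de fi ap

/-- Hilbert geometries satisfy the regularity hypothesis and do not have the circle property. -/
theorem hilbert {M : Set P} {d : P → P → ℝ} (pm : PM M d) (hb : Bornology.IsBounded M)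
    (hi : Hilb M d) : (∃ F, Fins M d F) ∧
      ¬ ∀ O ∈ M, ∃ a0 > (0 : ℝ), ∀ a, 0 < a → a < a0 → IsAp M d O a := by
  obtain ⟨⟨F, fi⟩, nf⟩ := t_hilb M d pm hb hi
  refine ⟨⟨F, fi⟩, fun ap => ?_⟩
  obtain ⟨⟨o, b, p, q, s, fl⟩, -⟩ := main pm pm.isOpen subset_rfl subset_closure fi ap
  exact nf o b p q s fl

section
variable {X : Type} [MetricSpace X] {M : Set P} {d : P → P → ℝ} {e : X ≃ M}

lemma fin_apo (he : ∀ x y : X, dist x y = d (e x) (e y)) (O : X) (a : ℝ) :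
    Apo X O a ↔ IsAp M d (e O) a := by
  constructor
  · rintro ⟨A, B, r, ne, r0, r1, h⟩
    refine ⟨e A, (e A).2, e B, (e B).2, r, fun c => ne (e.injective (Subtype.ext c)), r0, r1, ?_⟩
    ext C
    simp only [mem_ofPred_eq]
    refine and_congr_right fun hC => ?_
    have := Set.ext_iff.1 h (e.symm ⟨C, hC⟩)
    simpa [he] using this
  · rintro ⟨A, hA, B, hB, r, ne, r0, r1, h⟩
    refine ⟨e.symm ⟨A, hA⟩, e.symm ⟨B, hB⟩, r,
      fun c => ne (congrArg Subtype.val (e.symm.injective c)), r0, r1, ?_⟩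
    ext C
    have := Set.ext_iff.1 h (e C)
    simpa [he] using this

lemma fin_ne (he : ∀ x y : X, dist x y = d (e x) (e y)) (O : X) (a : ℝ) :
    {Y | dist O Y = a}.Nonempty ↔ {Y ∈ M | d (e O) Y = a}.Nonempty := by
  constructor
  · rintro ⟨Y, h⟩
    exact ⟨e Y, (e Y).2, by rw [← he]; exact h⟩
  · rintro ⟨Y, hY, h⟩
    exact ⟨e.symm ⟨Y, hY⟩, by simpa [he] using h⟩

lemma fin_emb (he : ∀ x y : X, dist x y = d (e x) (e y)) {U : Set E2} (i : X ≃ᵢ U) : Emb M d := by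
  classical
  refine ⟨fun p => if h : p ∈ M then (i (e.symm ⟨p, h⟩) : E2) else 0, fun x hx y hy => ?_⟩
  simp only [hx, hy, dif_pos]
  rw [← Subtype.dist_eq, i.dist_eq, he]
  simp

end

lemma fin_conv {M : Set P} {d : P → P → ℝ} (pm : PM M d) {φ : P → E2}
    (hφ : ∀ x ∈ M, ∀ y ∈ M, d x y = dist (φ x) (φ y)) : Convex ℝ (φ '' M) := by
  rw [convex_iff_segment_subset]
  rintro _ ⟨x, hx, rfl⟩ _ ⟨z, hz, rfl⟩ w hw
  have hw' := dist_add_dist_of_mem_segment hw
  obtain ⟨t, ht, h⟩ := conv_ivt pm hx hz (a := dist (φ x) w) dist_nonneg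
    (by rw [hφ x hx z hz]; linarith [dist_nonneg (x := w) (y := φ z)])
  have hy := pm.seg_mem hx hz ht.1 ht.2
  have ad := pm.add hx hz ht.1 ht.2
  refine ⟨_, hy, ?_⟩
  set y := x + t • (z - x)
  rw [hφ x hx y hy, hφ y hy z hz, hφ x hx z hz] at ad
  rw [hφ x hx y hy] at h
  have s1 : Wbtw ℝ (φ x) (φ y) (φ z) := dist_add_dist_eq_iff.1 ad
  have s2 : Wbtw ℝ (φ x) w (φ z) := dist_add_dist_eq_iff.1 hw'
  obtain ⟨a, ha, e1⟩ := s1
  obtain ⟨b, hb, e2⟩ := s2
  rw [← e1, ← e2] at h ⊢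
  simp only [dist_left_lineMap, Real.norm_eq_abs, abs_of_nonneg ha.1, abs_of_nonneg hb.1] at h
  rcases mul_eq_mul_right_iff.1 h with h | h
  · rw [h]
  · rw [dist_eq_zero.1 h]; simp

lemma fin_open {M : Set P} {d : P → P → ℝ} (pm : PM M d) {φ : P → E2}
    (hφ : ∀ x ∈ M, ∀ y ∈ M, d x y = dist (φ x) (φ y)) : IsOpen (φ '' M) := by
  have cv := fin_conv pm hφ
  have ne : (interior (φ '' M)).Nonempty := by
    rw [cv.interior_nonempty_iff_affineSpan_eq_top]
    obtain ⟨x, hx⟩ := pm.nonempty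
    obtain ⟨s, s0, hs⟩ := conv_ext pm hx (1, 0)
    obtain ⟨t, t0, ht⟩ := conv_ext pm hx (0, 1)
    set y := x + s • ((1, 0) : P) with ey
    set z := x + t • ((0, 1) : P) with ez
    have ai : AffineIndependent ℝ ![φ x, φ y, φ z] := by
      rw [affineIndependent_iff_not_collinear_set]
      have key : ∀ u ∈ M, ∀ v ∈ M, ∀ w ∈ M, Wbtw ℝ (φ u) (φ v) (φ w) → v ∈ segment ℝ u w := by
        intro u hu v hv w hw h
        rw [← pm.straight u hu v hv w hw, hφ u hu v hv, hφ v hv w hw, hφ u hu w hw]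
        exact dist_add_dist_eq_iff.2 h
      intro h
      rcases h.wbtw_or_wbtw_or_wbtw with (h | h | h)
      · obtain ⟨a, b, a0, b0, ab, h⟩ := key x hx y hs z ht h
        have h1 := congrArg Prod.fst h
        simp only [ey, ez, Prod.fst_add, Prod.smul_fst, smul_eq_mul] at h1
        have : (a + b) * x.1 = x.1 := by rw [ab, one_mul]
        nlinarith
      · obtain ⟨a, b, a0, b0, ab, h⟩ := key y hs z ht x hx h
        have h1 := congrArg Prod.snd h
        simp only [ey, ez, Prod.snd_add, Prod.smul_snd, smul_eq_mul] at h1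
        have : (a + b) * x.2 = x.2 := by rw [ab, one_mul]
        nlinarith
      · obtain ⟨a, b, a0, b0, ab, h⟩ := key z ht x hx y hs h
        have h1 := congrArg Prod.fst h
        have h2 := congrArg Prod.snd h
        simp only [ey, ez, Prod.fst_add, Prod.smul_fst, Prod.snd_add, Prod.smul_snd,
          smul_eq_mul] at h1 h2
        have e1 : (a + b) * x.1 = x.1 := by rw [ab, one_mul]
        have e2 : (a + b) * x.2 = x.2 := by rw [ab, one_mul]
        have b1 : b * s = 0 := by linarith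
        have a1 : a * t = 0 := by linarith
        rcases mul_eq_zero.1 b1 with b1 | b1
        · rcases mul_eq_zero.1 a1 with a1 | a1
          · linarith
          · linarith
        · linarith
    have top := ai.affineSpan_eq_top_iff_card_eq_finrank_add_one.2 (by simp)
    refine top_unique (top ▸ affineSpan_mono ℝ ?_)
    rintro _ ⟨i, rfl⟩
    fin_cases i
    · exact ⟨x, hx, rfl⟩
    · exact ⟨y, hs, rfl⟩
    · exact ⟨z, ht, rfl⟩
  obtain ⟨w, hw⟩ := ne
  obtain ⟨y, hy, rfl⟩ := interior_subset hw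
  rw [← subset_interior_iff_isOpen]
  rintro _ ⟨x, hx, rfl⟩
  by_cases xy : x = y
  · rw [xy]; exact hw
  obtain ⟨t, t0, ht⟩ := conv_ext pm hx (x - y)
  set z := x + t • (x - y) with ez
  have zx : x ≠ z := by
    intro c
    have : t • (x - y) = 0 := by
      have := congrArg (fun u => u - x) c
      simpa [ez] using this.symm
    rcases smul_eq_zero.1 this with h | h
    · exact t0.ne' h
    · exact xy (sub_eq_zero.1 h)
  have sg : x ∈ segment ℝ y z := by
    refine ⟨t / (1 + t), 1 / (1 + t), by positivity, by positivity, by field_simp; ring, ?_⟩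
    rw [ez]
    ext <;> simp <;> field_simp <;> ring
  have ad := (pm.straight y hy x hx z ht).2 sg
  rw [hφ y hy x hx, hφ x hx z ht, hφ y hy z ht] at ad
  have s1 : φ x ∈ segment ℝ (φ y) (φ z) :=
    mem_segment_iff_wbtw.2 (dist_add_dist_eq_iff.1 ad)
  refine cv.openSegment_interior_self_subset_interior hw ⟨z, ht, rfl⟩
    (mem_openSegment_of_ne_left_right ?_ ?_ s1)
  · intro c
    have := pm.pos hx hy xy
    rw [hφ x hx y hy, c, dist_self] at this
    exact lt_irrefl _ this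
  · intro c
    have := pm.pos hx ht zx
    rw [hφ x hx z ht, c, dist_self] at this
    exact lt_irrefl _ this

variable {X : Type} [MetricSpace X]

lemma fin_iso {M : Set P} {d : P → P → ℝ} {e : X ≃ M} (pm : PM M d)
    (he : ∀ x y : X, dist x y = d (e x) (e y)) (h : Emb M d) :
    ∃ U : Set E2, IsOpen U ∧ Convex ℝ U ∧ Nonempty (X ≃ᵢ U) := by
  obtain ⟨φ, hφ⟩ := h
  have iso : Isometry fun x : X => φ (e x) :=
    Isometry.of_dist_eq fun x y => by rw [he, hφ _ (e x).2 _ (e y).2]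
  have rg : range (fun x : X => φ (e x)) = φ '' M := by
    ext w
    constructor
    · rintro ⟨x, rfl⟩; exact ⟨e x, (e x).2, rfl⟩
    · rintro ⟨x, hx, rfl⟩; exact ⟨e.symm ⟨x, hx⟩, by simp⟩
  refine ⟨_, ?_, ?_, ⟨iso.isometryEquivOnRange⟩⟩
  · rw [rg]; exact fin_open pm hφ
  · rw [rg]; exact fin_conv pm hφ

lemma proj_not_ap (h : ProjType X) :
    ¬ ∀ (O : X) (a : ℝ), 0 < a → {Y | dist O Y = a}.Nonempty → Apo X O a := by
  obtain ⟨e, L, L0, h⟩ := h
  intro ap
  let m : MetricSpace (Projectivization ℝ (Fin 3 → ℝ)) := MetricSpace.induced e e.injective inferInstance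
  let O : Projectivization ℝ (Fin 3 → ℝ) := Projectivization.mk ℝ (fun _ => 1) (by
    intro c; simpa using congrFun c 0)
  obtain ⟨⟨Y, hY⟩, k⟩ := t_rp2 m L L0 h O
  obtain ⟨A, B, r, ne, r0, -, q⟩ := ap (e O) (L / 2) (by linarith) ⟨e Y, hY⟩
  refine k (e.symm A) (e.symm B) r (fun c => ne (e.symm.injective c)) r0 ?_
  ext C
  have := Set.ext_iff.1 q (e C)
  change dist (e O) (e C) = L / 2 ↔ dist (e (e.symm A)) (e C) / dist (e C) (e (e.symm B)) = r
  simpa using this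

lemma proj_not_emb (h : ProjType X) {U : Set E2} (i : X ≃ᵢ U) : False := by
  obtain ⟨e, L, L0, h⟩ := h
  obtain ⟨V, hV⟩ : ∃ V : Submodule ℝ (Fin 3 → ℝ), Module.finrank ℝ V = 2 := by
    obtain ⟨f, hf⟩ := exists_linearIndependent_of_le_finrank (R := ℝ) (M := Fin 3 → ℝ) (n := 2)
      (by simp)
    exact ⟨_, by simpa using finrank_span_eq_card hf⟩
  obtain ⟨γ, -, h⟩ := h V hV
  have nm : ∀ u : ℝ, |u| ≤ L / 2 → ‖(u : AddCircle L)‖ = |u| := fun u hu =>
    (AddCircle.norm_coe_eq_abs_iff L L0.ne').2 (by rwa [abs_of_pos L0])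
  have ds : ∀ s t : ℝ, dist (i (e (γ s)) : E2) (i (e (γ t))) = ‖((s - t : ℝ) : AddCircle L)‖ := by
    intro s t
    rw [← Subtype.dist_eq, i.dist_eq, h]
  have q : |L / 4| = L / 4 := abs_of_pos (by linarith)
  have hf : |L / 2| = L / 2 := abs_of_pos (by linarith)
  have d0 : dist (i (e (γ (L / 2))) : E2) (i (e (γ 0))) = L / 2 := by
    rw [ds, sub_zero, nm _ hf.le, hf]
  have m1 : (i (e (γ (L / 4))) : E2) = midpoint ℝ (i (e (γ (L / 2))) : E2) (i (e (γ 0))) := by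
    apply eq_midpoint_of_dist_eq_half
    · rw [d0, ds, show L / 2 - L / 4 = L / 4 by ring, nm _ (by rw [q]; linarith), q]; ring
    · rw [d0, ds, sub_zero, nm _ (by rw [q]; linarith), q]; ring
  have m2 : (i (e (γ (3 * L / 4))) : E2) = midpoint ℝ (i (e (γ (L / 2))) : E2) (i (e (γ 0))) := by
    apply eq_midpoint_of_dist_eq_half
    · rw [d0, dist_comm, ds, show 3 * L / 4 - L / 2 = L / 4 by ring, nm _ (by rw [q]; linarith), q]
      ring
    · rw [d0, dist_comm, ds, show 0 - 3 * L / 4 = L / 4 + -L by ring, AddCircle.coe_add,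
        AddCircle.coe_neg, AddCircle.coe_period, neg_zero, add_zero, nm _ (by rw [q]; linarith), q]
      ring
  have := ds (3 * L / 4) (L / 4)
  rw [m1, m2, dist_self, show 3 * L / 4 - L / 4 = L / 2 by ring, nm _ hf.le, hf] at this
  linarith

theorem tfae (h : AffType X ∨ ProjType X) :
    List.TFAE [∀ (O : X) (a : ℝ), 0 < a → {Y | dist O Y = a}.Nonempty → Apo X O a,
      AffType X ∧ ∀ O : X, ∃ a0 : ℝ, 0 < a0 ∧ ∀ a : ℝ, 0 < a → a < a0 → Apo X O a,
      ∃ U : Set E2, IsOpen U ∧ Convex ℝ U ∧ Nonempty (X ≃ᵢ U)] := by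
  tfae_have 1 → 2 := by
    intro ap
    rcases h with h | h
    · refine ⟨h, fun O => ?_⟩
      obtain ⟨M, W, d, F, e, pm, he, -⟩ := h
      obtain ⟨a0, h0, k⟩ := (t_conv M d pm).2.1 (e O) (e O).2
      exact ⟨a0, h0, fun a a1 a2 => ap O a a1 ((fin_ne he O a).2 (k a a1 a2))⟩
    · exact (proj_not_ap h ap).elim
  tfae_have 2 → 3 := by
    rintro ⟨⟨M, W, d, F, e, pm, he, oW, sub, de, fi⟩, ap⟩
    refine fin_iso pm he (main pm oW sub de fi fun O hO => ?_).2
    obtain ⟨a0, h0, k⟩ := ap (e.symm ⟨O, hO⟩)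
    exact ⟨a0, h0, fun a a1 a2 => by simpa using (fin_apo he _ a).1 (k a a1 a2)⟩
  tfae_have 3 → 1 := by
    rintro ⟨U, -, -, ⟨i⟩⟩ O a a0 ne
    rcases h with h | h
    · obtain ⟨M, W, d, F, e, pm, he, -⟩ := h
      exact (fin_apo he O a).2 ((t_conv M d pm).1 (fin_emb he i) _ (e O).2 a a0
        ((fin_ne he O a).1 ne))
    · exact (proj_not_emb h i).elim
  tfae_finish

theorem literal (h : AffType X ∨ ProjType X) :
    (∀ (O : X) (a : ℝ), 0 < a → Apo X O a) ↔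
      ∃ U : Set E2, IsOpen U ∧ Convex ℝ U ∧ ¬ Bornology.IsBounded U ∧ Nonempty (X ≃ᵢ U) := by
  constructor
  · intro ap
    have h1 : ∀ (O : X) (a : ℝ), 0 < a → {Y | dist O Y = a}.Nonempty → Apo X O a :=
      fun O a a0 _ => ap O a a0
    obtain ⟨U, oU, cU, ⟨i⟩⟩ := ((tfae h).out 0 2).1 h1
    obtain ⟨⟨M, W, d, F, e, pm, he, -⟩, -⟩ := ((tfae h).out 0 1).1 h1
    refine ⟨U, oU, cU, fun hb => ?_, ⟨i⟩⟩
    obtain ⟨C, hC⟩ := Metric.isBounded_iff.1 hb
    obtain ⟨x, hx⟩ := pm.nonempty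
    set O := e.symm ⟨x, hx⟩
    obtain ⟨Y, hY⟩ := (fin_ne he O (|C| + 1)).2 ((t_conv M d pm).2.2.1 _ (e O).2 _
      ((fin_apo he O _).1 (ap O _ (by positivity))))
    have := hC (i O).2 (i Y).2
    rw [← Subtype.dist_eq, i.dist_eq, show dist O Y = |C| + 1 from hY] at this
    linarith [le_abs_self C]
  · rintro ⟨U, oU, cU, hb, ⟨i⟩⟩ O a a0
    have h3 : ∃ U : Set E2, IsOpen U ∧ Convex ℝ U ∧ Nonempty (X ≃ᵢ U) := ⟨U, oU, cU, ⟨i⟩⟩
    obtain ⟨⟨M, W, d, F, e, pm, he, -⟩, -⟩ := ((tfae h).out 2 1).1 h3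
    have h1 : ∀ (O : X) (a : ℝ), 0 < a → {Y | dist O Y = a}.Nonempty → Apo X O a :=
      ((tfae h).out 2 0).1 h3
    refine h1 O a a0 ((fin_ne he O a).2 ((t_conv M d pm).2.2.2 (fun R => ?_) _ (e O).2 a a0))
    by_contra c
    push Not at c
    refine hb (Metric.isBounded_iff.2 ⟨R, fun u hu v hv => ?_⟩)
    have := c _ (e (i.symm ⟨u, hu⟩)).2 _ (e (i.symm ⟨v, hv⟩)).2
    rwa [← he, i.symm.dist_eq] at this

theorem complete (h : AffType X ∨ ProjType X) [CompleteSpace X] :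
    (∀ (O : X) (a : ℝ), 0 < a → {Y | dist O Y = a}.Nonempty → Apo X O a) ↔ Nonempty (X ≃ᵢ E2) := by
  constructor
  · intro h1
    obtain ⟨U, oU, cU, ⟨i⟩⟩ := ((tfae h).out 0 2).1 h1
    obtain ⟨⟨M, W, d, F, e, pm, he, -⟩, -⟩ := ((tfae h).out 0 1).1 h1
    obtain ⟨x, hx⟩ := pm.nonempty
    have : CompleteSpace U := i.completeSpace_iff.1 inferInstance
    have cl : IsClosed U := (completeSpace_coe_iff_isComplete.1 this).isClosed
    have un : U = univ := IsClopen.eq_univ ⟨cl, oU⟩ ⟨_, (i (e.symm ⟨x, hx⟩)).2⟩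
    subst un
    exact ⟨i.trans { toEquiv := Equiv.Set.univ E2, isometry_toFun := isometry_subtype_coe }⟩
  · rintro ⟨i⟩
    have h3 : ∃ U : Set E2, IsOpen U ∧ Convex ℝ U ∧ Nonempty (X ≃ᵢ U) := ⟨univ, isOpen_univ,
      convex_univ, ⟨i.trans (IsometryEquiv.symm
        { toEquiv := Equiv.Set.univ E2, isometry_toFun := isometry_subtype_coe })⟩⟩
    exact ((tfae h).out 2 0).1 h3

end Pool.Agent.P.MP_874adf_gt.Fs
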