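import Pool.Agent.P.MP_874adf_gt.Fs.Base

/-! Algebraic identities for the models. -/

set_option autoImplicit false

namespace Pool.Agent.P.MP_874adf_gt.Fs

open Set Filter Topology Metric

lemma lagrange (p q s : ℝ) (v w : P) :
    bf p q s v v * bf p q s w w - bf p q s v w ^ 2 = (p * s - q ^ 2) * wed v w ^ 2 := by
  simp only [bf, wed]; ring

lemma bf_comm (p q s : ℝ) (v w : P) : bf p q s v w = bf p q s w v := by
  simp only [bf]; ring

lemma bf_add_left (p q s : ℝ) (u v w : P) : bf p q s (u + v) w = bf p q s u w + bf p q s v w := by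
  simp only [bf, Prod.fst_add, Prod.snd_add]; ring

lemma bf_smul_left (p q s t : ℝ) (v w : P) : bf p q s (t • v) w = t * bf p q s v w := by
  simp only [bf, Prod.smul_fst, Prod.smul_snd, smul_eq_mul]; ring

lemma bf_smul_smul (p q s t : ℝ) (v : P) : bf p q s (t • v) (t • v) = t ^ 2 * bf p q s v v := by
  simp only [bf, Prod.smul_fst, Prod.smul_snd, smul_eq_mul]; ring

lemma bf_pos {p q s : ℝ} (hp : 0 < p) (hd : 0 < p * s - q ^ 2) {v : P} (hv : v ≠ 0) :
    0 < bf p q s v v := by
  have e : p * bf p q s v v = (p * v.1 + q * v.2) ^ 2 + (p * s - q ^ 2) * v.2 ^ 2 := by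
    simp only [bf]; ring
  have : 0 < p * bf p q s v v := by
    rw [e]
    rcases eq_or_ne v.2 0 with h | h
    · have h1 : v.1 ≠ 0 := fun h1 => hv (Prod.ext h1 h)
      rw [h]
      have : 0 < (p * v.1) ^ 2 := by positivity
      simpa using this
    · positivity
  exact (mul_pos_iff_of_pos_left hp).1 this

lemma bf_nonneg {p q s : ℝ} (hp : 0 < p) (hd : 0 < p * s - q ^ 2) (v : P) : 0 ≤ bf p q s v v := by
  rcases eq_or_ne v 0 with rfl | hv
  · simp [bf]
  · exact (bf_pos hp hd hv).le

lemma bf_cont (p q s : ℝ) : Continuous fun z : P × P => bf p q s z.1 z.2 := by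
  simp only [bf]; fun_prop

lemma wed_cont : Continuous fun z : P × P => wed z.1 z.2 := by
  simp only [wed]; fun_prop

/-- coefficients of a quadratic norm are positive definite -/
lemma IsN.posdef {N : P → ℝ} (h : IsN N) {p q s : ℝ} (e : ∀ v, N v ^ 2 = bf p q s v v) :
    0 < p ∧ 0 < p * s - q ^ 2 := by
  have h1 : 0 < p := by
    have := e (1, 0)
    have h0 := h.pos (1, 0) (by simp)
    simp only [bf] at this
    nlinarith
  refine ⟨h1, ?_⟩
  have := e (-q, p)
  have h0 := h.pos (-q, p) (by simp [h1.ne'])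
  simp only [bf] at this
  have e2 : p * (p * s - q ^ 2) = N (-q, p) ^ 2 := by rw [this]; ring
  exact (mul_pos_iff_of_pos_left h1).1 (by rw [e2]; positivity)

/-- the rotation by a right angle for the form `bf p q s` -/
def rot (p q s : ℝ) (v : P) : P := (-(q * v.1 + s * v.2), p * v.1 + q * v.2)

lemma bf_rot (p q s : ℝ) (v w : P) : bf p q s w (rot p q s v) = (p * s - q ^ 2) * wed v w := by
  simp only [bf, rot, wed]; ring

lemma wed_rot (p q s : ℝ) (v : P) : wed v (rot p q s v) = bf p q s v v := by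
  simp only [bf, rot, wed]; ring

/-- the linear map in the model form -/
def Tm (o b X v : P) : P := v + wed (X - o) v • b

lemma Qm_eq (o b : P) (p q s k : ℝ) (X v : P) :
    Qm o b p q s k X v = bf p q s (Tm o b X v) (Tm o b X v) + k * wed (X - o) v ^ 2 := rfl

lemma wed_Tm (o b X v w : P) : wed (Tm o b X v) (Tm o b X w) = ell o b X * wed v w := by
  simp only [Tm, wed, ell, Prod.fst_add, Prod.snd_add, Prod.smul_fst, Prod.smul_snd, smul_eq_mul,
    Prod.fst_sub, Prod.snd_sub]
  ring

lemma Tm_sub (o b X Y : P) : Tm o b X (X - Y) = ell o b Y • (X - o) - ell o b X • (Y - o) := by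
  ext <;> simp only [Tm, wed, ell, Prod.fst_add, Prod.snd_add, Prod.smul_fst, Prod.smul_snd,
    smul_eq_mul, Prod.fst_sub, Prod.snd_sub] <;> ring

lemma ell_line (o b X v : P) (t : ℝ) : ell o b (X + t • v) = ell o b X + t * wed v b := by
  simp only [wed, ell, Prod.fst_add, Prod.snd_add, Prod.smul_fst, Prod.smul_snd, smul_eq_mul,
    Prod.fst_sub, Prod.snd_sub]
  ring

lemma ell_self (o b : P) : ell o b o = 1 := by simp [ell, wed]

lemma ell_cont (o b : P) : Continuous (ell o b) := by
  unfold ell wed; fun_prop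

/-- polar form of `Dm` -/
def Bm (o b : P) (p q s k : ℝ) (X Y : P) : ℝ :=
  (p * s - q ^ 2) * ell o b X * ell o b Y + k * bf p q s (X - o) (Y - o)

lemma curv_ident (o b : P) (p q s k : ℝ) (X Y : P) :
    (p * s - q ^ 2) * k * Qm o b p q s k X (X - Y) =
      Dm o b p q s k X * Dm o b p q s k Y - Bm o b p q s k X Y ^ 2 := by
  simp only [Qm, Dm, Bm, bf, wed, ell, Prod.fst_add, Prod.snd_add, Prod.smul_fst, Prod.smul_snd,
    smul_eq_mul, Prod.fst_sub, Prod.snd_sub]
  ring

/-- the determinant of the model form -/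
lemma det_ident (o b : P) (p q s k : ℝ) (X : P) :
    Qm o b p q s k X (1, 0) * Qm o b p q s k X (0, 1) -
      ((Qm o b p q s k X (1, 1) - Qm o b p q s k X (1, 0) - Qm o b p q s k X (0, 1)) / 2) ^ 2 =
      Dm o b p q s k X := by
  simp only [Qm, Dm, bf, wed, ell, Prod.fst_add, Prod.snd_add, Prod.smul_fst, Prod.smul_snd,
    smul_eq_mul, Prod.fst_sub, Prod.snd_sub]
  ring

lemma ell_hc (o b : P) {y : P} (hy : 1 - wed y b ≠ 0) : ell o b (hc o b y) = (1 - wed y b)⁻¹ := by
  have : wed (hc o b y - o) b = (1 - wed y b)⁻¹ * wed y b := by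
    simp only [hc, wed, add_sub_cancel_left, Prod.smul_fst, Prod.smul_snd, smul_eq_mul]; ring
  rw [ell, this]
  field_simp
  ring

lemma ch_hc (o b : P) {y : P} (hy : 1 - wed y b ≠ 0) : ch o b (hc o b y) = y := by
  rw [ch, ell_hc o b hy, inv_inv, hc, add_sub_cancel_left, smul_smul, mul_inv_cancel₀ hy, one_smul]

lemma wed_ch (o b : P) {X : P} (hX : ell o b X ≠ 0) : 1 - wed (ch o b X) b = (ell o b X)⁻¹ := by
  have : wed (ch o b X) b = (ell o b X)⁻¹ * wed (X - o) b := by
    simp only [ch, wed, Prod.smul_fst, Prod.smul_snd, smul_eq_mul]; ring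
  rw [this]
  field_simp
  simp [ell]

lemma hc_ch (o b : P) {X : P} (hX : ell o b X ≠ 0) : hc o b (ch o b X) = X := by
  rw [hc, wed_ch o b hX, inv_inv, ch, smul_smul, mul_inv_cancel₀ hX, one_smul, add_sub_cancel]

lemma ch_sub (o b : P) {X Y : P} (hX : ell o b X ≠ 0) (hY : ell o b Y ≠ 0) :
    ch o b X - ch o b Y = (ell o b X * ell o b Y)⁻¹ • Tm o b X (X - Y) := by
  rw [Tm_sub, smul_sub, smul_smul, smul_smul, ch, ch]
  congr 2 <;> field_simp

/-- a linear isometry from the form to the Euclidean plane -/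
lemma cholesky {p q s : ℝ} (hp : 0 < p) (hd : 0 < p * s - q ^ 2) {c : ℝ} (hc : 0 < c) :
    ∃ T : P ≃ₗ[ℝ] E2, ∀ v, ‖T v‖ = √(bf p q s v v) / c := by
  have sp : 0 < √p := Real.sqrt_pos.2 hp
  have sd : 0 < √(p * s - q ^ 2) := Real.sqrt_pos.2 hd
  let L : P →ₗ[ℝ] E2 :=
    { toFun := fun v => !₂[(p * v.1 + q * v.2) / (√p * c), √(p * s - q ^ 2) * v.2 / (√p * c)]
      map_add' := fun v w => by
        ext i; fin_cases i <;> simp <;> ring
      map_smul' := fun t v => by
        ext i; fin_cases i <;> simp <;> ring }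
  have hL : ∀ v, ‖L v‖ = √(bf p q s v v) / c := fun v => by
    rw [← sq_eq_sq₀ (norm_nonneg _) (by positivity), EuclideanSpace.real_norm_sq_eq,
      Fin.sum_univ_two, div_pow, Real.sq_sqrt (bf_nonneg hp hd v)]
    change ((p * v.1 + q * v.2) / (√p * c)) ^ 2 + (√(p * s - q ^ 2) * v.2 / (√p * c)) ^ 2 = _
    simp only [div_pow, mul_pow, Real.sq_sqrt hp.le, Real.sq_sqrt hd.le, bf]
    field_simp
    ring
  have inj : Function.Injective L := (injective_iff_map_eq_zero _).2 fun v hv => by
    by_contra h0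
    have := hL v
    rw [hv, norm_zero] at this
    have h1 := Real.sqrt_pos.2 (bf_pos hp hd h0)
    have : 0 < √(bf p q s v v) / c := by positivity
    linarith
  exact ⟨L.linearEquivOfInjective inj (by simp), hL⟩

end Pool.Agent.P.MP_874adf_gt.Fs
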