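import Pool.Agent.P.MP_874adf_gt.Fs.Defs

/-! Internal definitions and the statements of the steps. -/

set_option autoImplicit false

namespace Pool.Agent.P.MP_874adf_gt.Fs

open Set Filter Topology Metric

abbrev P := ℝ × ℝ

/-- the determinant of two plane vectors -/
def wed (v w : P) : ℝ := v.1 * w.2 - v.2 * w.1

/-- symmetric bilinear form with matrix (p q; q s) -/
def bf (p q s : ℝ) (v w : P) : ℝ := p * v.1 * w.1 + q * (v.1 * w.2 + v.2 * w.1) + s * v.2 * w.2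

structure IsN (N : P → ℝ) : Prop where
  smul : ∀ (t : ℝ) (v : P), N (t • v) = |t| * N v
  add : ∀ v w : P, N (v + w) ≤ N v + N w
  pos : ∀ v : P, v ≠ 0 → 0 < N v

/-- strict convexity -/
def SC (N : P → ℝ) : Prop := ∀ v w : P, wed v w ≠ 0 → N (v + w) < N v + N w

def Quad (N : P → ℝ) : Prop := ∃ p q s : ℝ, ∀ v : P, N v ^ 2 = bf p q s v v

/-- strict differentiability of the metric on the dense open set `W` -/
structure SD (M W : Set P) (d F : P → P → ℝ) : Prop where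
  pm : PM M d
  openW : IsOpen W
  sub : W ⊆ M
  dense : M ⊆ closure W
  cont : ContinuousOn (fun p : P × P => F p.1 p.2) (W ×ˢ univ)
  isN : ∀ x ∈ W, IsN (F x)
  strict : ∀ x ∈ W, ∀ ε > 0, ∃ δ > 0, ball x δ ⊆ W ∧
    ∀ y ∈ ball x δ, ∀ z ∈ ball x δ, |d y z - F x (z - y)| ≤ ε * ‖z - y‖

/-- every ray from `O` meets the circle of radius `a` -/
def Ray (M : Set P) (d : P → P → ℝ) (O : P) (a : ℝ) : Prop :=
  ∀ v : P, v ≠ 0 → ∃ t > (0 : ℝ), O + t • v ∈ M ∧ d O (O + t • v) = a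

/-- position of the two foci `A = O + l • (B - O)` and `B` of a small Apollonius circle -/
structure Foc (M : Set P) (d : P → P → ℝ) (O : P) (a : ℝ) (B : P) (l r : ℝ) : Prop where
  mem : B ∈ M
  ne : B ≠ O
  l0 : 0 < l
  l1 : l < 1
  r0 : 0 < r
  r1 : r < 1
  dA : d O (O + l • (B - O)) = r * a
  dB : d O B = a / r
  on : ∀ C ∈ M, d O C = a → d (O + l • (B - O)) C = r * d B C
  ins : ∀ C ∈ M, d O C < a → d (O + l • (B - O)) C < r * d B C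

def AllStr (M : Set P) (d : P → P → ℝ) : Prop :=
  ∀ O ∈ M, ∃ a0 > (0 : ℝ), ∀ a, 0 < a → a < a0 → Ray M d O a ∧ ∃ B l r, Foc M d O a B l r

def CaseR (N : P → ℝ) (u : P) : Prop :=
  ∃ r : ℝ, 0 < r ∧ r < 1 ∧ ∀ X, N X = 1 → N (X - r • u) = N (r • X - u)

def Case1 (N : P → ℝ) (u : P) : Prop :=
  ∀ X, N X = 1 → ∀ s > (0 : ℝ), N (u - X) - N (u - X - s • u) ≤ s * N (u - X) / 2 ∧
    s * N (u - X) / 2 ≤ N (u - X + s • u) - N (u - X)

def Case0 (N : P → ℝ) (u : P) : Prop :=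
  ∃ b : P → ℝ, b 0 = 0 ∧ (∀ X Y, b X - b Y ≤ N (X - Y)) ∧ (∀ X (t : ℝ), b (X + t • u) = b X + t) ∧
    ∀ X, N X = 1 → ∀ s > (0 : ℝ), N X - N (X - s • u) ≤ s * b X ∧ s * b X ≤ N (X + s • u) - N X

/-- blow-up data at `x` along an ultrafilter of radii tending to zero -/
structure Blow (M : Set P) (d F : P → P → ℝ) (x : P) (U : Ultrafilter ℝ) (B : ℝ → P) (l r : ℝ → ℝ)
    (u : P) (ρ : ℝ) : Prop where
  le : (U : Filter ℝ) ≤ 𝓝[>] 0
  ev : ∀ᶠ a in (U : Filter ℝ), Ray M d x a ∧ Foc M d x a (B a) (l a) (r a)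
  tu : Tendsto (fun a => (F x (B a - x))⁻¹ • (B a - x)) U (𝓝 u)
  tr : Tendsto r U (𝓝 ρ)

/-- the affine function vanishing on the line at infinity -/
def ell (o b X : P) : ℝ := 1 + wed (X - o) b

def Qm (o b : P) (p q s k : ℝ) (X v : P) : ℝ :=
  bf p q s (v + wed (X - o) v • b) (v + wed (X - o) v • b) + k * wed (X - o) v ^ 2

def Dm (o b : P) (p q s k : ℝ) (X : P) : ℝ :=
  (p * s - q ^ 2) * ell o b X ^ 2 + k * bf p q s (X - o) (X - o)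

/-- the constant curvature models in an arbitrary projective chart -/
structure Model (W : Set P) (F : P → P → ℝ) (o b : P) (p q s k : ℝ) : Prop where
  mem : o ∈ W
  p0 : 0 < p
  det : 0 < p * s - q ^ 2
  D0 : ∀ X ∈ W, 0 < Dm o b p q s k X
  eq : ∀ X ∈ W, ∀ v, F X v = √(Qm o b p q s k X v) / Dm o b p q s k X

/-- the Euclidean chart of the flat model -/
noncomputable def ch (o b X : P) : P := (ell o b X)⁻¹ • (X - o)

/-- the flat model: `d` is the Euclidean distance in the projective chart `ch` -/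
structure Flat (M : Set P) (d : P → P → ℝ) (o b : P) (p q s : ℝ) : Prop where
  mem : o ∈ M
  p0 : 0 < p
  det : 0 < p * s - q ^ 2
  l0 : ∀ X ∈ M, 0 < ell o b X
  eq : ∀ X ∈ M, ∀ Y ∈ M,
    d X Y = √(bf p q s (ch o b X - ch o b Y) (ch o b X - ch o b Y)) / (p * s - q ^ 2)

/-- the infinitesimal form of the Apollonius property at points of `W` -/
def Conic (M W : Set P) (d F : P → P → ℝ) : Prop :=
  ∀ O ∈ M, ∀ a B l r, Foc M d O a B l r → ∀ C ∈ W, d O C = a → wed (C - O) (B - O) ≠ 0 →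
    l * F C (C - B) = r * F C (C - (O + l • (B - O)))

/-- derivative of the distance from `O` at a point of `W` with quadratic norm -/
def Grad (M W : Set P) (d F : P → P → ℝ) : Prop :=
  ∀ y ∈ W, ∀ p q s : ℝ, (∀ v, F y v ^ 2 = bf p q s v v) → ∀ O ∈ M, O ≠ y → ∀ w : P,
    HasDerivAt (fun t : ℝ => d O (y + t • w)) (bf p q s (y - O) w / F y (y - O)) 0

/-- data of the propagation step, in the Euclidean chart -/
structure Pre (U V : Set P) (e : P → P → ℝ) (p q s : ℝ) : Prop where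
  p0 : 0 < p
  det : 0 < p * s - q ^ 2
  openU : IsOpen U
  conv : Convex ℝ U
  openV : IsOpen V
  sub : V ⊆ U
  dense : U ⊆ closure V
  cont : ContinuousOn (fun z : P × P => e z.1 z.2) (U ×ˢ U)
  symm : ∀ x ∈ U, ∀ y ∈ U, e x y = e y x
  pos : ∀ x ∈ U, ∀ y ∈ U, x ≠ y → 0 < e x y
  add : ∀ x ∈ U, ∀ z ∈ U, ∀ t ∈ Icc (0 : ℝ) 1, e x (x + t • (z - x)) + e (x + t • (z - x)) z = e x z
  lc : ∀ O ∈ U, ∀ C ∈ V, C ≠ O → ∀ᶠ X in 𝓝 C,
    e O X - √(bf p q s (X - O) (X - O)) = e O C - √(bf p q s (C - O) (C - O))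
  con : ∀ O ∈ U, ∃ a0 > (0 : ℝ), ∀ a, 0 < a → a < a0 → ∃ (w : P) (c2 c1 c0 : ℝ), w ≠ 0 ∧ c0 ≠ 0 ∧
    ∀ C ∈ V, e O C = a → wed (C - O) w ≠ 0 →
      c2 * bf p q s (C - O) (C - O) - 2 * c1 * bf p q s (C - O) w + c0 = 0

abbrev E2 := EuclideanSpace ℝ (Fin 2)

def Emb (M : Set P) (d : P → P → ℝ) : Prop :=
  ∃ φ : P → E2, ∀ x ∈ M, ∀ y ∈ M, d x y = dist (φ x) (φ y)

def S_STRUCT : Prop := ∀ (M : Set P) (d : P → P → ℝ), PM M d →
  (∀ O ∈ M, ∃ a0 > (0 : ℝ), ∀ a, 0 < a → a < a0 → IsAp M d O a) → AllStr M d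

def S_STRICT : Prop := ∀ (M W : Set P) (d F : P → P → ℝ), PM M d → IsOpen W → W ⊆ M →
  M ⊆ closure W → Fins W d F → SD M W d F

def S_SC : Prop := ∀ (M W : Set P) (d F : P → P → ℝ), SD M W d F →
  ∀ x ∈ W, ∀ δ > (0 : ℝ), ∃ y ∈ W, dist y x < δ ∧ SC (F y)

def S_BLOW : Prop := ∀ (M W : Set P) (d F : P → P → ℝ), SD M W d F → AllStr M d → ∀ x ∈ W,
  ∃ U B l r u ρ, Blow M d F x U B l r u ρ ∧ F x u = 1 ∧ 0 ≤ ρ ∧ ρ ≤ 1

def S_BR : Prop := ∀ (M W : Set P) (d F : P → P → ℝ), SD M W d F → ∀ x ∈ W, ∀ U B l r u ρ,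
  Blow M d F x U B l r u ρ → F x u = 1 → 0 < ρ → ρ < 1 → CaseR (F x) u

def S_B1 : Prop := ∀ (M W : Set P) (d F : P → P → ℝ), SD M W d F → ∀ x ∈ W, ∀ U B l r u,
  Blow M d F x U B l r u 1 → F x u = 1 → Case1 (F x) u

def S_B0 : Prop := ∀ (M W : Set P) (d F : P → P → ℝ), SD M W d F → ∀ x ∈ W, ∀ U B l r u,
  Blow M d F x U B l r u 0 → F x u = 1 → Case0 (F x) u

def S_LR : Prop := ∀ (N : P → ℝ) (u : P), IsN N → SC N → N u = 1 → CaseR N u → Quad N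

def S_L1 : Prop := ∀ (N : P → ℝ) (u : P), IsN N → SC N → N u = 1 → Case1 N u → Quad N

def S_L0 : Prop := ∀ (N : P → ℝ) (u : P), IsN N → N u = 1 → Case0 N u → Quad N

def S_CLOSE : Prop := ∀ (M W : Set P) (d F : P → P → ℝ), SD M W d F →
  (∀ x ∈ W, ∀ δ > (0 : ℝ), ∃ y ∈ W, dist y x < δ ∧ Quad (F y)) → ∀ x ∈ W, Quad (F x)

def S_GRAD : Prop := ∀ (M W : Set P) (d F : P → P → ℝ), SD M W d F → Grad M W d F

def S_INV : Prop := ∀ (M W : Set P) (d F : P → P → ℝ), SD M W d F → Grad M W d F →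
  (∀ x ∈ W, Quad (F x)) → ∃ p q s : P → ℝ, ContinuousOn p W ∧ ContinuousOn q W ∧ ContinuousOn s W ∧
    (∀ x ∈ W, 0 < p x ∧ 0 < p x * s x - q x ^ 2 ∧
      ∀ v, F x v = √(bf (p x) (q x) (s x) v v) / (p x * s x - q x ^ 2)) ∧
    ∀ X ∈ W, ∀ Y ∈ W, bf (p X) (q X) (s X) (X - Y) (X - Y) = bf (p Y) (q Y) (s Y) (X - Y) (X - Y)

def S_ALG : Prop := ∀ (W : Set P) (F : P → P → ℝ) (p q s : P → ℝ), IsOpen W → W.Nonempty →
  ContinuousOn p W → ContinuousOn q W → ContinuousOn s W →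
  (∀ x ∈ W, 0 < p x ∧ 0 < p x * s x - q x ^ 2 ∧
      ∀ v, F x v = √(bf (p x) (q x) (s x) v v) / (p x * s x - q x ^ 2)) →
  (∀ X ∈ W, ∀ Y ∈ W, bf (p X) (q X) (s X) (X - Y) (X - Y) = bf (p Y) (q Y) (s Y) (X - Y) (X - Y)) →
  ∃ o b p0 q0 s0 k, Model W F o b p0 q0 s0 k

def S_CONIC : Prop := ∀ (M W : Set P) (d F : P → P → ℝ), SD M W d F → Grad M W d F →
  (∀ x ∈ W, Quad (F x)) → Conic M W d F

def S_CURV : Prop := ∀ (M W : Set P) (d F : P → P → ℝ), SD M W d F → AllStr M d → Conic M W d F →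
  ∀ o b p q s k, Model W F o b p q s k → k = 0

def S_PROP : Prop := ∀ (U V : Set P) (e : P → P → ℝ) (p q s : ℝ), Pre U V e p q s →
  ∀ x ∈ U, ∀ y ∈ U, e x y = √(bf p q s (x - y) (x - y))

/-- the inverse of the chart -/
noncomputable def hc (o b y : P) : P := o + (1 - wed y b)⁻¹ • y

def S_PRE : Prop := ∀ (M W : Set P) (d F : P → P → ℝ), SD M W d F → AllStr M d → Grad M W d F →
  Conic M W d F → ∀ o b p q s, Model W F o b p q s 0 →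
  Pre {y | 0 < 1 - wed y b ∧ hc o b y ∈ M} {y | 0 < 1 - wed y b ∧ hc o b y ∈ W}
    (fun y z => (p * s - q ^ 2) * d (hc o b y) (hc o b z)) p q s

def S_FLAT : Prop := ∀ (M : Set P) (d : P → P → ℝ), PM M d → ∀ o ∈ M, ∀ b p q s, 0 < p →
  0 < p * s - q ^ 2 →
  (∀ y z : P, 0 < 1 - wed y b → hc o b y ∈ M → 0 < 1 - wed z b → hc o b z ∈ M →
    (p * s - q ^ 2) * d (hc o b y) (hc o b z) = √(bf p q s (y - z) (y - z))) →
  Flat M d o b p q s ∧ Emb M d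

def S_CONV : Prop := ∀ (M : Set P) (d : P → P → ℝ), PM M d →
  (Emb M d → ∀ O ∈ M, ∀ a > (0 : ℝ), {X ∈ M | d O X = a}.Nonempty → IsAp M d O a) ∧
  (∀ O ∈ M, ∃ a0 > (0 : ℝ), ∀ a, 0 < a → a < a0 → {X ∈ M | d O X = a}.Nonempty) ∧
  (∀ O ∈ M, ∀ a, IsAp M d O a → {X ∈ M | d O X = a}.Nonempty) ∧
  ((∀ R : ℝ, ∃ x ∈ M, ∃ y ∈ M, R < d x y) → ∀ O ∈ M, ∀ a > (0 : ℝ), {X ∈ M | d O X = a}.Nonempty)

def S_CPL : Prop := ∀ (M : Set P) (d : P → P → ℝ), PM M d → ∀ o b p q s, Flat M d o b p q s →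
  (∀ x : ℕ → P, (∀ n, x n ∈ M) → (∀ ε > (0 : ℝ), ∃ N, ∀ m ≥ N, ∀ n ≥ N, d (x m) (x n) < ε) →
    ∃ y ∈ M, Tendsto (fun n => d (x n) y) atTop (𝓝 0)) →
  M = univ ∧ ∃ T : P ≃ₗ[ℝ] E2, ∀ x y, d x y = dist (T x) (T y)

/-- the cross ratio formula of the Hilbert metric -/
def Hilb (M : Set P) (d : P → P → ℝ) : Prop :=
  ∀ x ∈ M, ∀ y ∈ M, x ≠ y → ∀ p ∈ frontier M, ∀ q ∈ frontier M, x ∈ segment ℝ p y →
    y ∈ segment ℝ x q → d x y = Real.log ((‖y - p‖ * ‖x - q‖) / (‖x - p‖ * ‖y - q‖)) / 2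

def S_HILB : Prop := ∀ (M : Set P) (d : P → P → ℝ), PM M d → Bornology.IsBounded M → Hilb M d →
  (∃ F, Fins M d F) ∧ ∀ o b p q s, ¬ Flat M d o b p q s

def S_RP2 : Prop := ∀ (m : MetricSpace (Projectivization ℝ (Fin 3 → ℝ))) (L : ℝ), 0 < L →
  (∀ W : Submodule ℝ (Fin 3 → ℝ), Module.finrank ℝ W = 2 →
    ∃ γ : ℝ → Projectivization ℝ (Fin 3 → ℝ), range γ = {x | x.submodule ≤ W} ∧
      ∀ s t : ℝ, m.dist (γ s) (γ t) = ‖((s - t : ℝ) : AddCircle L)‖) →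
  ∀ O, {X | m.dist O X = L / 2}.Nonempty ∧ ∀ A B, ∀ r : ℝ, A ≠ B → 0 < r →
    {X | m.dist O X = L / 2} ≠ {C | m.dist A C / m.dist C B = r}

end Pool.Agent.P.MP_874adf_gt.Fs
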