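import Pool.Agent.P.MP_874adf_gt.Fs.L1

/-! A norm with a symmetric semi inner product along one direction is Euclidean. -/

set_option autoImplicit false

namespace Pool.Agent.P.MP_874adf_gt.Fs

open Set Filter Topology Metric

lemma l0_der {n g : ℝ → ℝ} (cg : Continuous g)
    (h : ∀ m, ∀ s > (0 : ℝ), n m - n (m - s) ≤ s * g m ∧ s * g m ≤ n (m + s) - n m) (m : ℝ) :
    HasDerivAt n (g m) m := by
  rw [hasDerivAt_iff_tendsto_slope]
  have t : Tendsto g (𝓝[≠] m) (𝓝 (g m)) := (cg.tendsto m).mono_left nhdsWithin_le_nhds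
  refine tendsto_of_tendsto_of_tendsto_of_le_of_le' (g := fun y => min (g m) (g y))
    (h := fun y => max (g m) (g y)) (by simpa using (tendsto_const_nhds (x := g m)).min t)
    (by simpa using (tendsto_const_nhds (x := g m)).max t) ?_ ?_
  · filter_upwards [self_mem_nhdsWithin] with y ne
    rw [slope_def_field]
    rcases lt_or_gt_of_ne (show y ≠ m from ne) with c | c
    · have := (h y (m - y) (by linarith)).2
      rw [add_sub_cancel] at this
      refine (min_le_right _ _).trans ?_
      rw [le_div_iff_of_neg (by linarith)]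
      linarith
    · have := (h m (y - m) (by linarith)).2
      rw [add_sub_cancel] at this
      refine (min_le_left _ _).trans ?_
      rw [le_div_iff₀ (by linarith)]
      linarith
  · filter_upwards [self_mem_nhdsWithin] with y ne
    rw [slope_def_field]
    rcases lt_or_gt_of_ne (show y ≠ m from ne) with c | c
    · have := (h m (m - y) (by linarith)).1
      rw [sub_sub_cancel] at this
      refine le_trans ?_ (le_max_left _ _)
      rw [div_le_iff_of_neg (by linarith)]
      linarith
    · have := (h y (y - m) (by linarith)).1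
      rw [sub_sub_cancel] at this
      refine le_trans ?_ (le_max_right _ _)
      rw [div_le_iff₀ (by linarith)]
      linarith

/-- the asymptote of a function with slopes at most one -/
lemma l0_asym {n : ℝ → ℝ} {K : ℝ} (cn : Continuous n) (lip : ∀ a b, a ≤ b → n b - n a ≤ b - a)
    (low : ∀ m, |m| - K ≤ n m) : ∃ c, (∀ m, c ≤ n m - m) ∧ Tendsto (fun m => n m - m) atTop (𝓝 c) ∧
      ∀ ε > (0 : ℝ), ∀ᶠ ν in atTop, ∃ m, 0 < m ∧ n m = ν ∧ ν ≤ 2 * m ∧ n (m / 2) - m / 2 < c + ε := by
  have an : Antitone fun m => n m - m := fun a b ab => by have := lip a b ab; simp only; linarith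
  have bd : BddBelow (range fun m => n m - m) := ⟨-K, by
    rintro _ ⟨m, rfl⟩
    have := low m
    have := le_abs_self m
    simp only
    linarith⟩
  have t := tendsto_atTop_ciInf an bd
  refine ⟨_, fun m => ciInf_le bd m, t, fun ε hε => ?_⟩
  obtain ⟨T, hT⟩ := eventually_atTop.1 (t.eventually (gt_mem_nhds (lt_add_of_pos_right _ hε)))
  filter_upwards [eventually_gt_atTop (2 * |n 0|), eventually_ge_atTop (4 * T)] with ν h1 h2
  have a0 := le_abs_self (n 0)
  have a1 := abs_nonneg (n 0)
  obtain ⟨m, hm, e⟩ := intermediate_value_Icc (a := 0) (b := ν + |K|) (by linarith [abs_nonneg K]) (f := n)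
    cn.continuousOn (show ν ∈ _ from ⟨by linarith, by
      have := low (ν + |K|)
      have := le_abs_self (ν + |K|)
      have := le_abs_self K
      linarith⟩)
  have := lip 0 m hm.1
  exact ⟨m, by linarith, e, by linarith, hT _ (by linarith)⟩

theorem t_l0 : S_L0 := by
  intro N u n u1 ⟨b, b0, lip, sh, h⟩
  obtain ⟨w, uw⟩ := exists_wed (u := u) (by rintro rfl; rw [n.zero] at u1; exact zero_ne_one u1)
  set f : ℝ → ℝ := fun m => N (m • u + w) with hf
  have p : ∀ m : ℝ, 0 < f m := fun m => n.pos _ fun e => uw (by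
    rw [eq_neg_of_add_eq_zero_right e]
    simp only [wed, Prod.fst_neg, Prod.snd_neg, Prod.smul_fst, Prod.smul_snd, smul_eq_mul]
    ring)
  have cf : Continuous f := n.cont.comp (by fun_prop)
  have fl : ∀ a c : ℝ, f c - f a ≤ |c - a| := fun a c => by
    have := n.sub_le (c • u + w) (a • u + w)
    rwa [add_sub_add_right_eq_sub, ← sub_smul, n.smul, u1, mul_one] at this
  have low : ∀ m : ℝ, |m| - N w ≤ f m := fun m => by
    have := n.add (m • u + w) (-w)
    rw [add_neg_cancel_right, n.smul, u1, n.neg] at this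
    simp only [hf]
    linarith
  have cb : Continuous b := by
    obtain ⟨K, K0, hK⟩ := n.upper
    refine (LipschitzWith.of_dist_le_mul (K := ⟨K, K0.le⟩) fun v w => ?_).continuous
    rw [Real.dist_eq, dist_eq_norm, abs_le]
    have h1 := lip v w
    have h2 := lip w v
    rw [n.sub_comm] at h2
    have := hK (v - w)
    change -(K * ‖v - w‖) ≤ _ ∧ _ ≤ K * ‖v - w‖
    constructor <;> linarith
  set χ : ℝ → ℝ := fun y => b (y • w) with hχ
  set g : ℝ → ℝ := fun m => (f m)⁻¹ * m + χ (f m)⁻¹ with hg
  have ci : Continuous fun m => (f m)⁻¹ := cf.inv₀ fun m => (p m).ne'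
  have cg : Continuous g := (ci.mul continuous_id).add (cb.comp (ci.smul continuous_const))
  have sub : ∀ m, ∀ s > (0 : ℝ), f m - f (m - s) ≤ s * g m ∧ s * g m ≤ f (m + s) - f m := by
    intro m s hs
    have ν0 := p m
    have i0 := inv_pos.2 ν0
    have := h ((f m)⁻¹ • (m • u + w)) (by rw [n.smul_nonneg i0.le]; exact inv_mul_cancel₀ ν0.ne')
      ((f m)⁻¹ * s) (by positivity)
    rw [show (f m)⁻¹ • (m • u + w) - ((f m)⁻¹ * s) • u = (f m)⁻¹ • ((m - s) • u + w) by module,
      show (f m)⁻¹ • (m • u + w) + ((f m)⁻¹ * s) • u = (f m)⁻¹ • ((m + s) • u + w) by module,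
      n.smul_nonneg i0.le, n.smul_nonneg i0.le, n.smul_nonneg i0.le,
      show (f m)⁻¹ • (m • u + w) = (f m)⁻¹ • w + ((f m)⁻¹ * m) • u by module, sh, ← mul_sub, ← mul_sub,
      mul_assoc, mul_le_mul_iff_right₀ i0, mul_le_mul_iff_right₀ i0, add_comm (b _)] at this
    exact this
  obtain ⟨c, c1, c2, c3⟩ := l0_asym cf (fun a c ac => by
    simpa [abs_of_nonneg (sub_nonneg.2 ac)] using fl a c) low
  obtain ⟨c', d1, d2, d3⟩ := l0_asym (n := fun m => f (-m)) (K := N w) (cf.comp continuous_neg)
    (fun a c ac => by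
      have := fl (-a) (-c)
      rwa [neg_sub_neg, abs_sub_comm, abs_of_nonneg (sub_nonneg.2 ac)] at this)
    (fun m => by simpa using low (-m))
  have cc : c + c' ≤ 0 := by
    refine le_of_forall_pos_le_add fun η hη => ?_
    obtain ⟨ν, ⟨m, m0, e, m1, m2⟩, ⟨k, k0, e', k1, k2⟩⟩ :=
      ((c3 (η / 8) (by positivity)).and (d3 (η / 8) (by positivity))).exists
    have ν0 : 0 < ν := e ▸ p m
    have a1 := (sub m (m / 2) (by positivity)).1
    have a2 := (sub (-k) (k / 2) (by positivity)).2
    rw [show m - m / 2 = m / 2 by ring] at a1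
    rw [show -k + k / 2 = -(k / 2) by ring] at a2
    have a3 := c1 m
    have a4 := d1 k
    simp only [hg, e, e'] at a1 a2 a3 a4
    have b1 : 1 - η / 2 * ν⁻¹ ≤ ν⁻¹ * m + χ ν⁻¹ := by
      have : η / 8 ≤ m / 2 * (η / 2 * ν⁻¹) := by
        rw [← div_eq_mul_inv, ← mul_div_assoc, le_div_iff₀ ν0]
        nlinarith
      apply le_of_mul_le_mul_left _ (show 0 < m / 2 by positivity)
      linarith
    have b2 : ν⁻¹ * -k + χ ν⁻¹ ≤ -1 + η / 2 * ν⁻¹ := by
      have : η / 8 ≤ k / 2 * (η / 2 * ν⁻¹) := by
        rw [← div_eq_mul_inv, ← mul_div_assoc, le_div_iff₀ ν0]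
        nlinarith
      apply le_of_mul_le_mul_left _ (show 0 < k / 2 by positivity)
      linarith
    have b3 : ν⁻¹ * (2 * ν - η) ≤ ν⁻¹ * (m + k) := by
      have : ν⁻¹ * ν = 1 := inv_mul_cancel₀ ν0.ne'
      linarith
    have := le_of_mul_le_mul_left b3 (inv_pos.2 ν0)
    linarith
  have lin : ∀ y > (0 : ℝ), χ y = c * y := by
    intro y y0
    have t : Tendsto (fun T : ℝ => T / y) atTop atTop := tendsto_id.atTop_div_const y0
    apply le_antisymm
    · rw [mul_comm]
      refine ge_of_tendsto' ((c2.comp t).const_mul y) fun T => ?_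
      have h1 := lip (y • w) (0 + (-T) • u)
      rw [sh, b0, show y • w - (0 + (-T) • u) = y • ((T / y) • u + w) by
        rw [smul_add, smul_smul, mul_div_cancel₀ _ y0.ne']; module, n.smul_nonneg y0.le] at h1
      simp only [Function.comp, mul_sub, mul_div_cancel₀ _ y0.ne']
      linarith
    · have : -χ y ≤ y * c' := by
        refine ge_of_tendsto' ((d2.comp t).const_mul y) fun T => ?_
        have h1 := lip (0 + T • u) (y • w)
        rw [sh, b0, show 0 + T • u - y • w = (-y) • ((-(T / y)) • u + w) by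
          rw [smul_add, smul_smul, neg_mul_neg, mul_div_cancel₀ _ y0.ne']; module, n.smul, abs_neg,
          abs_of_pos y0] at h1
        simp only [Function.comp, mul_sub, mul_div_cancel₀ _ y0.ne']
        linarith
      nlinarith
  have der : ∀ m, HasDerivAt (fun m => f m ^ 2 - (m ^ 2 + 2 * c * m)) 0 m := fun m => by
    refine (((l0_der cg sub m).fun_pow 2).fun_sub
      ((hasDerivAt_pow 2 m).fun_add ((hasDerivAt_id' m).const_mul (2 * c)))).congr_deriv ?_
    have := p m
    simp only [hg, lin _ (inv_pos.2 this)]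
    field_simp
    ring
  refine quad_of_line n u1 uw (c := c) (e := f 0 ^ 2) fun m => ?_
  have := is_const_of_deriv_eq_zero (fun m => (der m).differentiableAt) (fun m => (der m).deriv) m 0
  simp only [hf] at this ⊢
  linarith

end Pool.Agent.P.MP_874adf_gt.Fs
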