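import Pool.Agent.P.MP_874adf_gt.Fs.Ident

/-! A strictly convex norm with the theorem of Thales for one diameter is Euclidean. -/

set_option autoImplicit false

namespace Pool.Agent.P.MP_874adf_gt.Fs

open Set Filter Topology Metric

structure L1H (n : ℝ → ℝ) : Prop where
  pos : ∀ m, 0 < n m
  cont : Continuous n
  s1 : StrictMono fun m => m - n m
  s2 : StrictMono fun m => m + n m
  low : ∃ K, ∀ m, |m| - K ≤ n m
  mid : ∀ a b, a ≠ b → n ((a + b) / 2) < (n a + n b) / 2
  sub1 : ∀ m t, n (m + n m) + n (m + n m) / (2 * n m) * (t - (m + n m)) ≤ n t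
  sub2 : ∀ m t, n (m - n m) - n (m - n m) / (2 * n m) * (t - (m - n m)) ≤ n t

namespace L1H

variable {n : ℝ → ℝ} (h : L1H n)
include h

lemma refl : L1H fun m => n (-m) where
  pos m := h.pos _
  cont := h.cont.comp continuous_neg
  s1 a b ab := by have := h.s2 (neg_lt_neg ab); simp only at this ⊢; linarith
  s2 a b ab := by have := h.s1 (neg_lt_neg ab); simp only at this ⊢; linarith
  low := h.low.imp fun K hK m => by simpa using hK (-m)
  mid a b ab := by
    have := h.mid (-a) (-b) (neg_injective.ne ab)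
    rwa [show (-a + -b) / 2 = -((a + b) / 2) by ring] at this
  sub1 m t := by
    have := h.sub2 (-m) (-t)
    rw [show -(m + n (-m)) = -m - n (-m) by ring]
    linarith
  sub2 m t := by
    have := h.sub1 (-m) (-t)
    rw [show -(m - n (-m)) = -m + n (-m) by ring]
    linarith

lemma shift (c : ℝ) : L1H fun m => n (m + c) where
  pos m := h.pos _
  cont := h.cont.comp (by fun_prop)
  s1 a b ab := by have := h.s1 (add_lt_add_left ab c); simp only at this ⊢; linarith
  s2 a b ab := by have := h.s2 (add_lt_add_left ab c); simp only at this ⊢; linarith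
  low := by
    obtain ⟨K, hK⟩ := h.low
    refine ⟨K + |c|, fun m => ?_⟩
    have := hK (m + c)
    have h2 := abs_add_le (m + c) (-c)
    rw [add_neg_cancel_right, abs_neg] at h2
    linarith
  mid a b ab := by
    have := h.mid (a + c) (b + c) (by simpa using ab)
    rwa [show (a + c + (b + c)) / 2 = (a + b) / 2 + c by ring] at this
  sub1 m t := by
    have := h.sub1 (m + c) (t + c)
    rw [show m + n (m + c) + c = m + c + n (m + c) by ring]
    linarith
  sub2 m t := by
    have := h.sub2 (m + c) (t + c)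
    rw [show m - n (m + c) + c = m + c - n (m + c) by ring]
    linarith

lemma top : Tendsto n atTop atTop := by
  obtain ⟨K, hK⟩ := h.low
  exact tendsto_atTop_mono hK (tendsto_atTop_add_const_right _ (-K) tendsto_abs_atTop_atTop)

lemma bot : Tendsto n atBot atTop := by
  obtain ⟨K, hK⟩ := h.low
  exact tendsto_atTop_mono hK (tendsto_atTop_add_const_right _ (-K) tendsto_abs_atBot_atTop)

lemma lim1 : ∃ c, Tendsto (fun m => m - n m) atTop (𝓝 c) ∧ ∀ t, n c ≤ n t := by
  obtain ⟨K, hK⟩ := h.low
  have t1 := tendsto_atTop_ciSup h.s1.monotone ⟨K, by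
    rintro _ ⟨m, rfl⟩
    have := hK m
    have := le_abs_self m
    simp only
    linarith⟩
  refine ⟨_, t1, fun t => ?_⟩
  have t2 := (h.cont.tendsto _).comp t1
  have t3 := t2.sub ((t2.div_atTop (h.top.const_mul_atTop two_pos)).mul (t1.const_sub t))
  rw [zero_mul, sub_zero] at t3
  exact le_of_tendsto' t3 fun m => h.sub2 m t

lemma lim : ∃ c, Tendsto (fun m => m - n m) atTop (𝓝 c) ∧ Tendsto (fun m => m + n m) atBot (𝓝 c) := by
  obtain ⟨c, t1, m1⟩ := h.lim1
  obtain ⟨c', t2, m2⟩ := h.refl.lim1
  have e : c = -c' := by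
    by_contra ne
    have := h.mid _ _ ne
    have a1 := m1 ((c + -c') / 2)
    have a2 := m2 (-c)
    simp only [neg_neg] at a2
    linarith
  refine ⟨c, t1, ?_⟩
  have := (t2.comp tendsto_neg_atBot_atTop).neg
  rw [← e] at this
  exact this.congr fun m => by simp [add_comm]

lemma der (m : ℝ) : HasDerivAt n (n (m + n m) / (2 * n m)) (m + n m) := by
  have hc : Continuous fun m => m + n m := continuous_id.add h.cont
  have cG : Continuous fun m => n (m + n m) / (2 * n m) :=
    (h.cont.comp hc).div (continuous_const.mul h.cont) fun m => by have := h.pos m; positivity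
  rw [hasDerivAt_iff_tendsto_slope, Metric.tendsto_nhds]
  intro ε hε
  obtain ⟨δ, δ0, hδ⟩ := Metric.continuousAt_iff.1 (cG.continuousAt (x := m)) ε hε
  have l1 := h.s2 (show m - δ / 2 < m by linarith)
  have l2 := h.s2 (show m < m + δ / 2 by linarith)
  filter_upwards [nhdsWithin_le_nhds (Icc_mem_nhds l1 l2), self_mem_nhdsWithin] with y hy ne
  obtain ⟨k, hk, rfl⟩ := intermediate_value_Icc (by linarith) hc.continuousOn hy
  have a1 := hδ (x := k) (by
    rw [Real.dist_eq, abs_lt]
    constructor <;> linarith [hk.1, hk.2])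
  have a2 := h.sub1 m (k + n k)
  have a3 := h.sub1 k (m + n m)
  rw [Real.dist_eq, abs_lt] at a1 ⊢
  rw [slope_def_field]
  simp only at a1 ⊢
  generalize n (m + n m) / (2 * n m) = g at *
  generalize n (k + n k) / (2 * n k) = g' at *
  rcases lt_or_gt_of_ne (show k + n k ≠ m + n m from ne) with c | c
  · have c' : k + n k - (m + n m) < 0 := by linarith
    have b1 : (n (k + n k) - n (m + n m)) / (k + n k - (m + n m)) ≤ g := by
      rw [div_le_iff_of_neg c']; linarith
    have b2 : g' ≤ (n (k + n k) - n (m + n m)) / (k + n k - (m + n m)) := by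
      rw [le_div_iff_of_neg c']; linarith
    constructor <;> linarith
  · have c' : 0 < k + n k - (m + n m) := by linarith
    have b1 : g ≤ (n (k + n k) - n (m + n m)) / (k + n k - (m + n m)) := by
      rw [le_div_iff₀ c']; linarith
    have b2 : (n (k + n k) - n (m + n m)) / (k + n k - (m + n m)) ≤ g' := by
      rw [div_le_iff₀ c']; linarith
    constructor <;> linarith

end L1H

noncomputable def l1S (n : ℝ → ℝ) (m : ℝ) : ℝ := n (m + n m) ^ 2 / n m - 2 * (m + n m)

structure L1Z (n : ℝ → ℝ) : Prop where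
  h : L1H n
  t1 : Tendsto (fun m => m - n m) atTop (𝓝 0)
  t2 : Tendsto (fun m => m + n m) atBot (𝓝 0)

namespace L1Z

variable {n : ℝ → ℝ} (z : L1Z n)
include z

lemma refl : L1Z fun m => n (-m) where
  h := z.h.refl
  t1 := by
    have := (z.t2.comp tendsto_neg_atTop_atBot).neg
    rw [neg_zero] at this
    exact this.congr fun m => by simp [sub_eq_add_neg, add_comm]
  t2 := by
    have := (z.t1.comp tendsto_neg_atBot_atTop).neg
    rw [neg_zero] at this
    exact this.congr fun m => by simp [add_comm]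

lemma hpos (m : ℝ) : 0 < m + n m := by
  have := z.h.s2.monotone.le_of_tendsto z.t2 (m - 1)
  have h2 := z.h.s2 (show m - 1 < m by linarith)
  simp only at this h2
  linarith

lemma surj {x : ℝ} (hx : 0 < x) : ∃ m, m + n m = x := by
  obtain ⟨a, ha⟩ := (z.t2.eventually (gt_mem_nhds hx)).exists
  exact intermediate_value_univ a x (continuous_id.add z.h.cont)
    ⟨ha.le, by have := z.h.pos x; simp only [Pi.add_apply, id]; linarith⟩

lemma der (m : ℝ) : HasDerivAt (fun x => n x ^ 2 - x ^ 2) (l1S n m) (m + n m) := by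
  refine (((z.h.der m).fun_pow 2).fun_sub (hasDerivAt_pow 2 _)).congr_deriv ?_
  have := z.h.pos m
  simp only [l1S]
  field_simp
  ring

lemma Scont : Continuous (l1S n) :=
  (((z.h.cont.comp (continuous_id.add z.h.cont)).pow 2).div z.h.cont fun m => (z.h.pos m).ne').sub
    (continuous_const.mul (continuous_id.add z.h.cont))

lemma Sbot : Tendsto (l1S n) atBot (𝓝 0) := by
  have := ((((z.h.cont.tendsto _).comp z.t2).pow 2).div_atTop z.h.bot).sub (z.t2.const_mul 2)
  rw [mul_zero, sub_zero] at this
  exact this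

lemma Stop : Tendsto (l1S n) atTop (𝓝 0) := by
  have a1 := z.t1
  have a2 := z.t1.comp (Tendsto.atTop_add_atTop tendsto_id z.h.top)
  have a3 := z.h.top.inv_tendsto_atTop
  have := (((a1.const_mul 2).sub (a2.const_mul 4)).mul ((a1.mul a3).const_add 1)).add
    ((((a1.add a2).pow 2).sub ((a1.pow 2).const_mul 2)).mul a3)
  simp only [mul_zero, sub_self, zero_mul, add_zero] at this
  refine this.congr fun m => ?_
  have := z.h.pos m
  simp only [l1S, Function.comp, id, Pi.inv_apply]
  field_simp
  ring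

lemma anti {σ s : ℝ} (b1 : ∀ m, σ * l1S n m ≤ s) (b2 : ∀ m, -σ * l1S (fun m => n (-m)) m ≤ s) :
    Antitone fun x => σ * (n x ^ 2 - x ^ 2) - s * x := by
  have c : Continuous fun x => σ * (n x ^ 2 - x ^ 2) - s * x := by
    have := z.h.cont
    fun_prop
  have d1 : ∀ x, 0 < x → ∃ D ≤ 0, HasDerivAt (fun x => σ * (n x ^ 2 - x ^ 2) - s * x) D x := by
    intro x hx
    obtain ⟨m, rfl⟩ := z.surj hx
    exact ⟨_, by linarith [b1 m], ((z.der m).const_mul σ).fun_sub ((hasDerivAt_id' _).const_mul s)⟩
  have d2 : ∀ x, x < 0 → ∃ D ≤ 0, HasDerivAt (fun x => σ * (n x ^ 2 - x ^ 2) - s * x) D x := by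
    intro x hx
    obtain ⟨m, e⟩ := z.refl.surj (neg_pos.2 hx)
    have := z.refl.der m
    rw [e] at this
    have k := this.comp x (hasDerivAt_neg x)
    refine ⟨_, ?_, ((k.congr_of_eventuallyEq (Eventually.of_forall fun y => by simp)).const_mul σ).fun_sub
      ((hasDerivAt_id' _).const_mul s)⟩
    linarith [b2 m]
  have A1 : AntitoneOn (fun x => σ * (n x ^ 2 - x ^ 2) - s * x) (Ici 0) :=
    antitoneOn_of_deriv_nonpos (convex_Ici 0) c.continuousOn
      (fun x hx => by
        rw [interior_Ici] at hx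
        obtain ⟨D, -, k⟩ := d1 x hx
        exact k.differentiableAt.differentiableWithinAt)
      (fun x hx => by
        rw [interior_Ici] at hx
        obtain ⟨D, D0, k⟩ := d1 x hx
        rwa [k.deriv])
  have A2 : AntitoneOn (fun x => σ * (n x ^ 2 - x ^ 2) - s * x) (Iic 0) :=
    antitoneOn_of_deriv_nonpos (convex_Iic 0) c.continuousOn
      (fun x hx => by
        rw [interior_Iic] at hx
        obtain ⟨D, -, k⟩ := d2 x hx
        exact k.differentiableAt.differentiableWithinAt)
      (fun x hx => by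
        rw [interior_Iic] at hx
        obtain ⟨D, D0, k⟩ := d2 x hx
        rwa [k.deriv])
  exact A2.Iic_union_Ici A1

lemma noMax {σ s : ℝ} (s0 : 0 < s) (an : Antitone fun x => σ * (n x ^ 2 - x ^ 2) - s * x) (m : ℝ) :
    σ * l1S n m ≠ s := by
  intro hm
  have cl : IsClosed {m | σ * l1S n m = s} := isClosed_eq (continuous_const.mul z.Scont) continuous_const
  have bd : BddBelow {m | σ * l1S n m = s} := by
    have := z.Sbot.const_mul σ
    rw [mul_zero] at this
    obtain ⟨a, ha⟩ := eventually_atBot.1 (this.eventually (gt_mem_nhds s0))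
    exact ⟨a, fun m hm => le_of_not_gt fun c => (ha m c.le).ne hm⟩
  obtain ⟨k, hk, le⟩ : ∃ k, IsLeast {m | σ * l1S n m = s} k := ⟨_, cl.isLeast_csInf ⟨m, hm⟩ bd⟩
  have hk : σ * l1S n k = s := hk
  have n0 := z.h.pos k
  have e : σ * (n (k + n k) ^ 2 - (k + n k) ^ 2) - s * (k + n k) = σ * (n k ^ 2 - k ^ 2) - s * k := by
    rw [← hk, l1S]
    field_simp
    ring
  obtain ⟨y, y1, y2⟩ := exists_between (max_lt (show k < k + n k by linarith) (z.hpos k))
  rw [max_lt_iff] at y1
  obtain ⟨j, rfl⟩ := z.surj y1.2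
  have d := ((z.der j).const_mul σ).fun_sub ((hasDerivAt_id' _).const_mul s)
  have d' : HasDerivAt (fun x => σ * (n x ^ 2 - x ^ 2) - s * x) 0 (j + n j) := by
    refine (hasDerivAt_const _ (σ * (n k ^ 2 - k ^ 2) - s * k)).congr_of_eventuallyEq ?_
    filter_upwards [Icc_mem_nhds y1.1 y2] with x hx
    exact le_antisymm (an hx.1) (e ▸ an hx.2)
  have := d.unique d'
  have jk : j < k := z.h.s2.lt_iff_lt.1 y2
  exact absurd (le (show σ * l1S n j = s by linarith)) (not_le.2 jk)

lemma bound (σ : ℝ) : (∀ m, σ * l1S n m ≤ 0) ∧ ∀ m, -σ * l1S (fun m => n (-m)) m ≤ 0 := by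
  set T : ℝ → ℝ := fun m => max (σ * l1S n m) (-σ * l1S (fun m => n (-m)) m) with hT
  have cT : Continuous T := (continuous_const.mul z.Scont).max (continuous_const.mul z.refl.Scont)
  suffices ∀ m, T m ≤ 0 from
    ⟨fun m => (le_max_left _ _).trans (this m), fun m => (le_max_right _ _).trans (this m)⟩
  by_contra hc
  push Not at hc
  obtain ⟨m0, h0⟩ := hc
  have tT : Tendsto T (cocompact ℝ) (𝓝 0) := by
    rw [cocompact_eq_atBot_atTop, tendsto_sup]
    have a1 := (z.Sbot.const_mul σ).max (z.refl.Sbot.const_mul (-σ))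
    have a2 := (z.Stop.const_mul σ).max (z.refl.Stop.const_mul (-σ))
    rw [mul_zero, mul_zero, max_self] at a1 a2
    exact ⟨a1, a2⟩
  obtain ⟨k, hk⟩ := cT.exists_forall_ge' m0 (tT.eventually (ge_mem_nhds h0))
  have s0 : 0 < T k := h0.trans_le (hk m0)
  have b1 : ∀ m, σ * l1S n m ≤ T k := fun m => (le_max_left _ _).trans (hk m)
  have b2 : ∀ m, -σ * l1S (fun m => n (-m)) m ≤ T k := fun m => (le_max_right _ _).trans (hk m)
  rcases max_choice (σ * l1S n k) (-σ * l1S (fun m => n (-m)) k) with e | e
  · exact z.noMax s0 (z.anti b1 b2) k e.symm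
  · exact z.refl.noMax s0 (z.refl.anti b2 (by simpa using b1)) k e.symm

lemma const (x : ℝ) : n x ^ 2 = x ^ 2 + n 0 ^ 2 := by
  have a1 := z.anti (z.bound 1).1 (z.bound 1).2
  have a2 := z.anti (z.bound (-1)).1 (z.bound (-1)).2
  rcases le_total x 0 with c | c
  · have b1 := a1 c
    have b2 := a2 c
    simp only at b1 b2
    linarith
  · have b1 := a1 c
    have b2 := a2 c
    simp only at b1 b2
    linarith

end L1Z

lemma L1H.quad {n : ℝ → ℝ} (h : L1H n) : ∃ c e, ∀ m, n m ^ 2 = m ^ 2 + 2 * c * m + e := by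
  obtain ⟨c, t1, t2⟩ := h.lim
  have z : L1Z fun m => n (m + c) := ⟨h.shift c, by
    have := (t1.comp (tendsto_atTop_add_const_right _ c tendsto_id)).sub_const c
    rw [sub_self] at this
    exact this.congr fun m => by simp only [Function.comp, id]; ring, by
    have := (t2.comp (tendsto_atBot_add_const_right _ c tendsto_id)).sub_const c
    rw [sub_self] at this
    exact this.congr fun m => by simp only [Function.comp, id]; ring⟩
  refine ⟨-c, c ^ 2 + n (0 + c) ^ 2, fun m => ?_⟩
  have := z.const (m - c)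
  simp only [sub_add_cancel] at this
  rw [this]
  ring

/-- from the restriction to a line to the quadratic form -/
lemma quad_of_line {N : P → ℝ} (n : IsN N) {u w : P} (u1 : N u = 1) (uw : wed u w ≠ 0) {c e : ℝ}
    (h : ∀ m : ℝ, N (m • u + w) ^ 2 = m ^ 2 + 2 * c * m + e) : Quad N := by
  have k : ∀ x y : ℝ, N (x • u + y • w) ^ 2 = x ^ 2 + 2 * c * x * y + e * y ^ 2 := by
    intro x y
    rcases eq_or_ne y 0 with rfl | y0
    · simp [n.smul, u1]
    have : x • u + y • w = y • ((x / y) • u + w) := by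
      rw [smul_add, smul_smul, mul_div_cancel₀ _ y0]
    rw [this, n.smul, mul_pow, sq_abs, h]
    field_simp
  refine ⟨(w.2 ^ 2 - 2 * c * w.2 * u.2 + e * u.2 ^ 2) / wed u w ^ 2,
    (-(w.1 * w.2) + c * (w.2 * u.1 + w.1 * u.2) - e * u.1 * u.2) / wed u w ^ 2,
    (w.1 ^ 2 - 2 * c * w.1 * u.1 + e * u.1 ^ 2) / wed u w ^ 2, fun v => ?_⟩
  have : v = (wed v w / wed u w) • u + (wed u v / wed u w) • w := by
    ext <;> simp only [Prod.fst_add, Prod.snd_add, Prod.smul_fst, Prod.smul_snd, smul_eq_mul] <;>
      field_simp <;> simp only [wed] <;> ring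
  conv_lhs => rw [this, k]
  simp only [bf]
  field_simp
  simp only [wed]
  ring

lemma l1_half {N : P → ℝ} (n : IsN N) (sc : SC N) {u w : P} (u1 : N u = 1) (uw : wed u w ≠ 0)
    (h : Case1 N u) : (∀ m : ℝ, 0 < N (m • u + w)) ∧ (StrictMono fun m : ℝ => m - N (m • u + w)) ∧
      ∀ m t : ℝ, N ((m - N (m • u + w)) • u + w) - N ((m - N (m • u + w)) • u + w) /
        (2 * N (m • u + w)) * (t - (m - N (m • u + w))) ≤ N (t • u + w) := by
  have wd : ∀ m t : ℝ, wed (m • u + w) (t • u) = -t * wed u w := fun m t => by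
    simp only [wed, Prod.fst_add, Prod.snd_add, Prod.smul_fst, Prod.smul_snd, smul_eq_mul]; ring
  have p : ∀ m : ℝ, 0 < N (m • u + w) := fun m => n.pos _ fun e => by
    have := wd m 1
    rw [e] at this
    simp [wed] at this
    exact uw (by simp only [wed]; linarith)
  refine ⟨p, fun a b ab => ?_, fun m t => ?_⟩
  · have := sc (a • u + w) ((b - a) • u) (by
      rw [wd]; exact mul_ne_zero (by linarith) uw)
    rw [n.smul_nonneg (by linarith), u1, show a • u + w + (b - a) • u = b • u + w by module] at this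
    simp only
    linarith
  have ν0 := p m
  set ν := N (m • u + w) with hν
  have hX : N (ν⁻¹ • (m • u + w)) = 1 := by
    rw [n.smul_nonneg (inv_pos.2 ν0).le, inv_mul_cancel₀ ν0.ne']
  have e : ∀ s : ℝ, N (u - ν⁻¹ • (m • u + w) + s • u) = ν⁻¹ * N ((m - ν - s * ν) • u + w) := fun s => by
    rw [← n.smul_nonneg (inv_pos.2 ν0).le, ← n.neg]
    congr 1
    have : (1 + s) • u = ν⁻¹ • ((1 + s) * ν) • u := by
      rw [smul_smul]
      congr 1
      field_simp
    linear_combination (norm := module) -this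
  have e0 := e 0
  rw [zero_smul, add_zero, zero_mul, sub_zero] at e0
  rcases lt_trichotomy t (m - ν) with c | rfl | c
  · have := (h _ hX ((m - ν - t) / ν) (by have : 0 < m - ν - t := by linarith
                                          positivity)).2
    rw [e, e0, div_mul_cancel₀ _ ν0.ne', sub_sub_cancel] at this
    generalize N ((m - ν) • u + w) = A at *
    generalize N (t • u + w) = B at *
    have k := mul_le_mul_of_nonneg_left this ν0.le
    have e1 : ν * ((m - ν - t) / ν * (ν⁻¹ * A) / 2) = -(A / (2 * ν) * (t - (m - ν))) := by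
      field_simp; ring
    have e2 : ν * (ν⁻¹ * B - ν⁻¹ * A) = B - A := by field_simp
    linarith
  · simp
  · have := (h _ hX ((t - (m - ν)) / ν) (by have : 0 < t - (m - ν) := by linarith
                                            positivity)).1
    rw [sub_eq_add_neg (u - _), ← neg_smul, e, e0, neg_mul, div_mul_cancel₀ _ ν0.ne',
      show m - ν - -(t - (m - ν)) = t by ring] at this
    generalize N ((m - ν) • u + w) = A at *
    generalize N (t • u + w) = B at *
    have k := mul_le_mul_of_nonneg_left this ν0.le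
    have e1 : ν * ((t - (m - ν)) / ν * (ν⁻¹ * A) / 2) = A / (2 * ν) * (t - (m - ν)) := by
      field_simp
    have e2 : ν * (ν⁻¹ * A - ν⁻¹ * B) = A - B := by field_simp
    linarith

lemma exists_wed {u : P} (hu : u ≠ 0) : ∃ w, wed u w ≠ 0 :=
  ⟨rot 1 0 1 u, by rw [wed_rot]; exact (bf_pos one_pos (by norm_num) hu).ne'⟩

theorem t_l1 : S_L1 := by
  intro N u n sc u1 h
  obtain ⟨w, uw⟩ := exists_wed (u := u) (by rintro rfl; rw [n.zero] at u1; exact zero_ne_one u1)
  obtain ⟨a1, a2, a3⟩ := l1_half n sc u1 uw h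
  obtain ⟨-, b2, b3⟩ := l1_half n sc (u := -u) (w := w) (by rwa [n.neg])
    (fun e => uw (by simp only [wed, Prod.fst_neg, Prod.snd_neg] at e ⊢; linarith)) (by
      intro X hX s hs
      have := h (-X) (by rwa [n.neg]) s hs
      rwa [← n.neg (u - -X), ← n.neg (u - -X - s • u), ← n.neg (u - -X + s • u),
        show -(u - -X) = -u - X by module, show -(u - -X - s • u) = -u - X - s • -u by module,
        show -(u - -X + s • u) = -u - X + s • -u by module] at this)
  simp only [smul_neg, ← neg_smul] at b2 b3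
  have H : L1H fun m : ℝ => N (m • u + w) := by
    refine ⟨a1, n.cont.comp (by fun_prop), a2, fun a b ab => ?_, ⟨N w, fun m => ?_⟩,
      fun a b ab => ?_, fun m t => ?_, a3⟩
    · have := b2 (neg_lt_neg ab)
      simp only [neg_neg] at this ⊢
      linarith
    · have := n.add (m • u + w) (-w)
      rw [add_neg_cancel_right, n.smul, u1, n.neg] at this
      linarith
    · have := sc (a • u + w) (b • u + w) (by
        have : wed (a • u + w) (b • u + w) = (a - b) * wed u w := by
          simp only [wed, Prod.fst_add, Prod.snd_add, Prod.smul_fst, Prod.smul_snd, smul_eq_mul]; ring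
        rw [this]
        exact mul_ne_zero (sub_ne_zero.2 ab) uw)
      rw [show a • u + w + (b • u + w) = (2 : ℝ) • (((a + b) / 2) • u + w) by module,
        n.smul_nonneg zero_le_two] at this
      linarith
    · have := b3 (-m) (-t)
      simp only [neg_neg, neg_sub, sub_neg_eq_add] at this
      rw [add_comm m]
      linarith
  obtain ⟨c, e, k⟩ := H.quad
  exact quad_of_line n u1 uw k

end Pool.Agent.P.MP_874adf_gt.Fs
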