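import Pool.Agent.P.MP_874adf_gt.Fs.Defs

/-! Projective-metric planes of both types as abstract metric spaces. -/

set_option autoImplicit false

namespace Pool.Agent.P.MP_874adf_gt.Fs

open Set

/-- The circle with centre `O` and radius `a` of the metric space `X` is an Apollonius set. -/
def Apo (X : Type) [MetricSpace X] (O : X) (a : ℝ) : Prop :=
  ∃ A B : X, ∃ r : ℝ, A ≠ B ∧ 0 < r ∧ r ≠ 1 ∧
    {Y | dist O Y = a} = {C | dist A C / dist C B = r}

/-- `X` is a projective-metric plane `(M, d)` on an open convex set `M` of the plane, with a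
continuous positive infinitesimal length on a dense open subset `W` of `M`. -/
def AffType (X : Type) [MetricSpace X] : Prop :=
  ∃ (M W : Set (ℝ × ℝ)) (d F : ℝ × ℝ → ℝ × ℝ → ℝ) (e : X ≃ M), PM M d ∧
    (∀ x y : X, dist x y = d (e x) (e y)) ∧ IsOpen W ∧ W ⊆ M ∧ M ⊆ closure W ∧ Fins W d F

/-- `X` is the real projective plane with a metric in which every projective line is isometric to
the circle `ℝ / L ℤ`, with the same length `L` for all lines. -/
def ProjType (X : Type) [MetricSpace X] : Prop :=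
  ∃ (e : Projectivization ℝ (Fin 3 → ℝ) ≃ X) (L : ℝ), 0 < L ∧
    ∀ V : Submodule ℝ (Fin 3 → ℝ), Module.finrank ℝ V = 2 →
      ∃ γ : ℝ → Projectivization ℝ (Fin 3 → ℝ), range γ = {x | x.submodule ≤ V} ∧
        ∀ s t : ℝ, dist (e (γ s)) (e (γ t)) = ‖((s - t : ℝ) : AddCircle L)‖

end Pool.Agent.P.MP_874adf_gt.Fs
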